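import Pool.Agent.H133.ZM.Stm

/-!
# Project ZM, task `S_bgl` (for helper133): short zero-sum subsequences.

Scherk's lemma is after the library module `Pool.Graph.R_seed8.R93.Scherk`.
-/

set_option autoImplicit false

open Finset
open scoped Pointwise

namespace Pool.Agent.H133.ZM.Bg

/-- Scherk's theorem: if `0 ∈ A ∩ B` and `0 = a + b` only for `a = b = 0`, then
`|A| + |B| ≤ |A + B| + 1`. -/
theorem scherk_zero {G : Type*} [AddCommGroup G] [DecidableEq G] :
    ∀ (n : ℕ) (A B : Finset G), B.card = n → (0 : G) ∈ A → (0 : G) ∈ B →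
      (∀ a ∈ A, ∀ b ∈ B, a + b = 0 → b = 0) → A.card + B.card ≤ (A + B).card + 1 := by
  intro n
  induction n using Nat.strong_induction_on with
  | _ n ih =>
  intro A B hn hA hB hu
  by_cases hB1 : B = {0}
  · subst hB1
    simp
  · -- pick a nonzero `b`
    obtain ⟨b, hbB, hb0⟩ : ∃ b ∈ B, b ≠ 0 := by
      by_contra hcon
      push Not at hcon
      apply hB1
      ext x
      simp only [Finset.mem_singleton]
      exact ⟨fun hx => hcon x hx, fun hx => hx ▸ hB⟩
    obtain ⟨a, haA, hab⟩ : ∃ a ∈ A, a + b ∉ A := by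
      by_contra hcon
      push Not at hcon
      have himg : A.image (fun x => x + b) = A := by
        apply Finset.eq_of_subset_of_card_le
        · intro x hx
          obtain ⟨y, hy, rfl⟩ := Finset.mem_image.1 hx
          exact hcon y hy
        · rw [Finset.card_image_of_injective _ (add_left_injective b)]
      have h0 : (0 : G) ∈ A.image (fun x => x + b) := by rw [himg]; exact hA
      obtain ⟨y, hy, hyb⟩ := Finset.mem_image.1 h0
      exact hb0 (hu y hy b hbB hyb)
    set B1 : Finset G := B.filter (fun x => a + x ∉ A) with hB1def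
    set B0 : Finset G := B.filter (fun x => a + x ∈ A) with hB0def
    have hcardB : B0.card + B1.card = B.card :=
      Finset.card_filter_add_card_filter_not (s := B) (fun x => a + x ∈ A)
    have hbB1 : b ∈ B1 := Finset.mem_filter.2 ⟨hbB, hab⟩
    have hB1pos : 0 < B1.card := Finset.card_pos.2 ⟨b, hbB1⟩
    set A1 : Finset G := A ∪ B1.image (fun x => a + x) with hA1def
    have hdisj : Disjoint A (B1.image (fun x => a + x)) := by
      rw [Finset.disjoint_left]
      intro x hx hx'
      obtain ⟨y, hy, rfl⟩ := Finset.mem_image.1 hx'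
      exact (Finset.mem_filter.1 hy).2 hx
    have hcardA : A1.card = A.card + B1.card := by
      rw [hA1def, Finset.card_union_of_disjoint hdisj,
        Finset.card_image_of_injective _ (add_right_injective a)]
    have h0B0 : (0 : G) ∈ B0 := Finset.mem_filter.2 ⟨hB, by simpa using haA⟩
    have h0A1 : (0 : G) ∈ A1 := Finset.mem_union_left _ hA
    have hu1 : ∀ x ∈ A1, ∀ y ∈ B0, x + y = 0 → y = 0 := by
      intro x hx y hy hxy
      have hyB := (Finset.mem_filter.1 hy).1
      have hyA := (Finset.mem_filter.1 hy).2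
      rcases Finset.mem_union.1 hx with hx | hx
      · exact hu x hx y hyB hxy
      · obtain ⟨z, hz, rfl⟩ := Finset.mem_image.1 hx
        have hzB := (Finset.mem_filter.1 hz).1
        have hzA := (Finset.mem_filter.1 hz).2
        have h1 : (a + y) + z = 0 := by rw [← hxy]; abel
        have h2 := hu _ hyA z hzB h1
        subst h2
        exact absurd (by simpa using haA) hzA
    have hsub : A1 + B0 ⊆ A + B := by
      intro x hx
      obtain ⟨u, hu', v, hv, rfl⟩ := Finset.mem_add.1 hx
      have hvB := (Finset.mem_filter.1 hv).1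
      have hvA := (Finset.mem_filter.1 hv).2
      rcases Finset.mem_union.1 hu' with hu'' | hu''
      · exact Finset.add_mem_add hu'' hvB
      · obtain ⟨z, hz, rfl⟩ := Finset.mem_image.1 hu''
        have hzB := (Finset.mem_filter.1 hz).1
        have : (a + z) + v = (a + v) + z := by abel
        rw [this]
        exact Finset.add_mem_add hvA hzB
    have hind := ih B0.card (by omega) A1 B0 rfl h0A1 h0B0 hu1
    have hle := Finset.card_le_card hsub
    omega

/-- sums over the subsets with at most `h` elements -/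
def Sh {ι : Type} [DecidableEq ι] {m : ℕ} (h : ℕ) (T : Finset ι) (c : ι → ZMod m) :
    Finset (ZMod m) :=
  (T.powerset.filter (fun F => F.card ≤ h)).image (fun F => ∑ e ∈ F, c e)

theorem mem_Sh {ι : Type} [DecidableEq ι] {m h : ℕ} {T : Finset ι} {c : ι → ZMod m} {x : ZMod m} :
    x ∈ Sh h T c ↔ ∃ F ⊆ T, F.card ≤ h ∧ ∑ e ∈ F, c e = x := by
  unfold Sh
  simp only [mem_image, mem_filter, mem_powerset]
  constructor
  · rintro ⟨F, ⟨h1, h2⟩, h3⟩
    exact ⟨F, h1, h2, h3⟩
  · rintro ⟨F, h1, h2, h3⟩
    exact ⟨F, ⟨h1, h2⟩, h3⟩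

theorem card_Sh {ι : Type} [DecidableEq ι] {m : ℕ} (c : ι → ZMod m) (h : ℕ) :
    ∀ T : Finset ι, (∀ x, Pool.Agent.H133.ZM.mu T c x ≤ h) →
      (∀ F ⊆ T, F.Nonempty → F.card ≤ h → ∑ e ∈ F, c e ≠ 0) → 1 + T.card ≤ (Sh h T c).card := by
  induction h with
  | zero =>
    intro T hT _
    have hT0 : T = ∅ := by
      rw [Finset.eq_empty_iff_forall_notMem]
      intro e he
      have := hT (c e)
      unfold Pool.Agent.H133.ZM.mu at this
      rw [Nat.le_zero, Finset.card_eq_zero] at this
      have h2 : e ∈ T.filter (fun e' => c e' = c e) := Finset.mem_filter.2 ⟨he, rfl⟩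
      rw [this] at h2
      exact absurd h2 (Finset.notMem_empty e)
    subst hT0
    have : (0 : ZMod m) ∈ Sh 0 (∅ : Finset ι) c := mem_Sh.2 ⟨∅, subset_rfl, by simp, by simp⟩
    have := Finset.card_pos.2 ⟨_, this⟩
    rw [Finset.card_empty]
    omega
  | succ h ih =>
    intro T hT hF
    obtain ⟨R, hRT, hRinj, hRim⟩ : ∃ R ⊆ T, Set.InjOn c (R : Set ι) ∧ R.image c = T.image c := by
      obtain ⟨u, h1, h2, h3⟩ := Finset.exists_subset_injOn_image_eq_of_surjOn (f := c) (T : Set ι)
        (T.image c) (by rw [Finset.coe_image]; exact Set.surjOn_image _ _)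
      exact ⟨u, by exact_mod_cast h1, h2, h3⟩
    set T' := T \ R with hT'
    have hmu : ∀ x, Pool.Agent.H133.ZM.mu T' c x ≤ h := by
      intro x
      unfold Pool.Agent.H133.ZM.mu
      by_cases hx : x ∈ T.image c
      · rw [← hRim] at hx
        obtain ⟨r, hr, hrx⟩ := Finset.mem_image.1 hx
        have h1 : insert r (T'.filter (fun e => c e = x)) ⊆ T.filter (fun e => c e = x) := by
          intro e he
          rcases Finset.mem_insert.1 he with rfl | he
          · exact Finset.mem_filter.2 ⟨hRT hr, hrx⟩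
          · obtain ⟨h2, h3⟩ := Finset.mem_filter.1 he
            exact Finset.mem_filter.2 ⟨(Finset.mem_sdiff.1 h2).1, h3⟩
        have h2 : r ∉ T'.filter (fun e => c e = x) := by
          intro h3
          exact (Finset.mem_sdiff.1 (Finset.mem_filter.1 h3).1).2 hr
        have h3 := Finset.card_le_card h1
        rw [Finset.card_insert_of_notMem h2] at h3
        have h4 := hT x
        unfold Pool.Agent.H133.ZM.mu at h4
        omega
      · have : T'.filter (fun e => c e = x) = ∅ := by
          rw [Finset.filter_eq_empty_iff]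
          intro e he hex
          exact hx (Finset.mem_image.2 ⟨e, (Finset.mem_sdiff.1 he).1, hex⟩)
        rw [this, Finset.card_empty]
        exact Nat.zero_le _
    have hT'T : T' ⊆ T := Finset.sdiff_subset
    have hX := ih T' hmu (fun F h1 h2 h3 => hF F (h1.trans hT'T) h2 (by omega))
    set X := Sh h T' c with hXd
    set Y := insert 0 (R.image c) with hYd
    have h0R : (0 : ZMod m) ∉ R.image c := by
      intro h0
      obtain ⟨r, hr, hr0⟩ := Finset.mem_image.1 h0
      refine hF {r} (Finset.singleton_subset_iff.2 (hRT hr)) (Finset.singleton_nonempty r) ?_ ?_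
      · rw [Finset.card_singleton]
        omega
      · rw [Finset.sum_singleton]
        exact hr0
    have hYc : Y.card = R.card + 1 := by
      rw [hYd, Finset.card_insert_of_notMem h0R, Finset.card_image_of_injOn hRinj]
    have hX0 : (0 : ZMod m) ∈ X := mem_Sh.2 ⟨∅, Finset.empty_subset _, by simp, by simp⟩
    have hY0 : (0 : ZMod m) ∈ Y := Finset.mem_insert_self _ _
    have key : ∀ F ⊆ T', F.card ≤ h → ∀ r ∈ R, ((insert r F ⊆ T) ∧ (insert r F).card ≤ h + 1 ∧
        ∑ e ∈ insert r F, c e = ∑ e ∈ F, c e + c r) := by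
      intro F hF1 hF2 r hr
      have hrF : r ∉ F := fun h1 => (Finset.mem_sdiff.1 (hF1 h1)).2 hr
      refine ⟨?_, ?_, ?_⟩
      · exact Finset.insert_subset (hRT hr) (hF1.trans hT'T)
      · rw [Finset.card_insert_of_notMem hrF]
        omega
      · rw [Finset.sum_insert hrF, add_comm]
    have hS := scherk_zero Y.card X Y rfl hX0 hY0 (by
      intro a ha b hb hab
      by_contra hb0
      rw [hYd, Finset.mem_insert] at hb
      rcases hb with hb | hb
      · exact hb0 hb
      · obtain ⟨r, hr, rfl⟩ := Finset.mem_image.1 hb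
        obtain ⟨F, h1, h2, rfl⟩ := mem_Sh.1 ha
        obtain ⟨k1, k2, k3⟩ := key F h1 h2 r hr
        exact hF _ k1 (Finset.insert_nonempty _ _) k2 (k3.trans hab))
    have hsub : X + Y ⊆ Sh (h + 1) T c := by
      intro x hx
      obtain ⟨a, ha, b, hb, rfl⟩ := Finset.mem_add.1 hx
      obtain ⟨F, h1, h2, rfl⟩ := mem_Sh.1 ha
      rw [hYd, Finset.mem_insert] at hb
      rcases hb with rfl | hb
      · rw [add_zero]
        exact mem_Sh.2 ⟨F, h1.trans hT'T, by omega, rfl⟩
      · obtain ⟨r, hr, rfl⟩ := Finset.mem_image.1 hb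
        obtain ⟨k1, k2, k3⟩ := key F h1 h2 r hr
        exact mem_Sh.2 ⟨_, k1, k2, k3⟩
    have hle := Finset.card_le_card hsub
    have hcard : T'.card + R.card = T.card := Finset.card_sdiff_add_card_eq_card hRT
    omega

theorem t_bgl : Pool.Agent.H133.ZM.S_bgl := by
  intro m _ ι _ T c h hT hm
  by_contra hcon
  push Not at hcon
  have h1 := card_Sh c h T hT hcon
  have h2 : (Sh h T c).card ≤ m := by
    have h3 := Finset.card_le_univ (Sh h T c)
    rwa [ZMod.card] at h3
  omega

end Pool.Agent.H133.ZM.Bg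

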