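import Mathlib

set_option autoImplicit false

/-!
Project ZM (helper133): zero-sum Turan numbers of matchings, MP_22c8d1_co.
All statements of the project.
-/

namespace Pool.Agent.H133.ZM

open Finset

/-- `M` is a matching of `G`. -/
def IsM {V : Type} (G : SimpleGraph V) (M : Finset (Sym2 V)) : Prop :=
  (∀ e ∈ M, e ∈ G.edgeSet) ∧ ∀ e ∈ M, ∀ f ∈ M, e ≠ f → ∀ v ∈ e, v ∉ f

/-- degree -/
noncomputable def dg {V : Type} (G : SimpleGraph V) (v : V) : ℕ := (G.neighborSet v).ncard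

/-- number of edges -/
noncomputable def eG {V : Type} (G : SimpleGraph V) : ℕ := G.edgeSet.ncard

/-- number of missing edges -/
noncomputable def mis {V : Type} (G : SimpleGraph V) : ℕ := (Gᶜ).edgeSet.ncard

/-- no zero-sum `m`-subset -/
def NZ {ι : Type} (m : ℕ) (M : Finset ι) (c : ι → ZMod m) : Prop :=
  ∀ F ⊆ M, F.card = m → ∑ e ∈ F, c e ≠ 0

/-- zero-sum free -/
def ZF {ι : Type} {m : ℕ} (B : Finset ι) (c : ι → ZMod m) : Prop :=
  ∀ F ⊆ B, F.Nonempty → ∑ e ∈ F, c e ≠ 0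

/-- set of subset sums -/
def Sg {ι : Type} {m : ℕ} (B : Finset ι) (c : ι → ZMod m) : Finset (ZMod m) :=
  B.powerset.image (fun F => ∑ e ∈ F, c e)

/-- multiplicity -/
def mu {ι : Type} {m : ℕ} (M : Finset ι) (c : ι → ZMod m) (x : ZMod m) : ℕ :=
  (M.filter (fun e => c e = x)).card

/-- two-sided normal form with respect to the pair `{a, a + g}` -/
def Nrm {ι : Type} (m : ℕ) (M : Finset ι) (c : ι → ZMod m) (a g : ZMod m) : Prop :=
  IsUnit g ∧ ∃ v : ZMod m → ℤ, (∀ e ∈ M, c e = a + g * ((v (c e) : ℤ) : ZMod m)) ∧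
    ∑ e ∈ M.filter (fun e => 1 ≤ v (c e)), v (c e) ≤ (m : ℤ) - 1 ∧
    ∑ e ∈ M.filter (fun e => v (c e) ≤ 0), (1 - v (c e)) ≤ (m : ℤ) - 1

/-- the two descriptions give the same unordered pair -/
def PEq {m : ℕ} (a g a' g' : ZMod m) : Prop := (a' = a ∧ g' = g) ∨ (a' = a + g ∧ g' = -g)

/-- the threshold `⌊3m/2⌋` -/
def LL (m : ℕ) : ℕ := m + m / 2

def ea (m n : ℕ) : ℕ := (2 * m - 2).choose 2 + (2 * m - 2) * (n - (2 * m - 2))
def eb (m n : ℕ) : ℕ := (3 * m - 2).choose 2 + (m - 1) * (n - (3 * m - 2))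
def TT (m n : ℕ) : ℕ := max (ea m n) (eb m n)

/-! ### additive part -/

/-- PROOF (behaving sequences). Induction on `|B|`. If all weights are `1` it is trivial. Otherwise let `x = w e` be the maximum, `x ≥ 2`,
`k = |B|`, `s = ∑ w ≤ 2k-1`. `B \ {e}` has `k-1` elements and sum `s - x ≤ 2(k-1)-1`, so by induction (k-1 ≥ 1 since s ≥ x ≥ 2 and s ≤ 2k-1 force k ≥ 2)
its subset sums are all of `[0, s-x]`. Moreover `s - x ≥ k-1` and `x = s-(s-x) ≤ 2k-1-(k-1) = k ≤ (s-x)+1`, so `[0,s-x] ∪ (x+[0,s-x]) = [0,s]`. -/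
def S_beh : Prop := ∀ (ι : Type) [DecidableEq ι] (B : Finset ι) (w : ι → ℕ),
  (∀ e ∈ B, 1 ≤ w e) → ∑ e ∈ B, w e < 2 * B.card →
  ∀ k ≤ ∑ e ∈ B, w e, ∃ F ⊆ B, ∑ e ∈ F, w e = k

/-- PROOF. Call `c e` (e in B) a 1-term if `|Sg B| = |Sg (B \ {e})| + 1`. Always `|Sg B| ≥ |Sg (B\{e})| + 1`, since otherwise `Sg (B\{e})` is
invariant under adding `c e`, hence contains `-c e` (it contains 0), contradicting ZF.
LEMMA (1T): if `e, e'` in B both are 1-terms then `c e = c e'`. Proof: let `S = Sg B`, `σ = ∑ B`, `Y = Sg (B\{e})`. Y is symmetric: `y ↦ σ - c e - y`,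
so `σ ∈ Y ↔ -c e ∈ Y`, which is false by ZF; so `S \ Y = {σ}`, i.e. `Y = S \ {σ} =: T`, the same set `T` for `e` and for `e'`. Moreover `T + c e ⊆ S`, `0 ∉ T + c e`
(as `-c e ∉ Y`), and sizes give `T + c e = S \ {0}`; likewise `T + c e' = S \ {0}`. With `d = c e - c e' ≠ 0`: `T + d = T` and `(S\{0}) + d = S \{0}`.
`0 ∈ T` so `d ∈ T ⊆ S`, `d ∈ S \ {0}`, hence `0 = d - d ∈ S \ {0}` (invariance under `d` in a finite set gives invariance under `-d`), contradiction.
THEOREM by induction on `|B|`. If some `e` in B has `|Sg B| ≥ |Sg (B\{e})| + 2` then `B' = B\{e}` satisfies the hypothesis, so `c = w·a` on B', with sum `s < ord a`,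
subset sums (as integers) all of `[0,s]`, `Sg B' = {0,a,…,sa}` of size `s+1`. If `c e = j a` with `1 ≤ j ≤ s+1` put `w e = j`; then the integer sums are `[0,s+j]`, and
`s + j < ord a` since otherwise `ord a` is an integer subset sum in `[1,s+j]`, a zero-sum. Otherwise `c e ∉ {-s a,…,s a}` (not in `{-sa..-a}` by ZF, not 0, not in `{a..(s+1)a}`), so
`Sg B'` and `Sg B' + c e` are disjoint and `|Sg B| = 2(s+1) ≥ 2(|B'|+1) = 2|B|`, contradiction. If no such `e` exists, all terms are 1-terms, so all `c e = a` are equal (B is nonempty by the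
hypothesis), `w = 1`, and `|B| < ord a` by ZF. -/
def S_smooth : Prop := ∀ (m : ℕ) [NeZero m] (ι : Type) [DecidableEq ι] (B : Finset ι)
  (c : ι → ZMod m), ZF B c → (Sg B c).card + 1 ≤ 2 * B.card →
  ∃ (a : ZMod m) (w : ι → ℕ), (∀ e ∈ B, 1 ≤ w e ∧ c e = (w e : ZMod m) * a) ∧
    ∑ e ∈ B, w e < addOrderOf a ∧ ∀ k ≤ ∑ e ∈ B, w e, ∃ F ⊆ B, ∑ e ∈ F, w e = k

/-- PROOF. Number the elements of every fibre of `c` on `T` by `0,1,…` ; let `A_i` (i < h) be the set of values whose fibre has an element numbered `i`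
(possible since fibres have size ≤ h): so T is in bijection with the pairs (i, x in A_i), `∑ |A_i| = |T| ≥ m`. If `0 ∈ A_i` for some i we are done (one element with c = 0; note h ≥ 1).
Suppose no nonempty choice of at most one element from each `A_i` sums to 0. Put `A_i' = A_i ∪ {0}`. By induction `|A_0'+…+A_{i}'| ≥ 1 + |A_0|+…+|A_i|`:
this is Scherk's lemma `|X+Y| ≥ |X|+|Y|-1` if `0 ∈ X ∩ Y` and `x+y=0` with x in X, y in Y only for `x=y=0`
(there are proofs in the library: Pool/Graph modules .../R93/Scherk, .../H132/Scherk, .../Q80/Scherk*, see Pool/Graph/INDEX.tsv; classical proof by e-transform, or use Kneser, which is in the library too).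
So `m ≥ 1 + |T| ≥ 1+m`, contradiction. A zero-sum choice gives `F` with `1 ≤ |F| ≤ h`. -/
def S_bgl : Prop := ∀ (m : ℕ) [NeZero m] (ι : Type) [DecidableEq ι] (T : Finset ι)
  (c : ι → ZMod m) (h : ℕ), (∀ x, mu T c x ≤ h) → m ≤ T.card →
  ∃ F ⊆ T, F.Nonempty ∧ F.card ≤ h ∧ ∑ e ∈ F, c e = 0

/-- PROOF (uses S_bgl, take it as hypothesis). Let `h = mu M c 0` and `Z` the fibre of 0. If `h = 0` then `M = ∅` and `F = ∅`; claim `0+0+1 ≤ m` true. `h ≤ m-1` by NZ.
(i) a zero-sum `F' ⊆ M \ Z` cannot have `m-h ≤ |F'| ≤ m`: add `m-|F'|` elements of Z to get a zero-sum m-subset. (ii) If `|F| ≥ m+1`, apply S_bgl to F (multiplicities ≤ h): remove a nonempty zero-sum subset of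
size ≤ h from F; the rest is again zero-sum, size drops by at most h and at least 1; repeat until the size is ≤ m; then it is ≥ m+1-h ≥ m-h: contradiction to (i). So `|F| ≤ m` and by (i) `|F| < m-h`. -/
def S_gao : Prop := ∀ (m : ℕ) [NeZero m] (ι : Type) [DecidableEq ι] (M : Finset ι)
  (c : ι → ZMod m), NZ m M c → (∀ x, mu M c x ≤ mu M c 0) →
  ∀ F ⊆ M, (∀ e ∈ F, c e ≠ 0) → ∑ e ∈ F, c e = 0 → F.card + mu M c 0 + 1 ≤ m

/-- PROOF (uses S_beh, S_smooth, S_gao as hypotheses). Translate: choose `a0` with `mu M c a0` maximal; replace `c` by `c - a0` (NZ is preserved since `m·a0=0`; Nrm transforms `a ↦ a + a0`).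
Now 0 is a most frequent value, `h = mu M c 0`, `Z` its fibre. Let `U ⊆ M \ Z` be a zero-sum subset of maximal size (∅ allowed): `|U| + h ≤ m-1` by S_gao. `W = (M\Z)\U` is ZF by maximality.
`k := |W| = |M|-h-|U| ≥ |M|-(m-1) ≥ ⌊m/2⌋+1`, so `2k ≥ m+1`, and `|Sg W| ≤ m ≤ 2k-1`. S_smooth: `c = w·g` on W, `s = ∑ w < ord g`, `s ≥ k > m/2`, so `ord g > m/2` and `ord g ∣ m`: `ord g = m`, g is a unit.
Multiply by `g⁻¹`: assume `g = 1`, `c e = w e` on W, `s ≤ m-1`, integer subset sums of W are all of `[0,s]`.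
(a) For `e ∈ U` let `u ∈ [1,m-1]` be the residue of `c e`. Claim: not `2 ≤ u ≤ s`. Suppose so. Let `W'` = elements of W with `w ≠ u`, μ = number of those with `w = u`. If μ ≥ 1: `(k-μ)+μu ≤ s ≤ m-1 ≤ 2k-2`, so `μ(u-1) ≤ k-2`, so
`|W'| = k-μ ≥ μ(u-2)+2 ≥ u`, and `∑_{W'} w = s-μu ≤ 2k-2-μu ≤ 2(k-μ)-2 < 2|W'|`, so by S_beh all integers up to `∑_{W'} w ≥ |W'| ≥ u` are subset sums of W'; if μ = 0, W' = W and u ≤ s is a subset sum. So `u = w(W₁)` with `W₁ ⊆ W'`; no single element of W' has weight u, so `|W₁| ≥ 2`, and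
`(U \ {e}) ∪ W₁` is a larger zero-sum subset: contradiction. So on U every residue is `1` or is `-j` with `1 ≤ j ≤ m-1-s`. Let `p` = number of 1s in U, `J` = the others with their `j ≥ 1`.
(b) Claim `∑_J j ≤ m-1-s`. Suppose `∑_J j ≥ m-s`. Order J by decreasing `j`: `j_1 ≥ j_2 ≥ …`, let `c0` be minimal with `j_1+…+j_{c0} ≥ m-s`; `c0 ≥ 2` since `j_1 ≤ z := m-s-1`. `j_1+…+j_{c0-1} ≤ z` so `(c0-1) j_{c0} ≤ z`, put `x = j_1+…+j_{c0} ≤ z + j_{c0}`,
`m-s ≤ x ≤ 2z ≤ m` hence `0 ≤ m-x ≤ s`. Choose `W₁ ⊆ W` with `w(W₁) = m-x`. `|W₁| ≥ (m-x) - ∑_W (w-1) = m-x-(s-k) ≥ m - z - j_{c0} - s + k = k+1-j_{c0}`. Now `(c0-1) j_{c0} ≤ z = m-s-1 ≤ (2k-1)-k-1 = k-2`, and `a+b ≤ ab+1` for a,b ≥ 1 gives `c0 + j_{c0} ≤ (c0-1) j_{c0} + 2 ≤ k`,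
so `|W₁| > c0`. But `(U \ {those c0 elements}) ∪ W₁` has sum `0 + x + (m-x) = 0` mod m and is larger than U: contradiction.
(c) U is zero-sum: `p ≡ ∑_J j` mod m, `0 ≤ p ≤ |U| ≤ m-1`, `0 ≤ ∑_J j ≤ m-1`, so `p = ∑_J j ≤ m-1-s`. Define `v x = residue in [0,m-1]` if that is `≤ s` (or =1), and `residue - m` otherwise (residues of W are in [1,s], the elements `-j` have residue `≥ s+1`; note s ≥ 1). Then `∑_{v≥1} v = s + p ≤ m-1`
and `∑_{v≤0} (1-v) = h + ∑_J (1+j) = h + |J| + p = h + |U| ≤ m-1`. -/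
def S_S2 : Prop := ∀ (m : ℕ), 3 ≤ m → ∀ (ι : Type) [DecidableEq ι] (M : Finset ι)
  (c : ι → ZMod m), NZ m M c → LL m ≤ M.card → ∃ a g, Nrm m M c a g

/-- PROOF. Let `S₀ = M ∩ M'`, `ω = ⌈m/2⌉-2` (so `2m-2-|M| ≤ ω`, same for M'). For a normal form write `w₊ = ∑_{v≥1}(v-1)`, `w₋ = ∑_{v≤0}(-v)`; adding the two inequalities: `|M| + w₊ + w₋ ≤ 2m-2`, so `w₊+w₋ ≤ ω`.
All `v` values lie in `[-ω, ω+1]`, an interval with less than m integers, so v is determined by the residue. Number of elements outside the pair {a,a+g} is ≤ w₊+w₋ ≤ ω. Since `|S₀| ≥ LL m - 1 > 2ω`, the pairs `{a,a+g}` and `{a',a'+g'}` share an element;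
replacing (a,g) by (a+g,-g) (v ↦ 1-v keeps both inequalities) and an affine change we may assume the shared element is `0 = a = a'`, `g = 1`, second pair `{0,q}`, q a unit; we must show `q = 1`. Suppose `q ≠ 1`.
Let `N₀,x,y,ρ` be the numbers of elements of S₀ with value 0, 1, q, other. COUNT: number of 1s in M is ≥ n₊ - w₊ where n₊ = #{v≥1} = |M| - n₋ ≥ |M|-(m-1)+w₋; so it is ≥ |M|-m+1+w₋-w₊ ≥ 2|M|-3m+3. Hence `x ≥ 2|M|-3m+3-|M \ M'| ≥ 1` (if |M\M'| = 0 use |M| ≥ LL m; if it is d ≥ 1: |M| = |S₀|+d ≥ LL m -1+d gives 2|S₀|+d-3m+3 ≥ d ≥ 1).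
Likewise `y ≥ 1`. So `v_q := v(q) ∉ {0,1}` (w.r.t. {0,1}) and `v_1' := v'(1) ∉ {0,1}` (w.r.t. {0,q}) are defined, in `[-ω,ω+1]`, and `v_q·v_1' ≡ 1 mod m`. Every element other than 0,1 (resp. 0,q) has weight ≥ 1. `N₀ ≤ m-1-w₋`.
So (W): `wt(v_q)·y + ρ ≤ ω`, `wt(v_1')·x + ρ ≤ ω` with `wt(t)=t-1` for t ≥ 2, `-t` for t ≤ -1. And `x+y+ρ = |S₀|-N₀`, `|S₀| ≥ m+⌊m/2⌋-1`.
I: `v_q ≥ 2, v_1' ≥ 2`. If one of them is 2 the other is ≡ (m+1)/2 (m odd), not in `[-ω,ω+1]` (for m odd ω+1 = (m-1)/2): contradiction. So both ≥ 3 and by (W) `x+y ≤ ω-ρ`, but `x+y+ρ ≥ |S₀|-(m-1) ≥ ⌊m/2⌋ > ω`: contradiction.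
II: `v_q ≥ 2, v_1' ≤ -1`: negative inequality for M': `N₀ + 2x ≤ m-1`, so `y+ρ ≥ |S₀|-N₀-x ≥ ⌊m/2⌋ + x ≥ ⌊m/2⌋+1`, but `y+ρ ≤ ω` by (W). III: `v_q ≤ -1, v_1' ≥ 2`: symmetric.
IV: both ≤ -1: `N₀+2y ≤ m-1`, `N₀+2x ≤ m-1`; adding to `N₀+x+y+ρ ≥ m-1+⌊m/2⌋` twice: `ρ ≥ ⌊m/2⌋`, but `ρ ≤ ω`. Contradiction. -/
def S_A1 : Prop := ∀ (m : ℕ), 3 ≤ m → ∀ (ι : Type) [DecidableEq ι] (M M' : Finset ι)
  (c : ι → ZMod m) (a g a' g' : ZMod m), Nrm m M c a g → Nrm m M' c a' g' →
  LL m ≤ M.card → LL m ≤ M'.card → LL m ≤ (M ∩ M').card + 1 → PEq a g a' g'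

/-- PROOF. Same notation and first steps as in S_A1 (see there; you may prove a common lemma), now `|S₀| = LL m - 2`, `|M|=|M'|=LL m`, still `|S₀| > 2ω`, pairs `{0,1}` and `{0,q}`, `q ≠ 1`.
If `x ≥ 1` and `y ≥ 1`: in cases I..IV: I: `x+y+ρ ≥ |S₀|-(m-1) = ⌊m/2⌋-1`; m even: > ω = m/2-2, contradiction. m odd: `⌊m/2⌋-1 = (m-3)/2 = ω`, so equality in `x+y ≤ (ω-ρ)/(v_1'-1) + (ω-ρ)/(v_q-1) ≤ ω-ρ`, which needs `v_q=v_1'=3` (x,y ≥ 1 so ω-ρ>0), so m | 8, impossible for odd m ≥ 3.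
II: `y+ρ ≥ ⌊m/2⌋-1+x ≥ ⌊m/2⌋ > ω`. III symmetric. IV: `ρ ≥ ⌊m/2⌋-1 ≥ ω` but `ρ ≤ ω - x·1 ≤ ω-1`.
Now the counts: number of 1s in M is ≥ 2|M|-3m+3, which is 3 for m even (so x ≥ 1, and y ≥ 1) and 2 for m odd. So if x = 0 (the case y = 0 is symmetric) then m is odd, M has exactly two 1s, both outside M', and all inequalities in COUNT are equalities: `w₋ = 0, w₊ = ω = (m-3)/2`, n₋ = m-1 so there are exactly
m-1 zeros, and every positive element other than 1 has v = 2 (number of heavy positive elements = w₊). So the values on M∩M' are 0 (m-1 times) and 2: take α = 0, γ = 2 (in the original coordinates α = a, γ = a+2g, or α = a+g, γ = a - g if the shared element was a+g); α ≠ γ since m is odd. (The number of zeros in M ∩ M' is m-1 since the two missing elements are 1s.) -/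
def S_A2 : Prop := ∀ (m : ℕ), 3 ≤ m → ∀ (ι : Type) [DecidableEq ι] (M M' : Finset ι)
  (c : ι → ZMod m) (a g a' g' : ZMod m), Nrm m M c a g → Nrm m M' c a' g' →
  M.card = LL m → M'.card = LL m → LL m = (M ∩ M').card + 2 →
  PEq a g a' g' ∨ (Odd m ∧ ∃ α γ : ZMod m, α ≠ γ ∧ (∀ e ∈ M ∩ M', c e = α ∨ c e = γ) ∧
    mu (M ∩ M') c α = m - 1)

/-! ### matchings -/

/-- PROOF. Tutte's theorem is in Mathlib (SimpleGraph.tutte). Let ν = max size of a matching (≤ k), n = |V|, d = n - 2ν. Add d new vertices joined to each other and to everything (type V ⊕ Fin d). If this graph G' had a perfect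
matching, removing the new vertices would leave a matching of G of size ≥ (n-d)/2 = ν … so apply Tutte with d-2 new vertices instead when d ≥ 2 (if d ≤ 1 take A = ∅ and f constant when d = 1 or 0: then |V|/2 ≤ ν). With d-2 new vertices: a perfect matching would give a matching of G with ≥ (n-(d-2))/2 = ν+1 edges, contradiction; so there is a Tutte violator u: odd components of G'-u more than |u|;
the total n+d-2 is even, so by parity ≥ |u|+2. If u misses one of the new vertices, G'-u is connected, so there is at most 1 odd component, contradiction with ≥ |u|+2 ≥ 2. So u = new vertices ∪ A and G-A has at least |A|+d odd components. Let f = a numbering of the components of G - A. Then ∑ ⌊|class|/2⌋ ≤ (n-|A|-(|A|+d))/2 = ν-|A|.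
(Any other proof, e.g. Gallai's lemma or a direct induction, is fine.) -/
def S_TB : Prop := ∀ (V : Type) [Fintype V] [DecidableEq V] (G : SimpleGraph V) (k : ℕ),
  (∀ M, IsM G M → M.card ≤ k) →
  ∃ (A : Finset V) (f : V → ℕ), (∀ u v, u ∉ A → v ∉ A → G.Adj u v → f u = f v) ∧
    A.card + ∑ i ∈ (Aᶜ).image f, ((Aᶜ).filter (fun v => f v = i)).card / 2 ≤ k

/-- PROOF (uses S_TB). Take A, f. An edge avoiding A has both ends in one class of f; the number of such edges is ≤ ∑_i C(s_i,2) where s_i are the class sizes, with ∑ ⌊s_i/2⌋ ≤ b := k-|A|. With s_i ≤ 2t_i+1, t_i = ⌊s_i/2⌋: C(s_i,2) ≤ t_i(2t_i+1) and ∑ t_i(2t_i+1) ≤ b(2b+1) since ∑ t_i ≤ b (superadditivity). -/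
def S_EG : Prop := ∀ (V : Type) [Fintype V] [DecidableEq V] (G : SimpleGraph V) (k : ℕ),
  (∀ M, IsM G M → M.card ≤ k) →
  ∃ A : Finset V, A.card ≤ k ∧
    {e ∈ G.edgeSet | ∀ v ∈ e, v ∉ A}.ncard ≤ (k - A.card) * (2 * (k - A.card) + 1)

/-- PROOF (uses S_EG). Let G₁, G₂ be the subgraphs of edges of colour true/false; each has all matchings of size ≤ m-1 (a matching of size ≥ m contains one of size m). S_EG with k = m-1: sets A₁,A₂, b_i = m-1-|A_i|. Let A = A₁∪A₂, `α = |A| ≤ s := 2m-2-b₁-b₂`, n = |V|.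
Edges meeting A: ≤ C(α,2)+α(n-α) ≤ C(s,2)+s(n-s) (monotone for α ≤ s ≤ n). Edges avoiding A: ≤ b₁(2b₁+1)+b₂(2b₂+1). So eG ≤ φ(b₁,b₂) := C(s,2)+s(n-s)+b₁(2b₁+1)+b₂(2b₂+1), s = 2m-2-b₁-b₂, 0 ≤ b_i ≤ m-1. φ is convex in each variable (coefficient of b₁²: -1/2+2 > 0), so the maximum over the box is at a corner:
(0,0): ea. (m-1,0): C(m-1,2)+(m-1)(n-m+1)+(m-1)(2m-1) = eb. (m-1,m-1): 2(m-1)(2m-1) ≤ eb for n ≥ 3m-2 (difference at n = 3m-2 is (m-1)(m-2)/2). -/
def S_T2 : Prop := ∀ (m : ℕ), 2 ≤ m → ∀ (V : Type) [Fintype V] [DecidableEq V]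
  (G : SimpleGraph V) (col : Sym2 V → Bool),
  (∀ M, IsM G M → M.card = m → ¬ ∃ b, ∀ e ∈ M, col e = b) →
  3 * m - 2 ≤ Fintype.card V → eG G ≤ TT m (Fintype.card V)

/-- PROOF. (eb) Fin n, vertices i. A = {i < m-1}, B = {m-1 ≤ i < 3m-2} (2m-1 vertices). Edges: all pairs meeting A (colour true), all pairs inside B (colour false). A true matching has ≤ |A| = m-1 edges, a false one ≤ ⌊(2m-1)/2⌋ = m-1. Number of edges: C(3m-2,2)+(m-1)(n-(3m-2)).
(ea) A = {i < m-1}, A' = {m-1 ≤ i < 2m-2}; edges: all pairs meeting A ∪ A'; colour true iff it meets A. Number: C(2m-2,2)+(2m-2)(n-(2m-2)). Take the one that realises the maximum TT. -/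
def S_LB : Prop := ∀ (m n : ℕ), 2 ≤ m → 3 * m - 2 ≤ n →
  ∃ (G : SimpleGraph (Fin n)) (col : Sym2 (Fin n) → Bool), eG G = TT m n ∧
    ∀ M, IsM G M → M.card = m → ¬ ∃ b, ∀ e ∈ M, col e = b

/-- PROOF. colour e true iff it meets A = {i < m-1}; a true matching has ≤ m-1 edges; a false one lies in the other ≤ 2m-1 vertices, so has ≤ m-1 edges. -/
def S_LB0 : Prop := ∀ (m n : ℕ), 1 ≤ m → n ≤ 3 * m - 2 →
  ∃ (col : Sym2 (Fin n) → Bool),
    ∀ M, IsM (⊤ : SimpleGraph (Fin n)) M → M.card = m → ¬ ∃ b, ∀ e ∈ M, col e = b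

/-- PROOF. Let M be a maximum matching and suppose |M| < k. The set X of uncovered vertices has ≥ 2k-2|M| ≥ 2 vertices and is independent; take distinct x,y in X. For every edge pq of M the number of edges between {x,y} and {p,q} is ≤ 2 (if it is ≥ 3 then x~p,y~q or x~q,y~p and M can be augmented). So deg x + deg y ≤ 2|M| < 2k, contradiction. -/
def S_deg : Prop := ∀ (V : Type) [Fintype V] [DecidableEq V] (G : SimpleGraph V) (k : ℕ),
  (∀ v, k ≤ dg G v) → 2 * k ≤ Fintype.card V → ∃ M, IsM G M ∧ M.card = k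

/-- PROOF. Let s_i be the class sizes, N = |X|, number of classes ≥ c. Ordered pairs in different classes = N² - ∑ s_i². With at least c classes the maximum of ∑ s_i² is (N-c+1)² + (c-1) (merge: moving a point from a smaller class to a bigger one increases ∑ s_i²); N² - (N-c+1)² - (c-1) = (c-1)(2N-c).
Simple proof: choose representatives r_1..r_c of c different classes; the ordered pairs (r_i,r_j), i≠j: c(c-1) of them; for every other point z, it is in a different class from at least c-1 of the r_i: 2(c-1)(N-c) ordered pairs. Total c(c-1)+2(c-1)(N-c) = (c-1)(2N-c). -/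
def S_part : Prop := ∀ (V : Type) [DecidableEq V] (X : Finset V) (f : V → ℕ) (c : ℕ),
  c ≤ (X.image f).card →
  (c - 1) * (2 * X.card - c) ≤ ((X ×ˢ X).filter (fun p => f p.1 ≠ f p.2)).card

/-- PROOF (uses S_TB and, if you like, S_part as an additional hypothesis). n = 3m-2+t, L = LL m = (3m-1)/2, j = |Q|, 2j ≤ m-1. Let W = V(Q) (2j vertices), G' = G - W (graph on the same V without the edges touching W; or induced). It suffices to find a matching of G' of size L-j (then add Q). Otherwise S_TB with k = L-j-1 in the induced graph on V\W (n-2j vertices):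
A, f with a = |A|, N = n-2j-a vertices outside A, and the number of classes of odd size is N - 2∑⌊s_i/2⌋ ≥ N-2(L-j-1-a) = a+t+1 =: c. Vertices of different classes are non-adjacent, so by S_part `2·mis G ≥ (c-1)(2N-c) = (a+t)(6m-5+t-4j-3a)`, and c ≤ N i.e. `2a ≤ 3m-3-2j`.
CLAIM: `(a+t)(6m-5+t-4j-3a) ≥ 2t(2m-1)+t(t-1)` if 2t ≤ m, and `≥ 2t(2m-1)+t(t-1)-(m-1)` if 2t = m+1; this contradicts the hypothesis on mis G. Proof: if a ≤ m-1 then as 4j ≤ 2m-2 the left side is ≥ (a+t)(4m-3+t-3a) =: g(a), concave in a on [0,m-1]; g(0) = t(4m-3+t) = 2t(2m-1)+t(t-1), g(m-1) = (m-1+t)(m+t) = 2t(2m-1)+t(t-1) + (m-1)(m-2t).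
If a ≥ m: 4j ≤ 6m-6-4a so the left side is ≥ (a+t)(a+t+1) ≥ (m+t)(m+t+1) ≥ g(m-1). -/
def S_ext1 : Prop := S_TB → ∀ (m t : ℕ), 3 ≤ m → Odd m → 1 ≤ t → 2 * t ≤ m + 1 →
  ∀ (V : Type) [Fintype V] [DecidableEq V] (G : SimpleGraph V),
  Fintype.card V = 3 * m - 2 + t →
  2 * mis G + 2 ≤ 2 * t * (2 * m - 1) + t * (t - 1) →
  (2 * t = m + 1 → 2 * mis G + 2 + (m - 1) ≤ 2 * t * (2 * m - 1) + t * (t - 1)) →
  ∀ Q, IsM G Q → 2 * Q.card + 1 ≤ m → ∃ M, IsM G M ∧ Q ⊆ M ∧ M.card = LL m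

/-- PROOF (uses S_deg). j = |Q|, 2j ≤ m-1. In the induced graph on V \ V(Q) all degrees are ≥ 2m-1-2j ≥ LL m - j (because j ≤ m-1-⌊m/2⌋), and it has n-2j ≥ 2(LL m - j) vertices since 2 LL m ≤ 3m ≤ n (from 7m-3 ≤ 2n, m ≥ 3). S_deg with k = LL m - j; add Q. -/
def S_ext2 : Prop := S_deg → ∀ (m : ℕ), 3 ≤ m →
  ∀ (V : Type) [Fintype V] [DecidableEq V] (G : SimpleGraph V),
  7 * m - 3 ≤ 2 * Fintype.card V → (∀ v, 2 * m - 1 ≤ dg G v) →
  ∀ Q, IsM G Q → 2 * Q.card + 1 ≤ m → ∃ M, IsM G M ∧ Q ⊆ M ∧ M.card = LL m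

/-- PROOF (uses S_TB and S_part). n = 3m-2+t, L = (3m-1)/2, n-2L = t-1 ≥ 2. If some matching has ≥ L+1 edges we are done (delete edges). Otherwise S_TB with k = L: A, f, a=|A|, N = n-a, number of odd classes ≥ N-2(L-a) = a+t-1 =: c ≥ a+2. Each vertex outside A has all neighbours in A ∪ its class, so each class size s satisfies s ≥ m+1-a.
Case a ≤ m-1: N ≥ c(m+1-a) ≥ (a+2)(m+1-a). For 2 ≤ a ≤ m-2 the concave function (a+2)(m+1-a)+a is ≥ 4m-2 > n (n ≤ (7m-3)/2): contradiction. a = m-1: s ≥ 2 and odd, so ≥ 3: N ≥ 3(m+1) but N ≤ (5m-1)/2: contradiction. a = 0: two classes; the smallest class has size s with m+1 ≤ s ≤ n/2, so mis G ≥ s(n-s) ≥ (m+1)(n-m-1) which is > t(2m-1)+t(t-1)/2-1.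
a = 1: three classes of size ≥ m: mis G ≥ xy+yz+zx over x+y+z = N with x,y,z ≥ m (merge further classes), minimum at x=y=m: 2mN-3m² = 3m²-6m+2mt > t(2m-1)+t(t-1)/2-1.
Case a ≥ m: by S_part 2 mis G ≥ (c-1)(2N-c) = (a+t-2)(6m-3+t-3a), with c ≤ N i.e. a ≤ L. Concave in a; a = m: (m+t-2)(3m-3+t); a = L = (3m-1)/2: (L+t-2)((3m-3)/2+t); both are > 2t(2m-1)+t(t-1)-2 for 3 ≤ t ≤ (m+1)/2, m ≥ 5. (All these inequalities were checked numerically for m < 80.) -/
def S_nu : Prop := S_TB → ∀ (m t : ℕ), 5 ≤ m → Odd m → 3 ≤ t → 2 * t ≤ m + 1 →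
  ∀ (V : Type) [Fintype V] [DecidableEq V] (G : SimpleGraph V),
  Fintype.card V = 3 * m - 2 + t → (∀ v, m ≤ dg G v) →
  2 * mis G + 2 ≤ 2 * t * (2 * m - 1) + t * (t - 1) →
  ∃ M, IsM G M ∧ M.card = LL m + 1

/-! ### connectivity of the set of large matchings under exchanges -/

/-- PROOF. Show by strong induction on |M \ M1| + |M1 \ M|: if IsM M, L ≤ |M|, IsM M1, L+1 ≤ |M1| then P M = P M1. If some e' in M1 \ M meets no edge of M: M + e' is closer. If it meets exactly one edge f of M: f ∉ M1 (f meets e' and f ≠ e'), M - f + e' has the same size and is closer. Otherwise every e' in M1\M meets exactly two edges of M, both in M \ M1,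
while every edge of M meets at most two edges of M1; double counting: 2|M1\M| ≤ 2|M\M1|, so |M| ≥ |M1| ≥ L+1, and if M ≠ M1 then M\M1 is nonempty (or M1 \ M = ∅ and M ⊋ M1), delete an edge of M \ M1: size ≥ L, closer. -/
def S_conn1 : Prop := ∀ (V : Type) [Fintype V] [DecidableEq V] (G : SimpleGraph V) (L : ℕ)
  (α : Type) (P : Finset (Sym2 V) → α),
  (∀ M M', IsM G M → IsM G M' → L ≤ M.card → L ≤ M'.card → (M \ M').card ≤ 1 →
    (M' \ M).card ≤ 1 → P M = P M') →
  ∀ M1, IsM G M1 → L + 1 ≤ M1.card → ∀ M, IsM G M → L ≤ M.card → P M = P M1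

/-- PROOF. All matchings have ≤ L edges, so those in question have exactly L edges and miss exactly one vertex. Suppose P M ≠ P M' for some; choose such a pair with |M ∩ M'| maximal (call it a maximal pair). (1) Every maximal pair misses the same vertex: let v be missed by M and suppose v is covered by e' = vw in M'; w is covered by f in M, f ∉ M'; M1 = M - f + e' has P M1 = P M and |M1 ∩ M'| larger: contradiction.
(2) Let U be the set of vertices whose M-edge and M'-edge are different. U ≠ ∅ (M ≠ M') and |U| ≥ 4: for e = u1u2 in M \ M' the M'-edges at u1, u2 are distinct, with other ends u3, u4 different, also in U. (3) v is not adjacent to any u in U: otherwise, with ua the M-edge at u, M1 = M - ua + vu has P M1 = P M, |M1∩M'| = |M∩M'| (ua ∉ M', vu ∉ M'), so (M1,M') is a maximal pair, but M1 misses a ≠ v and M' misses v: contradiction to (1).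
(4) Let x be a neighbour of v: x ∉ U, so x is covered by a common edge xy in M ∩ M'. M1 = M - xy + vx, M1' = M' - xy + vx have P M1 = P M, P M1' = P M', |M1∩M1'| = |M∩M'|, so it is a maximal pair missing y with the same U; by (3) y is not adjacent to any vertex of U. The vertices v and the y's (one for each neighbour x of v, distinct, ≠ v, not in U) are ≥ m+1 vertices, each non-adjacent to all of U: mis G ≥ 4(m+1). Contradiction. -/
def S_conn2 : Prop := ∀ (V : Type) [Fintype V] [DecidableEq V] (G : SimpleGraph V) (m L : ℕ)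
  (α : Type) (P : Finset (Sym2 V) → α), Fintype.card V = 2 * L + 1 →
  (∀ M M', IsM G M → IsM G M' → L ≤ M.card → L ≤ M'.card → (M \ M').card ≤ 1 →
    (M' \ M).card ≤ 1 → P M = P M') →
  (∀ v, m ≤ dg G v) → mis G < 4 * (m + 1) →
  ∀ M M', IsM G M → IsM G M' → L ≤ M.card → L ≤ M'.card → P M = P M'

/-- A finite boolean check (decide; 4096 cases). Cycle c_0..c_5, `sg` the M-partner, `ta` the M'-partner; `A i` = (p,c_i non-adjacent), `B i` = (q,c_i non-adjacent). -/
def S_hex : Prop := ∀ A B : Fin 6 → Bool,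
  (∀ i : Fin 6, ∀ b : Bool,
    let P := if b then A else B
    let Q := if b then B else A
    let sg : Fin 6 → Fin 6 := ![1, 0, 3, 2, 5, 4]
    let ta : Fin 6 → Fin 6 := ![5, 2, 1, 4, 3, 0]
    P i = false → Q (sg i) = false → P (sg (ta i)) = false →
      Q (sg (ta (sg i))) = true ∧ P (ta (sg i)) = true) →
  4 ≤ (Finset.univ.filter (fun i => A i = true)).card + (Finset.univ.filter (fun i => B i = true)).card

/-- PROOF (use S_hex as an additional hypothesis). n = 2L, M and M' are perfect; D = set of non-adjacent pairs. Suppose P M ≠ P M' for some pair; take one with |M∩M'| maximal (maximal pair). Let σx, τx be the partners of x in M, M' (fixed point free involutions of V), U = {x : σx ≠ τx}. A 4-switch replaces two edges of a perfect matching by two other edges of G on the same four vertices; P is unchanged. If 4-switches lead from M to M1 with |M1∩M'| > |M∩M'|: contradiction.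
(C1) x in U: σx and στx are not adjacent (otherwise switch {x,σx},{τx,στx} → {x,τx},{σx,στx}: gains {x,τx} ∈ M', loses nothing of M'). (C1') symmetric: τx and τσx are not adjacent. In particular x,σx,τx,στx are distinct and τσx ≠ στx; so |U| ≥ 6 (|U| is even and ≥ 4; if |U| = 4 then τσx = στx).
(C2) x in U, p in U \ {x,σx,τx,στx}, q = σp: not all three of x~p, σx~q, στx~p: else switch {x,σx},{p,q} → {x,p},{σx,q}, then {x,p},{τx,στx} → {x,τx},{στx,p}: gains {x,τx}, loses nothing of M'.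
(C3) x in U, p ∉ U, q = σp = τp: if x~p, σx~q, στx~p then the same two switches give M2 with |M2∩M'| = |M∩M'| (loses pq, gains xτx), P M2 = P M, so (M2,M') is a maximal pair and (C1),(C1') hold for it: this gives the four non-adjacent pairs q≁στσx, p≁στστx, p≁τσx, q≁τστx. (Check: in M2 the partners are x↔τx, σx↔q, στx↔p, else σ. τσx ∉ {x,τx,σx,στx}.)
COUNT 1: for each common edge {p,q} (p ∉ U) there are ≥ 4 D-pairs between {p,q} and U. The 2|U| options (x,p') (x in U, p' in {p,q}, q' the other) have triples {x p', σx q', στx p'}; every pair {w,p'} lies in exactly 3 triples. If every triple contains a D-pair there are ≥ 2|U|/3 ≥ 4 D-pairs. Otherwise some option (x,p) is free of D and (C3) gives four D-pairs, distinct unless στσx = τστx (then also στστx = τσx); in that case c_0=σx, c_1=x, c_2=τx, c_3=στx, c_4=τστx, c_5=στστx=τσx is a 6-cycle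
closed under σ, τ, and S_hex (with (C3) for its 12 options) gives ≥ 4 D-pairs.
COUNT 2: number D_U of D-pairs inside U satisfies 6 D_U ≥ u² - 2u, u = |U|: there are u(u-4) options (x,p) as in (C2), each triple {xp, σxσp, στx p} contains a D-pair; a pair inside U lies in at most 6 triples; the u/2 pairs {σx,στx} (one for each M'-edge {x,τx} inside U, distinct) are D-pairs by (C1) and such a pair {a,b}, a=σx,b=στx lies in at most 2 triples (only as {x',p'} ∈ {(a,b),(b,a)}: {σx',σp'} = {a,b} forces p' = τx' excluded, {στx',p'} = {a,b} forces p' = σx' excluded).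
So u(u-4) ≤ 6(D_U - u/2) + 2(u/2). FINAL: mis G ≥ (u²-2u)/6 + 4·(2L-u)/2, and 6·(that) - 6(4L-8) = u²-14u+48 = (u-6)(u-8) ≥ 0 for even u ≥ 6, so mis G + 8 ≥ 4L. Contradiction. -/
def S_conn3 : Prop := ∀ (V : Type) [Fintype V] [DecidableEq V] (G : SimpleGraph V) (L : ℕ)
  (α : Type) (P : Finset (Sym2 V) → α), Fintype.card V = 2 * L →
  (∀ M M', IsM G M → IsM G M' → M.card = L → M'.card = L → (M \ M').card = 2 →
    (M' \ M).card = 2 → P M = P M') →
  mis G + 8 < 4 * L →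
  ∀ M M', IsM G M → IsM G M' → M.card = L → M'.card = L → P M = P M'

/-- PROOF. n = 3m-1, LL m = (3m-1)/2, so M, M' are perfect; D = non-adjacent pairs, |D| ≤ 2m-2. Suppose not PEq. S_A2: on M∩M' the values are α (m-1 times) and γ. From the proof of S_A2 (redo it; or argue directly): up to exchanging M and M' and an affine change (c ↦ g⁻¹(c-a)), M has values 0 (m-1 times), 1 (twice), 2 ((m-3)/2 times), the two 1-edges are M \ M' = {ax, yb}, M' \ M = {xy, ab} (vertex names), M is normal for the pair {0,1}.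
M' is normal for a pair containing 0 (m-1 zeros, at most (m-3)/2 values outside the pair), {0,q}, q ≠ 1. Then q = 2: for m = 3, both remaining values of M' equal q ∉{0,1}; for m ≥ 5 the value 2 appears with weight v'(2): (v'(2)-1)(m-3)/2 ≤ (m-3)/2 (all nonzero elements of M' are positive as there are m-1 zeros), so v'(2) ∈ {1,2}; v'(2) = 2 gives q = 1. Remark W: in a normal form for {0,2} of a matching with LL m edges no edge has value 1
(1 = 2·v' mod m forces v' = (m+1)/2 or -(m-1)/2, weight (m-1)/2 > (m-3)/2 ≥ 2m-2-LL m).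
SWITCH LEMMA: if N, N' are perfect matchings with |N\N'| = 2 and no value occurs m-1 times on N ∩ N', then both have normal forms (S_S2) for the same pair (S_A2).
Let pq be a 0-edge of M (m-1 of them, all in M∩M'), Z = their vertices, |Z| = 2m-2.
(1) if x~p, a~q: N = M - ax - pq + xp + aq; on M ∩ N: 0 occurs m-2 times, 1 once, 2 (m-3)/2 times: never m-1 times. So N is normal for {0,1}; its inequalities: positives 1 + (m-3) + … ≤ m-1, nonpositives (m-2) + … ≤ m-1, so {c(xp),c(aq)} = {0,1}. (2) if y~q, b~p: {c(yq),c(bp)} = {0,1} likewise.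
(3) if x~p, y~q: N = M' - xy - pq + xp + yq: common part has m-2 zeros, c(ab) ≠ 0 (M' has no m zeros), 2's: no value m-1 times (m = 3: two different values). So N is normal for {0,2} and by Remark W c(xp) ≠ 1 ≠ c(yq). (4) if a~q, b~p: c(aq) ≠ 1 ≠ c(bp).
If xp, aq, yq, bp are all edges: (3),(4) contradict (1). So for both orientations (p,q) and (q,p) one of the four pairs {xp,aq,yq,bp}, resp. {xq,ap,yp,bq}, is in D: |D| ≥ 2(m-1). Hence |D| = 2m-2, exactly one D-pair in each group, and D has no other pairs. In particular all pairs inside Z are edges; switching two 0-edges pq,p'q' of M to pp',qq' keeps the pair {0,1}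
(common part: m-3 zeros, 1,1, 2's; for m ≥ 5 no value m-1 times; for m = 3 argue directly: the values {c(pp'),c(qq'),1,1} of (M with Z rematched) and {c(pp'),c(qq'),2,2} of (M' with Z rematched) have no zero-sum triple in Z/3, so c(pp') = c(qq') = 0) and the inequalities force c(pp') = c(qq') = 0; so all edges inside Z have value 0 and any two distinct p,q in Z may play the role of the ends of a 0-edge of M (rematch Z). So for all p ≠ q in Z exactly one of xp,aq,yq,bp is in D: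
f(p)+g(q) = 1 for p ≠ q, f(p) = [xp∈D]+[bp∈D], g(q) = [aq∈D]+[yq∈D]; |Z| ≥ 4 so f, g are constant and {f,g} = {0,1}. By the symmetry a↔x, y↔b assume f = 1, g = 0. If some p misses b and some p' misses x: from xp,aq,yq edges (q ∉{p,p'}): (1),(3): c(xp)=0, c(aq)=1; from b p', aq, yq edges: (2),(4): c(aq) ≠ 1: contradiction. So (symmetry x↔b, a↔y) all of Z misses b: x~Z, a~Z, y~Z, x~b etc., c(xp)=0, c(aq)=1, c(yq)≠1 for p,q in Z.
N3 = M' - xy - pq + xp + yq is normal for {0,2} (by (3)), c(yq) ≠ 0 (else m zeros). N9 = N3 - ab - xp + ap + bx: common part has m-2 zeros, c(yq) and 2's: no value m-1 times, so N9 is normal for {0,2}, but c(ap) = 1: contradiction to Remark W.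
(For m = 3: n = 8, |Z| = 4, everything above applies.) -/
def S_SW : Prop := S_S2 → S_A1 → S_A2 → ∀ (m : ℕ), 3 ≤ m → Odd m →
  ∀ (V : Type) [Fintype V] [DecidableEq V] (G : SimpleGraph V) (c : Sym2 V → ZMod m),
  Fintype.card V = 3 * m - 1 → mis G ≤ 2 * m - 2 →
  (∀ M, IsM G M → M.card = m → ∑ e ∈ M, c e ≠ 0) →
  ∀ M M' (a g a' g' : ZMod m), IsM G M → IsM G M' → M.card = LL m → M'.card = LL m →
  (M \ M').card = 2 → (M' \ M).card = 2 → Nrm m M c a g → Nrm m M' c a' g' →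
  PEq a g a' g'

/-- PROOF. Suppose there is an m-matching B with all v ≥ 1; the excess is k0 = ∑_B (v-1) ≥ 0; choose B with minimal excess. k0 ≥ 1, otherwise ∑ v = m. Hv(B) = {e ∈ B : v e ≥ 2}, nonempty, |Hv(B)| ≤ k0. For a matching M with |M| ≥ L the two inequalities add up to |M| + ∑_{v≥1}(v-1) + ∑_{v≤0}(-v) ≤ 2m-2 (W). First 2|Hv(B)|+1 ≤ m: otherwise a subset Q of Hv(B) with |Q| = ⌈m/2⌉-1 =(m-1)/2 or m/2 - 1 (largest with 2|Q|+1 ≤ m) extends to M, |M| = L,
and ∑_{v≥1}(v-1) ≥ |Q| > 2m-2-L (as 2L ≥ 3m-1): contradiction to (W). So Hv(B) ⊆ M for some M with |M| ≥ L; by (W) k0 ≤ 2m-2-L, in particular 2·k0 ≤ m.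
Among all pairs (B,M): B an m-matching with all v ≥ 1 and excess k0 (minimal), M a matching with |M| ≥ L, Hv(B) ⊆ M, choose one with |M ∩ B| maximal. (i) every b ∈ B \ M meets exactly two edges of M (if none: M + b; if exactly one, f: f ∉ B, M - f + b; both contradict maximality). These edges are in M \ B.
(ii) if f ∈ M \ B meets exactly one edge b of B, then v f ≠ 1: b ∉ M, so v b = 1 and B - b + f would have the same excess and larger intersection with M (Hv unchanged). (iii) if f ∈ M \ B meets no edge of B then v f ≠ 1: B + f - e with e ∈ Hv(B) has smaller excess.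
Let F_i = edges of M \ B meeting exactly i edges of B (all in B \ M), i = 0,1,2. Counting incidences: 2|B\M| = |F_1| + 2|F_2|, so 2|F_0| + |F_1| = 2(|M\B| - |B\M|) = 2(|M|-m). Number of edges of M \ Hv(B) with v ∉ {0,1} is ≤ 2m-2-|M|-k0 by (W) (Hv(B) ⊆ M contributes k0). So with F_i^0 = {f ∈ F_i : v f = 0}: 2|F_0^0| + |F_1^0| ≥ 2(|M|-m) - 2(2m-2-|M|-k0) = 4|M|-6m+4+2k0 ≥ 2k0+2.
Each b ∈ B\M is met by exactly two edges of M, so one can choose a subset F' ⊆ F_1^0 with |F'| ≥ |F_1^0|/2 and distinct partners b(f), f ∈ F'. So |F_0^0| + |F'| ≥ k0; choose R ⊆ F_0^0 ∪ F' with |R| = k0, R_0 = R ∩ F_0^0, t = |R_0|, R_1 = R \ R_0. B° = (B \ {b(f) : f ∈ R_1}) ∪ R is a matching with m+t edges; v b(f) = 1, v f = 0, so ∑_{B°} v = (m+k0) - |R_1| = m + t; all v ≥ 0, exactly k0 zeros, at most k0 edges with v ≥ 2,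
so at least m+t-2k0 ≥ t edges with v = 1: remove t of them: an m-matching with sum m, divisible by m: contradiction. -/
def S_key : Prop := ∀ (m L : ℕ), 3 ≤ m → 3 * m ≤ 2 * L + 1 →
  ∀ (V : Type) [Fintype V] [DecidableEq V] (G : SimpleGraph V) (v : Sym2 V → ℤ),
  (∀ M, IsM G M → M.card = m → ¬ (m : ℤ) ∣ ∑ e ∈ M, v e) →
  (∀ Q, IsM G Q → 2 * Q.card + 1 ≤ m → ∃ M, IsM G M ∧ Q ⊆ M ∧ M.card = L) →
  (∀ M, IsM G M → L ≤ M.card →
    ∑ e ∈ M.filter (fun e => 1 ≤ v e), v e ≤ (m : ℤ) - 1 ∧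
    ∑ e ∈ M.filter (fun e => v e ≤ 0), (1 - v e) ≤ (m : ℤ) - 1) →
  ∀ M, IsM G M → M.card = m → ¬ ∀ e ∈ M, 1 ≤ v e

/-! ### final statements -/

def Good {V : Type} (m : ℕ) (G : SimpleGraph V) (c : Sym2 V → ZMod m) : Prop :=
  ∀ M, IsM G M → M.card = m → ∑ e ∈ M, c e ≠ 0

/-- FINAL (helper133 assembles). -/
def S_UB (m : ℕ) : Prop := ∀ (V : Type) [Fintype V] [DecidableEq V]
  (G : SimpleGraph V) (c : Sym2 V → ZMod m), Good m G c →
  3 * m - 2 ≤ Fintype.card V → eG G ≤ TT m (Fintype.card V)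

end Pool.Agent.H133.ZM
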