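import Mathlib
import Pool.Agent.H133.ZM.Stm

/-!
Project ZM (helper133), part conn3: connectivity of the set of perfect matchings under 4-switches.
-/

set_option autoImplicit false
set_option linter.unusedSectionVars false

namespace Pool.Agent.H133.ZM.C3

open Finset Pool.Agent.H133.ZM

variable {V : Type} [Fintype V] [DecidableEq V]

/-- perfect matching as a fixed point free involution -/
structure PM (G : SimpleGraph V) (σ : V → V) : Prop where
  inv : ∀ x, σ (σ x) = x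
  adj : ∀ x, G.Adj x (σ x)

theorem PM.ne {G : SimpleGraph V} {σ : V → V} (h : PM G σ) (x : V) : σ x ≠ x :=
  (h.adj x).ne'

theorem PM.inj {G : SimpleGraph V} {σ : V → V} (h : PM G σ) {x y : V} (e : σ x = σ y) :
    x = y := by
  rw [← h.inv x, e, h.inv]

theorem PM.sw1 {G : SimpleGraph V} {σ : V → V} (h : PM G σ) {x y : V} (e : σ x = y) :
    x = σ y := by
  rw [← e, h.inv]

/-- the 4-switch -/
def sw (σ : V → V) (a b : V) : V → V := fun x =>
  if x = a then b else if x = b then a else if x = σ a then σ b else if x = σ b then σ a else σ x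

theorem sw_a (σ : V → V) (a b : V) : sw σ a b a = b := by simp [sw]

theorem sw_b {σ : V → V} {a b : V} (h : a ≠ b) : sw σ a b b = a := by
  simp [sw, h.symm]

theorem sw_sa {σ : V → V} {a b : V} (h1 : σ a ≠ a) (h2 : σ a ≠ b) :
    sw σ a b (σ a) = σ b := by
  simp [sw, h1, h2]

theorem sw_sb {σ : V → V} {a b : V} (h1 : σ b ≠ a) (h2 : σ b ≠ b) (h3 : σ b ≠ σ a) :
    sw σ a b (σ b) = σ a := by
  simp [sw, h1, h2, h3]

theorem sw_o {σ : V → V} {a b x : V} (h1 : x ≠ a) (h2 : x ≠ b) (h3 : x ≠ σ a) (h4 : x ≠ σ b) :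
    sw σ a b x = σ x := by
  simp [sw, h1, h2, h3, h4]

theorem PM_sw {G : SimpleGraph V} {σ : V → V} (h : PM G σ) {a b : V} (hab : a ≠ b)
    (hb : b ≠ σ a) (e1 : G.Adj a b) (e2 : G.Adj (σ a) (σ b)) : PM G (sw σ a b) := by
  have n1 : σ a ≠ a := h.ne a
  have n2 : σ b ≠ b := h.ne b
  have n3 : σ a ≠ b := fun e => hb e.symm
  have n4 : σ b ≠ a := fun e => hb (by rw [← e, h.inv])
  have n5 : σ b ≠ σ a := fun e => hab (h.inj e).symm
  have Ea := sw_a σ a b
  have Eb := sw_b (σ := σ) hab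
  have Esa := sw_sa (σ := σ) n1 n3
  have Esb := sw_sb (σ := σ) n4 n2 n5
  refine ⟨?_, ?_⟩
  · intro x
    by_cases x1 : x = a
    · rw [x1, Ea, Eb]
    by_cases x2 : x = b
    · rw [x2, Eb, Ea]
    by_cases x3 : x = σ a
    · rw [x3, Esa, Esb]
    by_cases x4 : x = σ b
    · rw [x4, Esb, Esa]
    rw [sw_o x1 x2 x3 x4, sw_o, h.inv]
    · exact fun e => x3 (h.sw1 e)
    · exact fun e => x4 (h.sw1 e)
    · exact fun e => x1 (h.inj e)
    · exact fun e => x2 (h.inj e)
  · intro x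
    by_cases x1 : x = a
    · rw [x1, Ea]; exact e1
    by_cases x2 : x = b
    · rw [x2, Eb]; exact e1.symm
    by_cases x3 : x = σ a
    · rw [x3, Esa]; exact e2
    by_cases x4 : x = σ b
    · rw [x4, Esb]; exact e2.symm
    rw [sw_o x1 x2 x3 x4]; exact h.adj x

/-- the edge set of an involution -/
def Ms (σ : V → V) : Finset (Sym2 V) := univ.image (fun x => s(x, σ x))

theorem mem_Ms {G : SimpleGraph V} {σ : V → V} (h : PM G σ) (x y : V) :
    s(x, y) ∈ Ms σ ↔ σ x = y := by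
  simp only [Ms, mem_image, mem_univ, true_and]
  constructor
  · rintro ⟨z, hz⟩
    rw [Sym2.eq_iff] at hz
    rcases hz with ⟨h1, h2⟩ | ⟨h1, h2⟩
    · rw [← h1, h2]
    · rw [← h2, ← h1, h.inv]
  · rintro rfl
    exact ⟨x, rfl⟩

theorem Ms_IsM {G : SimpleGraph V} {σ : V → V} (h : PM G σ) : IsM G (Ms σ) := by
  refine ⟨?_, ?_⟩
  · intro e he
    induction e using Sym2.ind with
    | _ x y =>
      rw [mem_Ms h] at he
      rw [SimpleGraph.mem_edgeSet, ← he]
      exact h.adj x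
  · intro e he f hf hef v hve hvf
    apply hef
    obtain ⟨y, rfl⟩ := Sym2.mem_iff_exists.1 hve
    obtain ⟨z, rfl⟩ := Sym2.mem_iff_exists.1 hvf
    rw [mem_Ms h] at he hf
    rw [← he, ← hf]

theorem Ms_card {G : SimpleGraph V} {σ : V → V} (h : PM G σ) :
    2 * (Ms σ).card = Fintype.card V := by
  have h1 : (univ : Finset V).card = ∑ e ∈ Ms σ, (univ.filter (fun x => s(x, σ x) = e)).card :=
    Finset.card_eq_sum_card_image _ _
  have h2 : ∀ e ∈ Ms σ, (univ.filter (fun x => s(x, σ x) = e)).card = 2 := by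
    intro e he
    rw [Ms, mem_image] at he
    obtain ⟨y, -, rfl⟩ := he
    have : (univ.filter (fun x => s(x, σ x) = s(y, σ y))) = {y, σ y} := by
      ext x
      simp only [mem_filter, mem_univ, true_and, mem_insert, mem_singleton]
      constructor
      · intro hx
        rw [Sym2.eq_iff] at hx
        rcases hx with ⟨h1, h2⟩ | ⟨h1, h2⟩
        · exact Or.inl h1
        · exact Or.inr h1
      · rintro (rfl | rfl)
        · rfl
        · rw [h.inv, Sym2.eq_swap]
    rw [this, card_pair (h.ne y).symm]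
  rw [Finset.sum_congr rfl h2] at h1
  rw [Finset.card_univ] at h1
  rw [h1]
  simp [mul_comm]

theorem Ms_sdiff {G : SimpleGraph V} {σ : V → V} (h : PM G σ) {a b : V} (hab : a ≠ b)
    (hb : b ≠ σ a) (e1 : G.Adj a b) (e2 : G.Adj (σ a) (σ b)) :
    (Ms σ \ Ms (sw σ a b)).card = 2 ∧ (Ms (sw σ a b) \ Ms σ).card = 2 := by
  have h' : PM G (sw σ a b) := PM_sw h hab hb e1 e2
  have n1 : σ a ≠ a := h.ne a
  have n2 : σ b ≠ b := h.ne b
  have n3 : σ a ≠ b := fun e => hb e.symm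
  have n4 : σ b ≠ a := fun e => hb (by rw [← e, h.inv])
  have n5 : σ b ≠ σ a := fun e => hab (h.inj e).symm
  have Ea := sw_a σ a b
  have Eb := sw_b (σ := σ) hab
  have Esa := sw_sa (σ := σ) n1 n3
  have Esb := sw_sb (σ := σ) n4 n2 n5
  have A1 : Ms σ \ Ms (sw σ a b) = {s(a, σ a), s(b, σ b)} := by
    ext e
    induction e using Sym2.ind with
    | _ x y =>
      rw [mem_sdiff, mem_Ms h, mem_Ms h', mem_insert, mem_singleton]
      constructor
      · rintro ⟨h1, h2⟩
        subst h1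
        by_cases x1 : x = a
        · left; rw [x1]
        by_cases x2 : x = b
        · right; rw [x2]
        by_cases x3 : x = σ a
        · left; rw [x3, h.inv, Sym2.eq_swap]
        by_cases x4 : x = σ b
        · right; rw [x4, h.inv, Sym2.eq_swap]
        exact absurd (sw_o x1 x2 x3 x4) h2
      · rintro (h1 | h1)
        · rw [Sym2.eq_iff] at h1
          rcases h1 with ⟨r1, r2⟩ | ⟨r1, r2⟩
          · rw [r1, r2, Ea]; exact ⟨rfl, hb⟩
          · rw [r1, r2, Esa]; exact ⟨h.inv a, n4⟩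
        · rw [Sym2.eq_iff] at h1
          rcases h1 with ⟨r1, r2⟩ | ⟨r1, r2⟩
          · rw [r1, r2, Eb]; exact ⟨rfl, n4.symm⟩
          · rw [r1, r2, Esb]; exact ⟨h.inv b, n3⟩
  have A2 : Ms (sw σ a b) \ Ms σ = {s(a, b), s(σ a, σ b)} := by
    ext e
    induction e using Sym2.ind with
    | _ x y =>
      rw [mem_sdiff, mem_Ms h, mem_Ms h', mem_insert, mem_singleton]
      constructor
      · rintro ⟨h1, h2⟩
        subst h1
        by_cases x1 : x = a
        · left; rw [x1, Ea]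
        by_cases x2 : x = b
        · left; rw [x2, Eb, Sym2.eq_swap]
        by_cases x3 : x = σ a
        · right; rw [x3, Esa]
        by_cases x4 : x = σ b
        · right; rw [x4, Esb, Sym2.eq_swap]
        exact absurd (sw_o x1 x2 x3 x4).symm h2
      · rintro (h1 | h1)
        · rw [Sym2.eq_iff] at h1
          rcases h1 with ⟨r1, r2⟩ | ⟨r1, r2⟩
          · rw [r1, r2, Ea]; exact ⟨rfl, n3⟩
          · rw [r1, r2, Eb]; exact ⟨rfl, n4⟩
        · rw [Sym2.eq_iff] at h1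
          rcases h1 with ⟨r1, r2⟩ | ⟨r1, r2⟩
          · rw [r1, r2, Esa, h.inv]; exact ⟨rfl, n4.symm⟩
          · rw [r1, r2, Esb, h.inv]; exact ⟨rfl, hb⟩
  rw [A1, A2]
  constructor
  · apply card_pair
    intro e
    rw [Sym2.eq_iff] at e
    rcases e with ⟨r1, r2⟩ | ⟨r1, r2⟩
    · exact hab r1
    · exact n4 r1.symm
  · apply card_pair
    intro e
    rw [Sym2.eq_iff] at e
    rcases e with ⟨r1, r2⟩ | ⟨r1, r2⟩
    · exact n1 r1.symm
    · exact n4 r1.symm

/-- a matching with `L` edges on `2L` vertices is given by an involution -/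
theorem exists_PM {G : SimpleGraph V} {L : ℕ} (hV : Fintype.card V = 2 * L)
    {M : Finset (Sym2 V)} (hM : IsM G M) (hc : M.card = L) : ∃ σ, PM G σ ∧ M = Ms σ := by
  classical
  have hcov : ∀ x : V, ∃ y, s(x, y) ∈ M := by
    have h1 : (M.biUnion (fun e => e.toFinset)).card = 2 * L := by
      rw [Finset.card_biUnion]
      · rw [Finset.sum_congr rfl (g := fun _ => 2), Finset.sum_const, hc, smul_eq_mul, mul_comm]
        intro e he
        have := hM.1 e he
        rw [Sym2.card_toFinset_of_not_isDiag]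
        exact G.not_isDiag_of_mem_edgeSet this
      · intro e he f hf hef
        show Disjoint _ _
        rw [Finset.disjoint_left]
        intro v hv hv'
        rw [Sym2.mem_toFinset] at hv hv'
        exact hM.2 e he f hf hef v hv hv'
    have h2 : M.biUnion (fun e => e.toFinset) = univ := by
      apply Finset.eq_univ_of_card
      rw [h1, hV]
    intro x
    have : x ∈ M.biUnion (fun e => e.toFinset) := by rw [h2]; exact mem_univ x
    rw [mem_biUnion] at this
    obtain ⟨e, he, hx⟩ := this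
    rw [Sym2.mem_toFinset] at hx
    obtain ⟨y, rfl⟩ := Sym2.mem_iff_exists.1 hx
    exact ⟨y, he⟩
  have huni : ∀ x y z, s(x, y) ∈ M → s(x, z) ∈ M → y = z := by
    intro x y z h1 h2
    by_contra hne
    refine hM.2 _ h1 _ h2 ?_ x (by simp) (by simp)
    intro e
    rw [Sym2.eq_iff] at e
    rcases e with ⟨-, r⟩ | ⟨r1, r2⟩
    · exact hne r
    · exact hne (r2.trans r1)
  choose σ hσ using hcov
  have hPM : PM G σ := by
    refine ⟨?_, ?_⟩
    · intro x
      refine huni (σ x) _ _ (hσ (σ x)) ?_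
      rw [Sym2.eq_swap]; exact hσ x
    · intro x
      have := hM.1 _ (hσ x)
      rwa [SimpleGraph.mem_edgeSet] at this
  refine ⟨σ, hPM, ?_⟩
  ext e
  induction e using Sym2.ind with
  | _ x y =>
    rw [mem_Ms hPM]
    constructor
    · intro h
      exact huni x _ _ (hσ x) h
    · intro h
      rw [← h]
      exact hσ x

/-! ### the abstract switching argument -/

/-- number of vertices with the same partner -/
def agr (σ τ : V → V) : ℕ := (univ.filter (fun x => σ x = τ x)).card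

theorem agr_comm (σ τ : V → V) : agr σ τ = agr τ σ := by
  unfold agr
  congr 1
  ext x
  simp [eq_comm]

/-- the value is invariant under switches -/
def Inv (G : SimpleGraph V) {α : Type} (F : (V → V) → α) : Prop :=
  ∀ (σ : V → V) (a b : V), PM G σ → a ≠ b → b ≠ σ a → G.Adj a b → G.Adj (σ a) (σ b) →
    F (sw σ a b) = F σ

/-- a maximal bad pair -/
structure MP (G : SimpleGraph V) {α : Type} (F : (V → V) → α) (σ τ : V → V) : Prop where
  hσ : PM G σ
  hτ : PM G τ
  ne : F σ ≠ F τ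
  mx : ∀ σ' τ', PM G σ' → PM G τ' → F σ' ≠ F τ' → agr σ' τ' ≤ agr σ τ

theorem MP.symm {G : SimpleGraph V} {α : Type} {F : (V → V) → α} {σ τ : V → V}
    (h : MP G F σ τ) : MP G F τ σ :=
  ⟨h.hτ, h.hσ, h.ne.symm, fun σ' τ' h1 h2 h3 => by
    rw [agr_comm τ σ]; exact h.mx σ' τ' h1 h2 h3⟩

theorem single {G : SimpleGraph V} {α : Type} {F : (V → V) → α} (hF : Inv G F)
    {σ : V → V} (h : PM G σ) {a b : V} (hab : a ≠ b)
    (hb : b ≠ σ a) (e1 : G.Adj a b) (e2 : G.Adj (σ a) (σ b)) :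
    ∃ σ', PM G σ' ∧ F σ' = F σ ∧ σ' a = b ∧ σ' b = a ∧ σ' (σ a) = σ b ∧ σ' (σ b) = σ a ∧
      ∀ y, y ≠ a → y ≠ b → y ≠ σ a → y ≠ σ b → σ' y = σ y := by
  have n1 : σ a ≠ a := h.ne a
  have n2 : σ b ≠ b := h.ne b
  have n3 : σ a ≠ b := fun e => hb e.symm
  have n4 : σ b ≠ a := fun e => hb (by rw [← e, h.inv])
  have n5 : σ b ≠ σ a := fun e => hab (h.inj e).symm
  exact ⟨sw σ a b, PM_sw h hab hb e1 e2, hF σ a b h hab hb e1 e2, sw_a σ a b, sw_b hab,
    sw_sa n1 n3, sw_sb n4 n2 n5, fun y h1 h2 h3 h4 => sw_o h1 h2 h3 h4⟩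

theorem double {G : SimpleGraph V} {α : Type} {F : (V → V) → α} (hF : Inv G F)
    {σ : V → V} (h : PM G σ) {x p t : V} (hxp : x ≠ p) (hp : p ≠ σ x)
    (t1 : t ≠ x) (t2 : t ≠ σ x) (t3 : t ≠ p) (t4 : t ≠ σ p)
    (e1 : G.Adj x p) (e2 : G.Adj (σ x) (σ p)) (e3 : G.Adj x t) (e4 : G.Adj p (σ t)) :
    ∃ σ', PM G σ' ∧ F σ' = F σ ∧ σ' x = t ∧ σ' t = x ∧ σ' p = σ t ∧ σ' (σ t) = p ∧
      σ' (σ x) = σ p ∧ σ' (σ p) = σ x ∧
      ∀ y, y ≠ x → y ≠ t → y ≠ p → y ≠ σ t → y ≠ σ x → y ≠ σ p → σ' y = σ y := by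
  obtain ⟨σ₁, h1, hF1, a1, a2, a3, a4, a5⟩ := single hF h hxp hp e1 e2
  have ht : σ₁ t = σ t := a5 t t1 t3 t2 t4
  obtain ⟨σ₂, h2, hF2, b1, b2, b3, b4, b5⟩ := single hF h1 (a := x) (b := t) t1.symm
    (by rw [a1]; exact t3) e3 (by rw [a1, ht]; exact e4)
  rw [a1, ht] at b3 b4 b5
  have q1 : σ x ≠ x := h.ne x
  have q2 : σ x ≠ σ t := fun e => t1 (h.inj e).symm
  have q3 : σ p ≠ x := fun e => hp (by rw [← e, h.inv])
  have q4 : σ p ≠ p := h.ne p
  have q5 : σ p ≠ σ t := fun e => t3 (h.inj e).symm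
  refine ⟨σ₂, h2, hF2.trans hF1, b1, b2, b3, b4, ?_, ?_, ?_⟩
  · rw [b5 (σ x) q1 t2.symm hp.symm q2, a3]
  · rw [b5 (σ p) q3 t4.symm q4 q5, a4]
  · intro y y1 y2 y3 y4 y5 y6
    rw [b5 y y1 y2 y3 y4, a5 y y1 y3 y5 y6]

section Core

variable {G : SimpleGraph V} {α : Type} {F : (V → V) → α} {σ τ : V → V}

theorem U_σ (h : PM G σ) (h' : PM G τ) {x : V} (hx : σ x ≠ τ x) : σ (σ x) ≠ τ (σ x) := by
  rw [h.inv]
  intro e
  exact hx (h'.sw1 e.symm)

theorem U_τ (h : PM G σ) (h' : PM G τ) {x : V} (hx : σ x ≠ τ x) : σ (τ x) ≠ τ (τ x) :=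
  (U_σ h' h (x := x) hx.symm).symm

theorem C1 (hF : Inv G F) (h : MP G F σ τ) {x : V} (hx : σ x ≠ τ x) :
    ¬ G.Adj (σ x) (σ (τ x)) := by
  intro hadj
  have hσ := h.hσ
  have hτ := h.hτ
  obtain ⟨σ₁, h1, hF1, a1, a2, a3, a4, a5⟩ := single hF hσ (a := x) (b := τ x)
    (hτ.ne x).symm hx.symm (hτ.adj x) hadj
  have hlt : agr σ τ < agr σ₁ τ := by
    apply Finset.card_lt_card
    rw [Finset.ssubset_iff_of_subset]
    · refine ⟨x, ?_, ?_⟩
      · simp only [mem_filter, mem_univ, true_and]; exact a1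
      · simp only [mem_filter, mem_univ, true_and]; exact hx
    · intro y hy
      simp only [mem_filter, mem_univ, true_and] at hy ⊢
      have y1 : y ≠ x := by rintro rfl; exact hx hy
      have y2 : y ≠ τ x := by rintro rfl; exact U_τ hσ hτ hx hy
      have y3 : y ≠ σ x := by rintro rfl; exact U_σ hσ hτ hx hy
      have y4 : y ≠ σ (τ x) := by rintro rfl; exact U_σ hσ hτ (U_τ hσ hτ hx) hy
      rw [a5 y y1 y2 y3 y4]; exact hy
  have := h.mx σ₁ τ h1 hτ (by rw [hF1]; exact h.ne)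
  omega

theorem C1' (hF : Inv G F) (h : MP G F σ τ) {x : V} (hx : σ x ≠ τ x) :
    ¬ G.Adj (τ x) (τ (σ x)) :=
  C1 hF h.symm hx.symm

theorem C2 (hF : Inv G F) (h : MP G F σ τ) {x p : V} (hx : σ x ≠ τ x) (hp : σ p ≠ τ p)
    (p1 : p ≠ x) (p2 : p ≠ σ x) (p3 : p ≠ τ x) (p4 : p ≠ σ (τ x))
    (e1 : G.Adj x p) (e2 : G.Adj (σ x) (σ p)) (e3 : G.Adj (σ (τ x)) p) : False := by
  have hσ := h.hσ
  have hτ := h.hτ
  have t4 : τ x ≠ σ p := fun e => p4 (by rw [e, hσ.inv])
  obtain ⟨σ₁, h1, hF1, a1, a2, a3, a4, a5, a6, a7⟩ := double hF hσ (x := x) (p := p) (t := τ x)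
    p1.symm p2 (hτ.ne x) hx.symm p3.symm t4 e1 e2 (hτ.adj x) e3.symm
  have hlt : agr σ τ < agr σ₁ τ := by
    apply Finset.card_lt_card
    rw [Finset.ssubset_iff_of_subset]
    · refine ⟨x, ?_, ?_⟩
      · simp only [mem_filter, mem_univ, true_and]; exact a1
      · simp only [mem_filter, mem_univ, true_and]; exact hx
    · intro y hy
      simp only [mem_filter, mem_univ, true_and] at hy ⊢
      have y1 : y ≠ x := by rintro rfl; exact hx hy
      have y2 : y ≠ τ x := by rintro rfl; exact U_τ hσ hτ hx hy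
      have y3 : y ≠ p := by rintro rfl; exact hp hy
      have y4 : y ≠ σ (τ x) := by rintro rfl; exact U_σ hσ hτ (U_τ hσ hτ hx) hy
      have y5 : y ≠ σ x := by rintro rfl; exact U_σ hσ hτ hx hy
      have y6 : y ≠ σ p := by rintro rfl; exact U_σ hσ hτ hp hy
      rw [a7 y y1 y2 y3 y4 y5 y6]; exact hy
  have := h.mx σ₁ τ h1 hτ (by rw [hF1]; exact h.ne)
  omega

theorem C3 (hF : Inv G F) (h : MP G F σ τ) {x p : V} (hx : σ x ≠ τ x) (hp : σ p = τ p)
    (e1 : G.Adj x p) (e2 : G.Adj (σ x) (σ p)) (e3 : G.Adj (σ (τ x)) p) :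
    ¬ G.Adj (σ p) (σ (τ (σ x))) ∧ ¬ G.Adj p (σ (τ (σ (τ x)))) ∧ ¬ G.Adj p (τ (σ x)) ∧
      ¬ G.Adj (σ p) (τ (σ (τ x))) := by
  have hσ := h.hσ
  have hτ := h.hτ
  -- members of U differ from p, σ p
  have hq : σ (σ p) = τ (σ p) := by rw [hσ.inv, hp, hτ.inv]
  have Up : ∀ y, σ y ≠ τ y → y ≠ p := by rintro y hy rfl; exact hy hp
  have Uq : ∀ y, σ y ≠ τ y → y ≠ σ p := by rintro y hy rfl; exact hy hq
  have u1 := hx
  have u2 : σ (σ x) ≠ τ (σ x) := U_σ hσ hτ hx
  have u3 : σ (τ x) ≠ τ (τ x) := U_τ hσ hτ hx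
  have u4 : σ (σ (τ x)) ≠ τ (σ (τ x)) := U_σ hσ hτ u3
  have u5 : σ (τ (σ x)) ≠ τ (τ (σ x)) := U_τ hσ hτ u2
  have u6 : σ (τ (σ (τ x))) ≠ τ (τ (σ (τ x))) := U_τ hσ hτ u4
  have p1 : p ≠ x := (Up x u1).symm
  have p2 : p ≠ σ x := (Up _ u2).symm
  have p3 : p ≠ τ x := (Up _ u3).symm
  have p4 : p ≠ σ (τ x) := (Up _ u4).symm
  have t4 : τ x ≠ σ p := Uq _ u3
  obtain ⟨σ₁, h1, hF1, a1, a2, a3, a4, a5, a6, a7⟩ := double hF hσ (x := x) (p := p) (t := τ x)
    p1.symm p2 (hτ.ne x) hx.symm p3.symm t4 e1 e2 (hτ.adj x) e3.symm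
  have hpq : p ≠ σ p := (hσ.ne p).symm
  have hge : agr σ τ ≤ agr σ₁ τ := by
    -- (agree σ) \ {p, σ p} ∪ {x, τ x} ⊆ agree σ₁
    have hs : (((univ.filter (fun y => σ y = τ y)) \ {p, σ p}) ∪ {x, τ x}) ⊆
        univ.filter (fun y => σ₁ y = τ y) := by
      intro y hy
      rw [mem_union, mem_sdiff, mem_insert, mem_singleton, mem_insert, mem_singleton,
        mem_filter] at hy
      rw [mem_filter]
      refine ⟨mem_univ _, ?_⟩
      rcases hy with ⟨⟨-, hy⟩, hy2⟩ | (rfl | rfl)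
      · rw [not_or] at hy2
        have y1 : y ≠ x := by rintro rfl; exact hx hy
        have y2 : y ≠ τ x := by rintro rfl; exact u3 hy
        have y4 : y ≠ σ (τ x) := by rintro rfl; exact u4 hy
        have y5 : y ≠ σ x := by rintro rfl; exact u2 hy
        rw [a7 y y1 y2 hy2.1 y4 y5 hy2.2]; exact hy
      · exact a1
      · rw [a2, hτ.inv]
    have hc := Finset.card_le_card hs
    rw [Finset.card_union_of_disjoint] at hc
    · have hc1 : ({x, τ x} : Finset V).card = 2 := card_pair (hτ.ne x).symm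
      have hc2 : ((univ.filter (fun y => σ y = τ y)) \ {p, σ p}).card + 2 =
          (univ.filter (fun y => σ y = τ y)).card := by
        have hsub : ({p, σ p} : Finset V) ⊆ univ.filter (fun y => σ y = τ y) := by
          intro y hy
          rw [mem_insert, mem_singleton] at hy
          rw [mem_filter]
          refine ⟨mem_univ _, ?_⟩
          rcases hy with rfl | rfl
          · exact hp
          · exact hq
        have := Finset.card_sdiff_add_card_eq_card hsub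
        rw [card_pair hpq] at this
        exact this
      unfold agr
      omega
    · rw [Finset.disjoint_left]
      intro y hy hy'
      rw [mem_sdiff, mem_filter] at hy
      rw [mem_insert, mem_singleton] at hy'
      rcases hy' with rfl | rfl
      · exact hx hy.1.2
      · exact u3 hy.1.2
  have hMP : MP G F σ₁ τ := by
    refine ⟨h1, hτ, by rw [hF1]; exact h.ne, ?_⟩
    intro σ' τ' b1 b2 b3
    exact (h.mx σ' τ' b1 b2 b3).trans hge
  -- distinctness of τ (σ x)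
  have hC1' := C1' hF h hx
  have w1 : τ (σ x) ≠ σ (τ x) := by
    intro e
    apply hC1'
    rw [e]; exact hσ.adj (τ x)
  have v1 : τ (σ x) ≠ x := fun e => hx (hτ.sw1 e)
  have v2 : τ (σ x) ≠ τ x := fun e => hσ.ne x (hτ.inj e)
  have v3 : τ (σ x) ≠ σ x := hτ.ne _
  have z1 : τ (σ (τ x)) ≠ x := fun e => hσ.ne (τ x) (hτ.sw1 e)
  have z2 : τ (σ (τ x)) ≠ τ x := fun e => by
    have := hτ.inj e
    exact hx (hσ.sw1 this).symm
  have z3 : τ (σ (τ x)) ≠ σ x := fun e => w1 (hτ.sw1 e).symm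
  have z4 : τ (σ (τ x)) ≠ σ (τ x) := hτ.ne _
  have E1 : σ₁ (τ (σ x)) = σ (τ (σ x)) :=
    a7 _ v1 v2 (Up _ u5) w1 v3 (Uq _ u5)
  have E2 : σ₁ (τ (σ (τ x))) = σ (τ (σ (τ x))) :=
    a7 _ z1 z2 (Up _ u6) z4 z3 (Uq _ u6)
  refine ⟨?_, ?_, ?_, ?_⟩
  · have := C1 hF hMP (x := σ x) (by rw [a5]; exact (Uq _ u5).symm)
    rwa [a5, E1] at this
  · have := C1 hF hMP (x := σ (τ x)) (by rw [a4]; exact (Up _ u6).symm)
    rwa [a4, E2] at this
  · have := C1' hF hMP (x := σ p) (by rw [a6, ← hq, hσ.inv]; exact p2.symm)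
    rwa [a6, ← hq, hσ.inv] at this
  · have := C1' hF hMP (x := p) (by rw [a3, ← hp]; exact Uq _ u4)
    rwa [a3, ← hp] at this


/-- the set of vertices with different partners -/
def UU (σ τ : V → V) : Finset V := univ.filter (fun x => σ x ≠ τ x)

theorem mem_UU {σ τ : V → V} {x : V} : x ∈ UU σ τ ↔ σ x ≠ τ x := by
  simp [UU]

open Classical in
/-- indicator of a non-adjacent pair -/
noncomputable def hh (G : SimpleGraph V) (x y : V) : ℕ := if Gᶜ.Adj x y then 1 else 0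

theorem hh_comm (G : SimpleGraph V) (x y : V) : hh G x y = hh G y x := by
  unfold hh
  have key : Gᶜ.Adj x y ↔ Gᶜ.Adj y x := SimpleGraph.adj_comm _ _ _
  by_cases h : Gᶜ.Adj x y
  · rw [if_pos h, if_pos (key.1 h)]
  · rw [if_neg h, if_neg (fun e => h (key.2 e))]

theorem hh_one {G : SimpleGraph V} {x y : V} (h : x ≠ y) (h' : ¬ G.Adj x y) : hh G x y = 1 := by
  unfold hh
  rw [if_pos]
  rw [SimpleGraph.compl_adj]
  exact ⟨h, h'⟩

theorem hh_pos {G : SimpleGraph V} {x y : V} (h : hh G x y = 0) (hne : x ≠ y) : G.Adj x y := by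
  by_contra hc
  rw [hh_one hne hc] at h
  omega

/-- number of non-adjacent partners in `U` -/
noncomputable def dd (G : SimpleGraph V) (σ τ : V → V) (y : V) : ℕ :=
  ∑ w ∈ UU σ τ, hh G y w

theorem sum_σ (h : PM G σ) (h' : PM G τ) (f : V → ℕ) :
    ∑ x ∈ UU σ τ, f (σ x) = ∑ x ∈ UU σ τ, f x := by
  refine Finset.sum_nbij' σ σ ?_ ?_ ?_ ?_ ?_
  · intro a ha
    rw [mem_UU] at ha ⊢
    exact U_σ h h' ha
  · intro a ha
    rw [mem_UU] at ha ⊢
    exact U_σ h h' ha
  · intro a _; exact h.inv a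
  · intro a _; exact h.inv a
  · intro a _; rfl

theorem sum_τ (h : PM G σ) (h' : PM G τ) (f : V → ℕ) :
    ∑ x ∈ UU σ τ, f (τ x) = ∑ x ∈ UU σ τ, f x := by
  refine Finset.sum_nbij' τ τ ?_ ?_ ?_ ?_ ?_
  · intro a ha
    rw [mem_UU] at ha ⊢
    exact U_τ h h' ha
  · intro a ha
    rw [mem_UU] at ha ⊢
    exact U_τ h h' ha
  · intro a _; exact h'.inv a
  · intro a _; exact h'.inv a
  · intro a _; rfl

/-- pairwise distinct vertices -/
theorem distinct6 (hF : Inv G F) (h : MP G F σ τ) {x : V} (hx : σ x ≠ τ x) :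
    τ (σ x) ≠ σ (τ x) ∧ τ (σ x) ≠ x ∧ τ (σ x) ≠ τ x ∧ τ (σ x) ≠ σ x ∧
    τ (σ (τ x)) ≠ x ∧ τ (σ (τ x)) ≠ τ x ∧ τ (σ (τ x)) ≠ σ x ∧ τ (σ (τ x)) ≠ σ (τ x) ∧
    σ x ≠ x ∧ τ x ≠ x ∧ σ x ≠ τ x ∧ σ x ≠ σ (τ x) ∧ σ (τ x) ≠ x ∧ σ (τ x) ≠ τ x ∧
    τ (σ (τ x)) ≠ τ (σ x) := by
  have hσ := h.hσ
  have hτ := h.hτ
  have hC1' := C1' hF h hx
  have w1 : τ (σ x) ≠ σ (τ x) := by
    intro e
    apply hC1'
    rw [e]; exact hσ.adj (τ x)
  have v1 : τ (σ x) ≠ x := fun e => hx (hτ.sw1 e)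
  have v2 : τ (σ x) ≠ τ x := fun e => hσ.ne x (hτ.inj e)
  have v3 : τ (σ x) ≠ σ x := hτ.ne _
  have z1 : τ (σ (τ x)) ≠ x := fun e => hσ.ne (τ x) (hτ.sw1 e)
  have z2 : τ (σ (τ x)) ≠ τ x := fun e => by
    have := hτ.inj e
    exact hx (hσ.sw1 this).symm
  have z3 : τ (σ (τ x)) ≠ σ x := fun e => w1 (hτ.sw1 e).symm
  have z4 : τ (σ (τ x)) ≠ σ (τ x) := hτ.ne _
  refine ⟨w1, v1, v2, v3, z1, z2, z3, z4, hσ.ne x, hτ.ne x, hx, fun e => hτ.ne x (hσ.inj e).symm,
    fun e => hx (hσ.sw1 e).symm, hσ.ne _, fun e => hτ.ne x (hσ.inj (hτ.inj e))⟩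

theorem six_le (hF : Inv G F) (h : MP G F σ τ) : 6 ≤ (UU σ τ).card := by
  have hσ := h.hσ
  have hτ := h.hτ
  have hex : ∃ x, σ x ≠ τ x := by
    by_contra hc
    push Not at hc
    exact h.ne (by rw [funext hc])
  obtain ⟨x, hx⟩ := hex
  obtain ⟨d1, d2, d3, d4, d5, d6, d7, d8, d9, d10, d11, d12, d13, d14, d15⟩ := distinct6 hF h hx
  have u3 := U_τ hσ hτ hx
  have u4 := U_σ hσ hτ u3
  have hsub : ({x, σ x, τ x, σ (τ x), τ (σ x), τ (σ (τ x))} : Finset V) ⊆ UU σ τ := by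
    intro y hy
    simp only [mem_insert, mem_singleton] at hy
    rw [mem_UU]
    rcases hy with rfl | rfl | rfl | rfl | rfl | rfl
    · exact hx
    · exact U_σ hσ hτ hx
    · exact u3
    · exact u4
    · exact U_τ hσ hτ (U_σ hσ hτ hx)
    · exact U_τ hσ hτ u4
  have hc : ({x, σ x, τ x, σ (τ x), τ (σ x), τ (σ (τ x))} : Finset V).card = 6 := by
    rw [card_insert_of_notMem, card_insert_of_notMem, card_insert_of_notMem,
      card_insert_of_notMem, card_pair d15.symm]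
    · simp only [mem_insert, mem_singleton, not_or]
      exact ⟨d1.symm, d8.symm⟩
    · simp only [mem_insert, mem_singleton, not_or]
      exact ⟨d14.symm, d3.symm, d6.symm⟩
    · simp only [mem_insert, mem_singleton, not_or]
      exact ⟨d11, d12, d4.symm, d7.symm⟩
    · simp only [mem_insert, mem_singleton, not_or]
      exact ⟨d9.symm, d10.symm, d13.symm, d2.symm, d5.symm⟩
  rw [← hc]
  exact card_le_card hsub

theorem even_U (h : MP G F σ τ) : Even (UU σ τ).card := by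
  have hσ := h.hσ
  have hτ := h.hτ
  have h0 : ∑ x ∈ UU σ τ, (1 : ZMod 2) = 0 := by
    refine Finset.sum_involution (fun a _ => σ a) ?_ ?_ ?_ ?_
    · intro a _; decide
    · intro a _ _; exact hσ.ne a
    · intro a ha; rw [mem_UU] at ha ⊢; exact U_σ hσ hτ ha
    · intro a _; exact hσ.inv a
  rw [Finset.sum_const, nsmul_eq_mul, mul_one] at h0
  rw [even_iff_two_dvd]
  exact (ZMod.natCast_eq_zero_iff _ _).1 h0

theorem two_le_dd {σ τ : V → V} {y a b : V} (ha : σ a ≠ τ a) (hb : σ b ≠ τ b) (hab : a ≠ b)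
    (h1 : hh G y a = 1) (h2 : hh G y b = 1) : 2 ≤ dd G σ τ y := by
  have hs : ({a, b} : Finset V) ⊆ UU σ τ := by
    intro z hz
    rw [mem_insert, mem_singleton] at hz
    rw [mem_UU]
    rcases hz with rfl | rfl
    · exact ha
    · exact hb
  have := Finset.sum_le_sum_of_subset (f := fun w => hh G y w) hs
  rw [Finset.sum_pair hab] at this
  unfold dd
  omega

theorem K1' (hH : S_hex) (hF : Inv G F) (h : MP G F σ τ) {x p : V} (hx : σ x ≠ τ x)
    (hp : σ p = τ p) (e1 : G.Adj x p) (e2 : G.Adj (σ x) (σ p)) (e3 : G.Adj (σ (τ x)) p) :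
    4 ≤ dd G σ τ p + dd G σ τ (σ p) := by
  classical
  have hσ := h.hσ
  have hτ := h.hτ
  have hq : σ (σ p) = τ (σ p) := by rw [hσ.inv, hp, hτ.inv]
  have Up : ∀ y, σ y ≠ τ y → p ≠ y := by rintro y hy rfl; exact hy hp
  have Uq : ∀ y, σ y ≠ τ y → σ p ≠ y := by rintro y hy rfl; exact hy hq
  obtain ⟨d1, d2, d3, d4, d5, d6, d7, d8, d9, d10, d11, d12, d13, d14, d15⟩ := distinct6 hF h hx
  have u1 := hx
  have u2 : σ (σ x) ≠ τ (σ x) := U_σ hσ hτ hx
  have u3 : σ (τ x) ≠ τ (τ x) := U_τ hσ hτ hx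
  have u4 : σ (σ (τ x)) ≠ τ (σ (τ x)) := U_σ hσ hτ u3
  have u5 : σ (τ (σ x)) ≠ τ (τ (σ x)) := U_τ hσ hτ u2
  have u6 : σ (τ (σ (τ x))) ≠ τ (τ (σ (τ x))) := U_τ hσ hτ u4
  have u7 : σ (σ (τ (σ x))) ≠ τ (σ (τ (σ x))) := U_σ hσ hτ u5
  have u8 : σ (σ (τ (σ (τ x)))) ≠ τ (σ (τ (σ (τ x)))) := U_σ hσ hτ u6
  obtain ⟨n1, n2, n3, n4⟩ := C3 hF h hx hp e1 e2 e3
  by_cases hcase : σ (τ (σ x)) = τ (σ (τ x))
  · -- the hexagon
    set c : Fin 6 → V := ![σ x, x, τ x, σ (τ x), τ (σ (τ x)), τ (σ x)] with hc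
    set sg : Fin 6 → Fin 6 := ![1, 0, 3, 2, 5, 4] with hsg
    set ta : Fin 6 → Fin 6 := ![5, 2, 1, 4, 3, 0] with hta
    have cs : ∀ i, σ (c i) = c (sg i) := by
      intro i
      fin_cases i
      · exact hσ.inv x
      · rfl
      · rfl
      · exact hσ.inv _
      · show σ (τ (σ (τ x))) = τ (σ x)
        rw [← hcase, hσ.inv]
      · exact hcase
    have ct : ∀ i, τ (c i) = c (ta i) := by
      intro i
      fin_cases i
      · rfl
      · rfl
      · exact hτ.inv x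
      · rfl
      · exact hτ.inv _
      · exact hτ.inv _
    have cU : ∀ i, σ (c i) ≠ τ (c i) := by
      intro i
      fin_cases i
      · exact u2
      · exact u1
      · exact u3
      · exact u4
      · exact u6
      · exact u5
    have cinj : Function.Injective c := by
      have key : ∀ i j : Fin 6, i < j → c i ≠ c j := by
        intro i j hij
        fin_cases i <;> fin_cases j <;>
          first
          | exact absurd hij (by decide)
          | exact d9
          | exact d11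
          | exact d12
          | exact d7.symm
          | exact d4.symm
          | exact d10.symm
          | exact d13.symm
          | exact d5.symm
          | exact d2.symm
          | exact d14.symm
          | exact d6.symm
          | exact d3.symm
          | exact d8.symm
          | exact d1.symm
          | exact d15
      intro i j hij
      rcases lt_trichotomy i j with hl | he | hg
      · exact absurd hij (key i j hl)
      · exact he
      · exact absurd hij.symm (key j i hg)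
    have hex := hH (fun i => decide (hh G p (c i) = 1)) (fun i => decide (hh G (σ p) (c i) = 1)) ?_
    · have b1 : (univ.filter (fun i => decide (hh G p (c i) = 1) = true)).card ≤ dd G σ τ p := by
        have : ∑ i ∈ univ.filter (fun i => decide (hh G p (c i) = 1) = true), hh G p (c i) =
            (univ.filter (fun i => decide (hh G p (c i) = 1) = true)).card := by
          rw [Finset.card_eq_sum_ones]
          apply Finset.sum_congr rfl
          intro i hi
          rw [mem_filter, decide_eq_true_eq] at hi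
          exact hi.2
        rw [← this]
        rw [← Finset.sum_image (f := fun w => hh G p w) (g := c) (fun i _ j _ e => cinj e)]
        apply Finset.sum_le_sum_of_subset
        intro y hy
        rw [mem_image] at hy
        obtain ⟨i, -, rfl⟩ := hy
        rw [mem_UU]
        exact cU i
      have b2 : (univ.filter (fun i => decide (hh G (σ p) (c i) = 1) = true)).card ≤
          dd G σ τ (σ p) := by
        have : ∑ i ∈ univ.filter (fun i => decide (hh G (σ p) (c i) = 1) = true),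
            hh G (σ p) (c i) =
            (univ.filter (fun i => decide (hh G (σ p) (c i) = 1) = true)).card := by
          rw [Finset.card_eq_sum_ones]
          apply Finset.sum_congr rfl
          intro i hi
          rw [mem_filter, decide_eq_true_eq] at hi
          exact hi.2
        rw [← this]
        rw [← Finset.sum_image (f := fun w => hh G (σ p) w) (g := c) (fun i _ j _ e => cinj e)]
        apply Finset.sum_le_sum_of_subset
        intro y hy
        rw [mem_image] at hy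
        obtain ⟨i, -, rfl⟩ := hy
        rw [mem_UU]
        exact cU i
      omega
    · have gen : ∀ r, σ r = τ r → ∀ i, ¬ hh G r (c i) = 1 → ¬ hh G (σ r) (c (sg i)) = 1 →
          ¬ hh G r (c (sg (ta i))) = 1 → hh G (σ r) (c (sg (ta (sg i)))) = 1 ∧
          hh G r (c (ta (sg i))) = 1 := by
        intro r hr i g1 g2 g3
        have hr' : σ (σ r) = τ (σ r) := by rw [hσ.inv, hr, hτ.inv]
        have Ur : ∀ y, σ y ≠ τ y → r ≠ y := by rintro y hy rfl; exact hy hr
        have Ur' : ∀ y, σ y ≠ τ y → σ r ≠ y := by rintro y hy rfl; exact hy hr'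
        have f1 : G.Adj (c i) r := by
          by_contra hcc
          exact g1 (hh_one (Ur _ (cU i)) (fun e => hcc e.symm))
        have f2 : G.Adj (σ (c i)) (σ r) := by
          by_contra hcc
          rw [cs] at hcc
          exact g2 (hh_one (Ur' _ (cU _)) (fun e => hcc e.symm))
        have f3 : G.Adj (σ (τ (c i))) r := by
          by_contra hcc
          rw [ct, cs] at hcc
          exact g3 (hh_one (Ur _ (cU _)) (fun e => hcc e.symm))
        obtain ⟨m1, m2, m3, m4⟩ := C3 hF h (cU i) hr f1 f2 f3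
        rw [cs, ct, cs] at m1
        rw [cs, ct] at m3
        exact ⟨hh_one (Ur' _ (cU _)) m1, hh_one (Ur _ (cU _)) m3⟩
      intro i b
      cases b
      · have hg := gen (σ p) hq i
        rw [hσ.inv] at hg
        simp only [Bool.false_eq_true, if_false, decide_eq_false_iff_not, decide_eq_true_eq]
        exact hg
      · have hg := gen p hp i
        simp only [if_true, decide_eq_false_iff_not, decide_eq_true_eq]
        exact hg
  · have a1 : 2 ≤ dd G σ τ p := by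
      refine two_le_dd (a := σ (τ (σ (τ x)))) (b := τ (σ x)) u8 u5 ?_ (hh_one (Up _ u8) n2)
        (hh_one (Up _ u5) n3)
      intro e
      exact hcase (hσ.sw1 e).symm
    have a2 : 2 ≤ dd G σ τ (σ p) := by
      refine two_le_dd (a := σ (τ (σ x))) (b := τ (σ (τ x))) u7 u6 hcase (hh_one (Uq _ u7) n1)
        (hh_one (Uq _ u6) n4)
    omega

theorem K1 (hH : S_hex) (hF : Inv G F) (h : MP G F σ τ) {p : V} (hp : σ p = τ p) :
    4 ≤ dd G σ τ p + dd G σ τ (σ p) := by
  have hσ := h.hσ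
  have hτ := h.hτ
  have hq : σ (σ p) = τ (σ p) := by rw [hσ.inv, hp, hτ.inv]
  have h6 := six_le hF h
  have gen : ∀ r, σ r = τ r → 4 ≤ dd G σ τ r + dd G σ τ (σ r) ∨
      (UU σ τ).card ≤ 2 * dd G σ τ r + dd G σ τ (σ r) := by
    intro r hr
    have hr' : σ (σ r) = τ (σ r) := by rw [hσ.inv, hr, hτ.inv]
    have Ur : ∀ y, σ y ≠ τ y → y ≠ r := by rintro y hy rfl; exact hy hr
    have Ur' : ∀ y, σ y ≠ τ y → y ≠ σ r := by rintro y hy rfl; exact hy hr'
    by_cases hall : ∀ x ∈ UU σ τ, 1 ≤ hh G r x + hh G (σ r) (σ x) + hh G r (σ (τ x))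
    · right
      have s1 : ∑ x ∈ UU σ τ, 1 ≤
          ∑ x ∈ UU σ τ, (hh G r x + hh G (σ r) (σ x) + hh G r (σ (τ x))) :=
        Finset.sum_le_sum hall
      rw [Finset.sum_add_distrib, Finset.sum_add_distrib,
        sum_σ hσ hτ (fun w => hh G (σ r) w),
        sum_τ hσ hτ (fun w => hh G r (σ w)), sum_σ hσ hτ (fun w => hh G r w),
        ← Finset.card_eq_sum_ones] at s1
      unfold dd
      omega
    · left
      push Not at hall
      obtain ⟨x, hx, hlt⟩ := hall
      rw [mem_UU] at hx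
      have u2 : σ (σ x) ≠ τ (σ x) := U_σ hσ hτ hx
      have u3 : σ (τ x) ≠ τ (τ x) := U_τ hσ hτ hx
      have u4 : σ (σ (τ x)) ≠ τ (σ (τ x)) := U_σ hσ hτ u3
      refine K1' hH hF h hx hr ?_ ?_ ?_
      · exact (hh_pos (by omega) (Ur _ hx).symm).symm
      · exact (hh_pos (by omega) (Ur' _ u2).symm).symm
      · exact (hh_pos (by omega) (Ur _ u4).symm).symm
  rcases gen p hp with h1 | h1
  · exact h1
  rcases gen (σ p) hq with h2 | h2
  · rw [hσ.inv] at h2; omega
  rw [hσ.inv] at h2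
  omega

theorem K2 (hF : Inv G F) (h : MP G F σ τ) {x : V} (hx : σ x ≠ τ x) :
    (UU σ τ).card ≤ dd G σ τ x + dd G σ τ (σ x) + dd G σ τ (σ (τ x)) + 2 := by
  have hσ := h.hσ
  have hτ := h.hτ
  obtain ⟨d1, d2, d3, d4, d5, d6, d7, d8, d9, d10, d11, d12, d13, d14, d15⟩ := distinct6 hF h hx
  have u2 : σ (σ x) ≠ τ (σ x) := U_σ hσ hτ hx
  have u3 : σ (τ x) ≠ τ (τ x) := U_τ hσ hτ hx
  have u4 : σ (σ (τ x)) ≠ τ (σ (τ x)) := U_σ hσ hτ u3
  set E : Finset V := {x, σ x, τ x, σ (τ x)} with hE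
  have hEc : E.card = 4 := by
    rw [hE, card_insert_of_notMem, card_insert_of_notMem, card_pair d14.symm]
    · simp only [mem_insert, mem_singleton, not_or]
      exact ⟨d11, d12⟩
    · simp only [mem_insert, mem_singleton, not_or]
      exact ⟨d9.symm, d10.symm, d13.symm⟩
  have hEU : E ⊆ UU σ τ := by
    intro y hy
    rw [hE] at hy
    simp only [mem_insert, mem_singleton] at hy
    rw [mem_UU]
    rcases hy with rfl | rfl | rfl | rfl
    · exact hx
    · exact u2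
    · exact u3
    · exact u4
  have hcard : (UU σ τ \ E).card + 4 = (UU σ τ).card := by
    rw [← hEc]; exact Finset.card_sdiff_add_card_eq_card hEU
  have hone : ∀ p ∈ UU σ τ \ E, 1 ≤ hh G x p + hh G (σ x) (σ p) + hh G (σ (τ x)) p := by
    intro p hp
    rw [mem_sdiff, mem_UU, hE] at hp
    simp only [mem_insert, mem_singleton, not_or] at hp
    obtain ⟨hpU, p1, p2, p3, p4⟩ := hp
    by_contra hlt
    refine C2 hF h hx hpU p1 p2 p3 p4 (hh_pos (by omega) (Ne.symm p1))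
      (hh_pos (by omega) ?_) (hh_pos (by omega) (Ne.symm p4))
    intro e
    exact p1 (hσ.inj e).symm
  have hsum := Finset.sum_le_sum hone
  rw [Finset.sum_add_distrib, Finset.sum_add_distrib, ← Finset.card_eq_sum_ones] at hsum
  have r1 : ∑ p ∈ UU σ τ \ E, hh G x p ≤ dd G σ τ x :=
    Finset.sum_le_sum_of_subset sdiff_subset
  have r2 : ∑ p ∈ UU σ τ \ E, hh G (σ x) (σ p) + 1 ≤ dd G σ τ (σ x) := by
    unfold dd
    rw [← sum_σ hσ hτ (fun w => hh G (σ x) w)]
    have hn : τ x ∉ UU σ τ \ E := by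
      rw [mem_sdiff, hE]; simp
    have hs : insert (τ x) (UU σ τ \ E) ⊆ UU σ τ := by
      intro y hy
      rw [mem_insert] at hy
      rcases hy with rfl | hy
      · rw [mem_UU]; exact u3
      · exact (mem_sdiff.1 hy).1
    have := Finset.sum_le_sum_of_subset (f := fun p => hh G (σ x) (σ p)) hs
    rw [Finset.sum_insert hn, hh_one d12 (C1 hF h hx)] at this
    omega
  have r3 : ∑ p ∈ UU σ τ \ E, hh G (σ (τ x)) p + 1 ≤ dd G σ τ (σ (τ x)) := by
    unfold dd
    have hn : σ x ∉ UU σ τ \ E := by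
      rw [mem_sdiff, hE]; simp
    have hs : insert (σ x) (UU σ τ \ E) ⊆ UU σ τ := by
      intro y hy
      rw [mem_insert] at hy
      rcases hy with rfl | hy
      · rw [mem_UU]; exact u2
      · exact (mem_sdiff.1 hy).1
    have := Finset.sum_le_sum_of_subset (f := fun p => hh G (σ (τ x)) p) hs
    rw [Finset.sum_insert hn, hh_one d12.symm (fun e => C1 hF h hx e.symm)] at this
    omega
  omega

theorem sum_deg (G : SimpleGraph V) : 2 * mis G = ∑ y, ∑ w, hh G y w := by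
  classical
  have h1 := SimpleGraph.sum_degrees_eq_twice_card_edges (G := Gᶜ)
  have h2 : mis G = (Gᶜ).edgeFinset.card := by
    unfold mis
    rw [← SimpleGraph.coe_edgeFinset, Set.ncard_coe_finset]
  rw [h2, ← h1]
  apply Finset.sum_congr rfl
  intro y _
  rw [← SimpleGraph.card_neighborFinset_eq_degree, SimpleGraph.neighborFinset_eq_filter,
    Finset.card_filter]
  apply Finset.sum_congr rfl
  intro w _
  unfold hh
  congr

theorem core (hH : S_hex) (hF : Inv G F) (h : MP G F σ τ) {L : ℕ}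
    (hV : Fintype.card V = 2 * L) : 4 * L ≤ mis G + 8 := by
  have hσ := h.hσ
  have hτ := h.hτ
  set U := UU σ τ with hU
  set X := ∑ y ∈ U, dd G σ τ y with hX
  set Y := ∑ y ∈ Uᶜ, dd G σ τ y with hY
  have h2 : X + 2 * Y ≤ 2 * mis G := by
    rw [sum_deg]
    rw [← Finset.sum_add_sum_compl U (fun y => ∑ w, hh G y w)]
    have b1 : ∑ y ∈ U, ∑ w, hh G y w = X + Y := by
      have : ∀ y, ∑ w, hh G y w = dd G σ τ y + ∑ w ∈ Uᶜ, hh G y w := by
        intro y
        rw [← Finset.sum_add_sum_compl U (fun w => hh G y w)]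
        rfl
      rw [Finset.sum_congr rfl (fun y _ => this y), Finset.sum_add_distrib, Finset.sum_comm]
      congr 1
      apply Finset.sum_congr rfl
      intro w _
      unfold dd
      apply Finset.sum_congr rfl
      intro y _
      exact hh_comm G y w
    have b2 : Y ≤ ∑ y ∈ Uᶜ, ∑ w, hh G y w := by
      apply Finset.sum_le_sum
      intro y _
      exact Finset.sum_le_sum_of_subset (Finset.subset_univ _)
    rw [b1]
    omega
  have h3 : U.card * U.card ≤ 3 * X + 2 * U.card := by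
    have s1 : ∑ x ∈ U, U.card ≤
        ∑ x ∈ U, (dd G σ τ x + dd G σ τ (σ x) + dd G σ τ (σ (τ x)) + 2) := by
      apply Finset.sum_le_sum
      intro x hx
      exact K2 hF h (mem_UU.1 hx)
    rw [Finset.sum_const, smul_eq_mul, Finset.sum_add_distrib, Finset.sum_add_distrib,
      Finset.sum_add_distrib, Finset.sum_const, smul_eq_mul] at s1
    have e1 : ∑ x ∈ U, dd G σ τ (σ x) = X := sum_σ hσ hτ (fun w => dd G σ τ w)
    have e2 : ∑ x ∈ U, dd G σ τ (σ (τ x)) = X :=
      (sum_τ hσ hτ (fun w => dd G σ τ (σ w))).trans e1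
    rw [e1, e2] at s1
    omega
  have h4 : 4 * (Uᶜ).card ≤ 2 * Y := by
    have s1 : ∑ x ∈ Uᶜ, 4 ≤ ∑ x ∈ Uᶜ, (dd G σ τ x + dd G σ τ (σ x)) := by
      apply Finset.sum_le_sum
      intro x hx
      refine K1 hH hF h ?_
      rw [mem_compl, hU, mem_UU] at hx
      exact not_not.1 hx
    have s2 : ∑ x ∈ Uᶜ, dd G σ τ (σ x) = ∑ x ∈ Uᶜ, dd G σ τ x := by
      have hmem : ∀ a ∈ Uᶜ, σ a ∈ Uᶜ := by
        intro a ha
        rw [mem_compl, hU, mem_UU, not_not] at ha ⊢
        rw [hσ.inv, ha, hτ.inv]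
      refine Finset.sum_nbij' σ σ hmem hmem ?_ ?_ ?_
      · intro a _; exact hσ.inv a
      · intro a _; exact hσ.inv a
      · intro a _; rfl
    rw [Finset.sum_const, smul_eq_mul, Finset.sum_add_distrib, s2] at s1
    omega
  have h5 : U.card + (Uᶜ).card = 2 * L := by
    rw [← hV]; exact Finset.card_add_card_compl U
  have h6 : 6 ≤ U.card := six_le hF h
  obtain ⟨k, hk⟩ := even_U h
  rw [← hU] at hk
  have hk3 : 3 ≤ k := by omega
  obtain ⟨j, rfl⟩ := Nat.exists_eq_add_of_le hk3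
  rw [hk] at h3 h5
  have hj : j * j ≥ j := Nat.le_mul_self j
  nlinarith

end Core

theorem exists_MP {G : SimpleGraph V} {α : Type} {F : (V → V) → α}
    (hne : ∃ σ τ, PM G σ ∧ PM G τ ∧ F σ ≠ F τ) : ∃ σ τ, MP G F σ τ := by
  classical
  obtain ⟨σ₀, τ₀, h1, h2, h3⟩ := hne
  let S : Finset ((V → V) × (V → V)) :=
    univ.filter (fun s => PM G s.1 ∧ PM G s.2 ∧ F s.1 ≠ F s.2)
  obtain ⟨s, hs, hmax⟩ := S.exists_max_image (fun s => agr s.1 s.2)
    ⟨(σ₀, τ₀), by simp only [S, mem_filter, mem_univ, true_and]; exact ⟨h1, h2, h3⟩⟩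
  simp only [S, mem_filter, mem_univ, true_and] at hs
  refine ⟨s.1, s.2, hs.1, hs.2.1, hs.2.2, ?_⟩
  intro σ' τ' a1 a2 a3
  exact hmax (σ', τ') (by simp only [S, mem_filter, mem_univ, true_and]; exact ⟨a1, a2, a3⟩)

theorem t_conn3 (hH : S_hex) : S_conn3 := by
  intro V _ _ G L α P hV hP hmis M M' hM hM' hc hc'
  by_contra hne
  obtain ⟨σ₀, hσ₀, rfl⟩ := exists_PM hV hM hc
  obtain ⟨τ₀, hτ₀, rfl⟩ := exists_PM hV hM' hc'
  have hcard : ∀ σ, PM G σ → (Ms σ).card = L := by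
    intro σ hσ
    have := Ms_card hσ
    omega
  have hF : Inv G (fun σ => P (Ms σ)) := by
    intro σ a b hσ hab hb e1 e2
    have hσ' := PM_sw hσ hab hb e1 e2
    obtain ⟨s1, s2⟩ := Ms_sdiff hσ hab hb e1 e2
    exact hP _ _ (Ms_IsM hσ') (Ms_IsM hσ) (hcard _ hσ') (hcard _ hσ) s2 s1
  obtain ⟨σ, τ, hMP⟩ := exists_MP (F := fun σ => P (Ms σ)) ⟨σ₀, τ₀, hσ₀, hτ₀, hne⟩
  have := core hH hF hMP hV
  omega

end Pool.Agent.H133.ZM.C3
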