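import Pool.Agent.H133.ZM.Stm2

set_option autoImplicit false

/-!
Project ZM2 (helper133), piece `S_Epair`: the sorted pairing.
-/

namespace Pool.Agent.H133.ZM.E1

open Finset
open Pool.Agent.H133.ZM

theorem alt_sum (x : ℕ → ℕ) (hx : Monotone x) (n : ℕ) :
    ∑ i ∈ range n, x (2 * i + 1) ≤ ∑ i ∈ range n, x (2 * i) + x (2 * n) := by
  induction n with
  | zero => simp
  | succ n ih =>
    rw [sum_range_succ, sum_range_succ]
    have : x (2 * n + 1) ≤ x (2 * (n + 1)) := hx (by omega)
    omega

theorem t_Epair : S_Epair := by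
  intro V _ _ f y k hV
  classical
  -- enumerate the elements other than `y`
  have hc : Fintype.card {v : V // v ≠ y} = 2 * k := by
    rw [Fintype.card_subtype_compl]
    simp only [Fintype.card_subtype_eq]
    omega
  let e0 : Fin (2 * k) ≃ {v : V // v ≠ y} := (Fintype.equivFinOfCardEq hc).symm
  let σ := Tuple.sort (fun i => f (e0 i).1)
  have hmono : Monotone ((fun i => f (e0 i).1) ∘ σ) := Tuple.monotone_sort _
  let g : Fin (2 * k) → V := fun i => (e0 (σ i)).1
  have hginj : Function.Injective g := by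
    intro a b hab
    exact σ.injective (e0.injective (Subtype.ext hab))
  have hgy : ∀ i, g i ≠ y := fun i => (e0 (σ i)).2
  have hgm : ∀ i j : Fin (2 * k), i ≤ j → f (g i) ≤ f (g j) := fun i j hij => hmono hij
  have hlt : ∀ (i : Fin k) (b : Bool), 2 * i.1 + (if b then 1 else 0) < 2 * k := by
    intro i b
    have := i.2
    split_ifs <;> omega
  refine ⟨fun x => g ⟨2 * x.1.1 + (if x.2 then 1 else 0), hlt x.1 x.2⟩, ?_, fun x => hgy _, ?_⟩
  · rintro ⟨i, b⟩ ⟨j, c⟩ h
    have h1 := hginj h
    simp only [Fin.mk.injEq] at h1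
    have hi : i = j ∧ b = c := by
      cases b <;> cases c <;> simp at h1 ⊢ <;> first | (apply Fin.ext; omega) | omega
    rw [hi.1, hi.2]
  · intro ε d hd
    set x : ℕ → ℕ := fun j => if h : j < 2 * k then f (g ⟨j, h⟩) else d with hxdef
    have hxm : Monotone x := by
      intro i j hij
      simp only [hxdef]
      by_cases hj : j < 2 * k
      · rw [dif_pos hj, dif_pos (lt_of_le_of_lt hij hj)]
        exact hgm _ _ hij
      · rw [dif_neg hj]
        by_cases hi : i < 2 * k
        · rw [dif_pos hi]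
          exact hd _ (hgy _)
        · rw [dif_neg hi]
    have hxv : ∀ (j : ℕ) (h : j < 2 * k), x j = f (g ⟨j, h⟩) := by
      intro j h
      simp only [hxdef]
      rw [dif_pos h]
    have hxd : x (2 * k) = d := by
      simp only [hxdef]
      rw [dif_neg (lt_irrefl _)]
    have halt := alt_sum x hxm k
    rw [hxd] at halt
    rw [Finset.sum_range, Finset.sum_range] at halt
    have key : ∀ i : Fin k, f (g ⟨2 * i.1 + (if ε i then 1 else 0), hlt i (ε i)⟩) + x (2 * i.1) ≤
        f (g ⟨2 * i.1 + (if (!ε i) then 1 else 0), hlt i (!ε i)⟩) + x (2 * i.1 + 1) := by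
      intro i
      rw [← hxv, ← hxv]
      have h1 : x (2 * i.1) ≤ x (2 * i.1 + 1) := hxm (by omega)
      cases hε : ε i
      · simp
        omega
      · simp
        omega
    have hsum := Finset.sum_le_sum (fun i (_ : i ∈ (univ : Finset (Fin k))) => key i)
    rw [Finset.sum_add_distrib, Finset.sum_add_distrib] at hsum
    show ∑ i, f (g ⟨2 * i.1 + (if ε i then 1 else 0), hlt i (ε i)⟩) ≤
        (∑ i, f (g ⟨2 * i.1 + (if (!ε i) then 1 else 0), hlt i (!ε i)⟩)) + d
    omega

end Pool.Agent.H133.ZM.E1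

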