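import Pool.Agent.H133.ZM.Stm2

set_option autoImplicit false

/-!
Project ZM2 (helper133), piece `S_Eswap`: the type is constant under swapping one pair.
-/

namespace Pool.Agent.H133.ZM.E1

open Finset
open Pool.Agent.H133.ZM

theorem t_Eswap : S_Eswap := by
  intro V _ _ k y p gd τ hp hy htau tr ε j hgood
  classical
  set ε' : Fin k → Bool := Function.update ε j (!ε j) with hε'
  -- the sets `A_ε`, `A_{¬ε}`, `A_{ε'}`, `A_{¬ε'}`
  set A : (Fin k → Bool) → Finset V := fun η => univ.image (fun i => p (i, η i)) with hA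
  have hAcard : ∀ η, (A η).card = k := by
    intro η
    rw [hA]
    simp only
    rw [card_image_of_injective, card_univ, Fintype.card_fin]
    intro a b hab
    have := hp hab
    exact (Prod.mk.inj this).1
  have hmem : ∀ η v, v ∈ A η ↔ ∃ i, p (i, η i) = v := by
    intro η v
    simp [hA]
  have hyA : ∀ η, y ∉ A η := by
    intro η h
    obtain ⟨i, hi⟩ := (hmem _ _).1 h
    exact hy _ hi
  have hdis : ∀ η : Fin k → Bool, Disjoint (A η) (A (fun i => !η i)) := by
    intro η
    rw [Finset.disjoint_left]
    intro v h1 h2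
    obtain ⟨i, hi⟩ := (hmem _ _).1 h1
    obtain ⟨i', hi'⟩ := (hmem _ _).1 h2
    have := hp (hi.trans hi'.symm)
    have h3 := Prod.mk.inj this
    obtain ⟨h4, h5⟩ := h3
    subst h4
    cases h6 : η i <;> simp [h6] at h5
  have hne : ∀ η : Fin k → Bool, τ (A η) ≠ τ (A (fun i => !η i)) := fun η =>
    htau _ _ (hAcard _) (hAcard _) (hdis η) (tr _) (tr _)
  -- a set `insert y (A_η minus p (j, η j))`
  have hX : ∀ η : Fin k → Bool,
      (insert y ((univ.erase j).image (fun i => p (i, η i)))).card = k := by
    intro η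
    have hyn : y ∉ (univ.erase j).image (fun i => p (i, η i)) := by
      intro h
      obtain ⟨i, -, hi⟩ := mem_image.1 h
      exact hy _ hi
    rw [card_insert_of_notMem hyn, card_image_of_injective, card_erase_of_mem (mem_univ j),
      card_univ, Fintype.card_fin]
    · have := j.2
      omega
    · intro a b hab
      have := hp hab
      exact (Prod.mk.inj this).1
  have hXd : ∀ η θ : Fin k → Bool, (∀ i, i ≠ j → θ i = !η i) →
      Disjoint (insert y ((univ.erase j).image (fun i => p (i, η i)))) (A θ) := by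
    intro η θ hθ
    rw [Finset.disjoint_left]
    intro v h1 h2
    rw [mem_insert] at h1
    rcases h1 with h1 | h1
    · rw [h1] at h2
      exact hyA _ h2
    · obtain ⟨i, hi, hi2⟩ := mem_image.1 h1
      obtain ⟨i', hi'⟩ := (hmem _ _).1 h2
      have hij : i ≠ j := (mem_erase.1 hi).1
      have h3 := Prod.mk.inj (hp (hi2.trans hi'.symm))
      obtain ⟨h4, h5⟩ := h3
      subst h4
      rw [hθ i hij] at h5
      cases h6 : η i <;> simp [h6] at h5
  have hXne : ∀ η θ : Fin k → Bool, (∀ i, i ≠ j → θ i = !η i) →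
      gd (insert y ((univ.erase j).image (fun i => p (i, η i)))) →
      τ (insert y ((univ.erase j).image (fun i => p (i, η i)))) ≠ τ (A θ) := fun η θ hθ hg =>
    htau _ _ (hX _) (hAcard _) (hXd η θ hθ) hg (tr _)
  have bool2 : ∀ a b c : Bool, a ≠ b → a ≠ c → b = c := by decide
  show τ (A ε) = τ (A ε')
  rcases hgood with hg | hg
  · have h1 := hXne ε (fun i => !ε i) (fun i _ => rfl) hg
    have h2 := hXne ε (fun i => !ε' i) (fun i hi => by
      rw [hε', Function.update_of_ne hi]) hg
    have h3 : τ (A (fun i => !ε i)) = τ (A (fun i => !ε' i)) := bool2 _ _ _ h1 h2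
    have h4 := hne ε
    have h5 := hne ε'
    rw [← h3] at h5
    exact bool2 _ _ _ h4.symm h5.symm
  · have h1 := hXne (fun i => !ε i) ε (fun i _ => by simp) hg
    have h2 := hXne (fun i => !ε i) ε' (fun i hi => by
      rw [hε', Function.update_of_ne hi]; simp) hg
    exact bool2 _ _ _ h1 h2

end Pool.Agent.H133.ZM.E1

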