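import Pool.Agent.H133.ZM.Stm2

set_option autoImplicit false

/-! Project ZM2 (helper133): walk argument. -/

namespace Pool.Agent.H133.ZM.Ew

open Finset Pool.Agent.H133.ZM

variable {V : Type}

theorem card_tr [DecidableEq V] {k : ℕ} (p : Fin k × Bool → V) (hp : Function.Injective p)
    (ε : Fin k → Bool) : (univ.image (fun i => p (i, ε i))).card = k := by
  rw [card_image_of_injective]
  · simp
  · intro i j h
    have := hp h
    simp only [Prod.mk.injEq] at this
    exact this.1

theorem disj_tr [DecidableEq V] {k : ℕ} (p : Fin k × Bool → V) (hp : Function.Injective p)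
    (ε : Fin k → Bool) :
    Disjoint (univ.image (fun i => p (i, ε i))) (univ.image (fun i => p (i, !ε i))) := by
  rw [Finset.disjoint_left]
  intro v hv hv'
  simp only [mem_image, mem_univ, true_and] at hv hv'
  obtain ⟨i, hi⟩ := hv
  obtain ⟨j, hj⟩ := hv'
  have h := hp (hi.trans hj.symm)
  simp only [Prod.mk.injEq] at h
  obtain ⟨rfl, h⟩ := h
  cases h1 : ε i <;> simp [h1] at h

theorem eI_eq (D : SimpleGraph V) (E : Finset (Sym2 V)) (hE : ∀ e, e ∈ E ↔ e ∈ D.edgeSet)
    (S : Finset V) [DecidablePred (fun e : Sym2 V => ∀ v ∈ e, v ∈ S)] :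
    eI D S = (E.filter (fun e => ∀ v ∈ e, v ∈ S)).card := by
  unfold eI
  rw [← Set.ncard_coe_finset]
  congr 1
  ext e
  simp [hE]

theorem star [DecidableEq V] (D : SimpleGraph V) (E : Finset (Sym2 V)) (hE : ∀ e, e ∈ E ↔ e ∈ D.edgeSet)
    (q : ℕ) (hq : E.card ≤ 2 * q) (X Y : Finset V) (y : V) (hXY : ∀ v, v ∈ X → v ∈ Y → v = y)
    (h : E.card < 2 * q ∨ ∃ e ∈ E, (¬ ∀ v ∈ e, v ∈ X) ∧ (¬ ∀ v ∈ e, v ∈ Y)) :
    eI D X < q ∨ eI D Y < q := by
  classical
  by_contra hc
  push Not at hc
  obtain ⟨c1, c2⟩ := hc
  rw [eI_eq D E hE] at c1 c2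
  have hd : Disjoint (E.filter (fun e => ∀ v ∈ e, v ∈ X)) (E.filter (fun e => ∀ v ∈ e, v ∈ Y)) := by
    rw [Finset.disjoint_left]
    intro e h1 h2
    simp only [mem_filter] at h1 h2
    obtain ⟨h0, h1⟩ := h1
    obtain ⟨-, h2⟩ := h2
    rw [hE] at h0
    induction e using Sym2.ind with
    | _ u w =>
      have hu := hXY u (h1 u (by simp)) (h2 u (by simp))
      have hw := hXY w (h1 w (by simp)) (h2 w (by simp))
      rw [SimpleGraph.mem_edgeSet] at h0
      exact h0.ne (hu.trans hw.symm)
  have hcu := card_union_of_disjoint hd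
  rcases h with h | ⟨e, he, h1, h2⟩
  · have : ((E.filter (fun e => ∀ v ∈ e, v ∈ X)) ∪ (E.filter (fun e => ∀ v ∈ e, v ∈ Y))).card ≤ E.card :=
      card_le_card (union_subset (filter_subset _ _) (filter_subset _ _))
    omega
  · have : ((E.filter (fun e => ∀ v ∈ e, v ∈ X)) ∪ (E.filter (fun e => ∀ v ∈ e, v ∈ Y))).card
        ≤ (E.erase e).card := by
      apply card_le_card
      intro f hf
      simp only [mem_union, mem_filter] at hf
      rw [mem_erase]
      rcases hf with ⟨hf, h3⟩ | ⟨hf, h3⟩
      · exact ⟨fun h => h1 (h ▸ h3), hf⟩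
      · exact ⟨fun h => h2 (h ▸ h3), hf⟩
    rw [card_erase_of_mem he] at this
    have hpos : 0 < E.card := card_pos.2 ⟨e, he⟩
    omega

/-- flip of the coordinates in `s` -/
def flip {k : ℕ} (s : Finset (Fin k)) (ε : Fin k → Bool) : Fin k → Bool :=
  fun i => if i ∈ s then !ε i else ε i

theorem flip_insert {k : ℕ} (s : Finset (Fin k)) (ε : Fin k → Bool) (j : Fin k) (hj : j ∉ s) :
    flip (insert j s) ε = Function.update (flip s ε) j (!(flip s ε) j) := by
  funext i
  by_cases hi : i = j
  · subst hi
    simp [flip, hj]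
  · simp [flip, hi]

theorem bool_aux (α β : Bool) (h : α ≠ β) : α = !β := by
  cases α <;> cases β <;> simp_all

theorem flip_of_notMem {k : ℕ} (s : Finset (Fin k)) (ε : Fin k → Bool) (j : Fin k) (hj : j ∉ s) :
    flip s ε j = ε j := by
  simp [flip, hj]

theorem flip_empty {k : ℕ} (ε : Fin k → Bool) : flip ∅ ε = ε := by
  funext i
  simp [flip]

theorem flip_univ {k : ℕ} (ε : Fin k → Bool) : flip univ ε = fun i => !ε i := by
  funext i
  simp [flip]

theorem not_mem_ins [DecidableEq V] {k : ℕ} (y : V) (p : Fin k × Bool → V) (hp : Function.Injective p)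
    (hy : ∀ x, p x ≠ y) (ε : Fin k → Bool) (j a : Fin k) (α : Bool) (h : a = j ∨ ε a = !α) :
    p (a, α) ∉ insert y ((univ.erase j).image (fun i => p (i, ε i))) := by
  intro hm
  rw [mem_insert] at hm
  rcases hm with hm | hm
  · exact hy _ hm
  · simp only [mem_image, mem_erase, mem_univ, and_true] at hm
    obtain ⟨i, hi, e⟩ := hm
    have := hp e
    simp only [Prod.mk.injEq] at this
    obtain ⟨rfl, this⟩ := this
    rcases h with h | h
    · exact hi h
    · rw [this] at h
      cases α <;> simp at h

theorem ins_inter [DecidableEq V] {k : ℕ} (y : V) (p : Fin k × Bool → V) (hp : Function.Injective p)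
    (ε : Fin k → Bool) (j : Fin k) :
    ∀ v, v ∈ insert y ((univ.erase j).image (fun i => p (i, ε i))) →
      v ∈ insert y ((univ.erase j).image (fun i => p (i, !ε i))) → v = y := by
  intro v hv hv'
  rw [mem_insert] at hv hv'
  rcases hv with hv | hv
  · exact hv
  rcases hv' with hv' | hv'
  · exact hv'
  exfalso
  have h1 : v ∈ univ.image (fun i => p (i, ε i)) := image_subset_image (erase_subset _ _) hv
  have h2 : v ∈ univ.image (fun i => p (i, !ε i)) := image_subset_image (erase_subset _ _) hv'
  exact Finset.disjoint_left.1 (disj_tr p hp ε) h1 h2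

/-- double counting -/
theorem count [DecidableEq V] (D : SimpleGraph V) (E : Finset (Sym2 V)) (hE : ∀ e, e ∈ E ↔ e ∈ D.edgeSet)
    (y : V) (A B : Finset V) (hA : y ∉ A) (hB : y ∉ B) (hAB : Disjoint A B)
    (hc : ∀ v, v ≠ y → v ∈ A ∨ v ∈ B) :
    (∑ v ∈ A, ((E.filter (fun e => y ∉ e)).filter (fun e => v ∈ e)).card) + 2 * eI D B =
      (∑ v ∈ B, ((E.filter (fun e => y ∉ e)).filter (fun e => v ∈ e)).card) + 2 * eI D A ∧
    eI D A + eI D B ≤ (E.filter (fun e => y ∉ e)).card := by
  classical
  set E' := E.filter (fun e => y ∉ e) with hE'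
  have hin : ∀ S : Finset V, y ∉ S → eI D S = (E'.filter (fun e => ∀ v ∈ e, v ∈ S)).card := by
    intro S hS
    rw [eI_eq D E hE]
    congr 1
    ext e
    simp only [hE', mem_filter]
    constructor
    · rintro ⟨h1, h2⟩
      exact ⟨⟨h1, fun h => hS (h2 y h)⟩, h2⟩
    · rintro ⟨⟨h1, -⟩, h2⟩
      exact ⟨h1, h2⟩
  have hdc : ∀ S : Finset V, ∑ v ∈ S, (E'.filter (fun e => v ∈ e)).card =
      ∑ e ∈ E', (S.filter (fun v => v ∈ e)).card := by
    intro S
    exact sum_card_bipartiteAbove_eq_sum_card_bipartiteBelow (fun v e => v ∈ e)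
  rw [hdc, hdc, hin A hA, hin B hB, card_filter, card_filter, mul_sum, mul_sum, ← sum_add_distrib,
    ← sum_add_distrib, ← sum_add_distrib, card_eq_sum_ones]
  have key : ∀ e ∈ E', (A.filter (fun v => v ∈ e)).card + 2 * (if ∀ v ∈ e, v ∈ B then 1 else 0) =
      (B.filter (fun v => v ∈ e)).card + 2 * (if ∀ v ∈ e, v ∈ A then 1 else 0) ∧
      (if ∀ v ∈ e, v ∈ A then 1 else 0) + (if ∀ v ∈ e, v ∈ B then 1 else 0) ≤ 1 := by
    intro e he
    rw [hE', mem_filter] at he
    obtain ⟨h1, h2⟩ := he
    rw [hE] at h1
    induction e using Sym2.ind with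
    | _ u w =>
      rw [SimpleGraph.mem_edgeSet] at h1
      have hne := h1.ne
      simp only [Sym2.mem_iff, not_or] at h2
      have f1 : ∀ S : Finset V, (S.filter (fun v => v ∈ s(u, w))).card =
          (if u ∈ S then 1 else 0) + (if w ∈ S then 1 else 0) := by
        intro S
        have : S.filter (fun v => v ∈ s(u, w)) = ({u} : Finset V).filter (· ∈ S) ∪ ({w} : Finset V).filter (· ∈ S) := by
          ext x
          simp only [mem_filter, Sym2.mem_iff, mem_union, mem_singleton]
          tauto
        rw [this, card_union_of_disjoint]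
        · rw [filter_singleton, filter_singleton]
          by_cases hu : u ∈ S <;> by_cases hw : w ∈ S <;> simp [hu, hw]
        · rw [Finset.disjoint_left]
          intro x hx hx'
          simp only [mem_filter, mem_singleton] at hx hx'
          exact hne (hx.1.symm.trans hx'.1)
      rw [f1, f1]
      have g1 : ∀ S : Finset V, (∀ v ∈ s(u, w), v ∈ S) ↔ (u ∈ S ∧ w ∈ S) := by
        intro S
        simp
      simp only [g1]
      have hu := hc u (fun h => h2.1 h.symm)
      have hw := hc w (fun h => h2.2 h.symm)
      have hu' : ¬ (u ∈ A ∧ u ∈ B) := fun h => Finset.disjoint_left.1 hAB h.1 h.2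
      have hw' : ¬ (w ∈ A ∧ w ∈ B) := fun h => Finset.disjoint_left.1 hAB h.1 h.2
      by_cases a1 : u ∈ A <;> by_cases a2 : u ∈ B <;> by_cases a3 : w ∈ A <;> by_cases a4 : w ∈ B <;>
        simp_all
  exact ⟨sum_congr rfl (fun e he => (key e he).1), sum_le_sum (fun e he => (key e he).2)⟩

theorem final_contra [DecidableEq V] {k q : ℕ} (D : SimpleGraph V) (p : Fin k × Bool → V)
    (hp : Function.Injective p) (τ : Finset V → Bool)
    (hτ : ∀ S T : Finset V, S.card = k → T.card = k → Disjoint S T →
      eI D S < q → eI D T < q → τ S ≠ τ T)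
    (hg : ∀ ε : Fin k → Bool, eI D (univ.image (fun i => p (i, ε i))) < q)
    (ε : Fin k → Bool)
    (h : τ (univ.image (fun i => p (i, ε i))) = τ (univ.image (fun i => p (i, flip univ ε i)))) :
    False := by
  rw [flip_univ] at h
  exact hτ _ _ (card_tr p hp ε) (card_tr p hp (fun i => !ε i)) (disj_tr p hp ε) (hg ε)
    (hg (fun i => !ε i)) h

theorem t_Ewalk (h1 : S_Epair) (h2 : S_Epair2) (h3 : S_Eswap) : S_Ewalk := by
  classical
  intro V _ _ D k q hV hkq hD τ hτ
  have hq1 : 1 ≤ q := by omega
  have hfin : D.edgeSet.Finite := Set.toFinite _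
  obtain ⟨E, hE⟩ : ∃ E : Finset (Sym2 V), ∀ e, e ∈ E ↔ e ∈ D.edgeSet :=
    ⟨hfin.toFinset, fun e => Set.Finite.mem_toFinset hfin⟩
  have hEc : E.card = D.edgeSet.ncard := by
    rw [← Set.ncard_coe_finset]
    congr 1
    ext e
    simp [hE]
  rw [← hEc] at hD
  have hne : (univ : Finset V).Nonempty := by
    rw [← card_pos, card_univ]
    omega
  obtain ⟨y, -, hy⟩ := exists_max_image univ (fun v : V => (E.filter (fun e => v ∈ e)).card) hne
  have hy' : ∀ v, (E.filter (fun e => v ∈ e)).card ≤ (E.filter (fun e => y ∈ e)).card :=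
    fun v => hy v (mem_univ v)
  -- the step
  have step : ∀ (p : Fin k × Bool → V), Function.Injective p → (∀ x, p x ≠ y) →
      (∀ ε : Fin k → Bool, eI D (univ.image (fun i => p (i, ε i))) < q) →
      ∀ (ε : Fin k → Bool) (j : Fin k),
      (E.card < 2 * q ∨ ∃ e ∈ E, (¬ ∀ v ∈ e, v ∈ insert y ((univ.erase j).image (fun i => p (i, ε i)))) ∧
        (¬ ∀ v ∈ e, v ∈ insert y ((univ.erase j).image (fun i => p (i, !ε i))))) →
      τ (univ.image (fun i => p (i, ε i))) =
        τ (univ.image (fun i => p (i, Function.update ε j (!ε j) i))) := by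
    intro p hp hpy hg ε j h
    exact h3 V k y p (fun S => eI D S < q) τ hp hpy hτ hg ε j
      (star D E hE q hD _ _ y (ins_inter y p hp ε j) h)
  -- all steps allowed
  have allsteps : ∀ (p : Fin k × Bool → V), Function.Injective p → (∀ x, p x ≠ y) →
      (∀ ε : Fin k → Bool, eI D (univ.image (fun i => p (i, ε i))) < q) →
      (∀ (ε : Fin k → Bool) (j : Fin k), 
      (E.card < 2 * q ∨ ∃ e ∈ E, (¬ ∀ v ∈ e, v ∈ insert y ((univ.erase j).image (fun i => p (i, ε i)))) ∧
        (¬ ∀ v ∈ e, v ∈ insert y ((univ.erase j).image (fun i => p (i, !ε i)))))) → False := by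
    intro p hp hpy hg h
    have hs : ∀ s : Finset (Fin k), τ (univ.image (fun i => p (i, (fun _ => false : Fin k → Bool) i))) =
        τ (univ.image (fun i => p (i, flip s (fun _ => false) i))) := by
      intro s
      induction s using Finset.induction_on with
      | empty => rw [flip_empty]
      | insert j s hj ih =>
        rw [ih, step p hp hpy hg _ j (h _ j), flip_insert s _ j hj]
    exact final_contra D p hp τ hτ hg _ (hs univ)
  -- good transversals
  have hgood : ∃ p : Fin k × Bool → V, Function.Injective p ∧ (∀ x, p x ≠ y) ∧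
      (∀ ε : Fin k → Bool, eI D (univ.image (fun i => p (i, ε i))) < q) := by
    obtain ⟨p, hp, hpy, hs⟩ := h1 V
      (fun v => ((E.filter (fun e => y ∉ e)).filter (fun e => v ∈ e)).card) y k hV
    refine ⟨p, hp, hpy, ?_⟩
    intro ε
    have hsum := hs ε (E.filter (fun e => y ∈ e)).card (by
      intro v _
      exact (card_le_card (fun e he => by
        simp only [mem_filter] at he ⊢
        exact ⟨he.1.1, he.2⟩)).trans (hy' v))
    set A := univ.image (fun i => p (i, ε i)) with hA
    set B := univ.image (fun i => p (i, !ε i)) with hB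
    have hsA : ∀ f : V → ℕ, ∑ v ∈ A, f v = ∑ i, f (p (i, ε i)) := by
      intro f
      rw [hA, sum_image]
      intro i _ j _ h
      have := hp h
      simp only [Prod.mk.injEq] at this
      exact this.1
    have hsB : ∀ f : V → ℕ, ∑ v ∈ B, f v = ∑ i, f (p (i, !ε i)) := by
      intro f
      rw [hB, sum_image]
      intro i _ j _ h
      have := hp h
      simp only [Prod.mk.injEq] at this
      exact this.1
    have hAB : Disjoint A B := disj_tr p hp ε
    have hyA : y ∉ A := by
      intro h
      simp only [hA, mem_image, mem_univ, true_and] at h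
      obtain ⟨i, hi⟩ := h
      exact hpy _ hi
    have hyB : y ∉ B := by
      intro h
      simp only [hB, mem_image, mem_univ, true_and] at h
      obtain ⟨i, hi⟩ := h
      exact hpy _ hi
    have hcov : ∀ v, v ≠ y → v ∈ A ∨ v ∈ B := by
      have hcard : (insert y (A ∪ B)).card = Fintype.card V := by
        rw [card_insert_of_notMem (by simp [hyA, hyB]), card_union_of_disjoint hAB, hA, hB,
          card_tr p hp ε, card_tr p hp (fun i => !ε i), hV]
        ring
      have huniv : insert y (A ∪ B) = univ := (Finset.card_eq_iff_eq_univ _).1 hcard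
      intro v hv
      have := mem_univ v
      rw [← huniv, mem_insert, mem_union] at this
      exact this.resolve_left hv
    obtain ⟨c1, c2⟩ := count D E hE y A B hyA hyB hAB hcov
    rw [hsA, hsB] at c1
    have c3 := card_filter_add_card_filter_not (s := E) (fun e => y ∈ e)
    by_cases hd0 : (E.filter (fun e => y ∈ e)).card = 0
    · have hE0 : E = ∅ := by
        rw [Finset.eq_empty_iff_forall_notMem]
        intro e he
        induction e using Sym2.ind with
        | _ u w =>
          have := hy' u
          rw [hd0] at this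
          have h0 : 0 < (E.filter (fun e => u ∈ e)).card :=
            card_pos.2 ⟨s(u, w), by simp [he]⟩
          omega
      have : eI D A = 0 := by
        rw [eI_eq D E hE, hE0]
        rfl
      omega
    · omega
  by_cases hlt : E.card < 2 * q
  · obtain ⟨p, hp, hpy, hg⟩ := hgood
    exact allsteps p hp hpy hg (fun ε j => Or.inl hlt)
  by_cases hex : ∃ e ∈ E, y ∉ e
  · obtain ⟨e, he, hye⟩ := hex
    obtain ⟨p, hp, hpy, hg⟩ := hgood
    have hsurj : ∀ v, v ≠ y → ∃ x, p x = v := by
      have hcard : (insert y (univ.image p)).card = Fintype.card V := by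
        rw [card_insert_of_notMem (by
          intro h
          simp only [mem_image, mem_univ, true_and] at h
          obtain ⟨x, hx⟩ := h
          exact hpy x hx), card_image_of_injective _ hp, card_univ, Fintype.card_prod, hV]
        simp
        ring
      have huniv : insert y (univ.image p) = univ := (Finset.card_eq_iff_eq_univ _).1 hcard
      intro v hv
      have := mem_univ v
      rw [← huniv, mem_insert] at this
      have := this.resolve_left hv
      simp only [mem_image, mem_univ, true_and] at this
      exact this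
    have he' := (hE e).1 he
    induction e using Sym2.ind with
    | _ u v =>
    rw [SimpleGraph.mem_edgeSet] at he'
    have huv := he'.ne
    simp only [Sym2.mem_iff, not_or] at hye
    obtain ⟨⟨a, α⟩, hu⟩ := hsurj u (fun h => hye.1 h.symm)
    obtain ⟨⟨b, β⟩, hv⟩ := hsurj v (fun h => hye.2 h.symm)
    obtain ⟨ε, hεa, hεb⟩ : ∃ ε : Fin k → Bool, ε a = α ∧ ε b = !β := by
      by_cases hab : a = b
      · subst hab
        refine ⟨fun _ => α, rfl, ?_⟩
        have : α ≠ β := by
          intro h
          subst h
          exact huv (hu.symm.trans hv)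
        exact bool_aux α β this
      · exact ⟨fun i => if i = a then α else !β, if_pos rfl, if_neg (Ne.symm hab)⟩
    -- criterion
    have crit : ∀ (ε' : Fin k → Bool) (j : Fin k), (j = a ∨ j = b ∨ (ε' a = α ∧ ε' b = !β)) →
        τ (univ.image (fun i => p (i, ε' i))) =
        τ (univ.image (fun i => p (i, Function.update ε' j (!ε' j) i))) := by
      intro ε' j hj
      apply step p hp hpy hg ε' j
      right
      refine ⟨s(u, v), he, ?_, ?_⟩
      · rcases hj with hj | hj | hj
        · intro h
          have := h u (by simp)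
          rw [← hu] at this
          exact not_mem_ins y p hp hpy ε' j a α (Or.inl hj.symm) this
        · intro h
          have := h v (by simp)
          rw [← hv] at this
          exact not_mem_ins y p hp hpy ε' j b β (Or.inl hj.symm) this
        · intro h
          have := h v (by simp)
          rw [← hv] at this
          exact not_mem_ins y p hp hpy ε' j b β (Or.inr hj.2) this
      · rcases hj with hj | hj | hj
        · intro h
          have := h u (by simp)
          rw [← hu] at this
          exact not_mem_ins y p hp hpy (fun i => !ε' i) j a α (Or.inl hj.symm) this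
        · intro h
          have := h v (by simp)
          rw [← hv] at this
          exact not_mem_ins y p hp hpy (fun i => !ε' i) j b β (Or.inl hj.symm) this
        · intro h
          have := h u (by simp)
          rw [← hu] at this
          exact not_mem_ins y p hp hpy (fun i => !ε' i) j a α (Or.inr (by simp [hj.1])) this
    have cl1 : ∀ s : Finset (Fin k), a ∉ s → b ∉ s → τ (univ.image (fun i => p (i, ε i))) =
        τ (univ.image (fun i => p (i, flip s ε i))) := by
      intro s
      induction s using Finset.induction_on with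
      | empty => intro _ _; rw [flip_empty]
      | insert j s hj ih =>
        intro ha hb
        rw [mem_insert, not_or] at ha hb
        rw [ih ha.2 hb.2, crit (flip s ε) j (Or.inr (Or.inr
          ⟨(flip_of_notMem s ε a ha.2).trans hεa, (flip_of_notMem s ε b hb.2).trans hεb⟩)),
          flip_insert s _ j hj]
    have cl2 : ∀ s : Finset (Fin k), b ∉ s → τ (univ.image (fun i => p (i, ε i))) =
        τ (univ.image (fun i => p (i, flip s ε i))) := by
      intro s hb
      by_cases ha : a ∈ s
      · have hs : s = insert a (s.erase a) := (insert_erase ha).symm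
        rw [hs, flip_insert (s.erase a) ε a (by simp), cl1 (s.erase a) (by simp) (by simp [hb])]
        exact crit _ a (Or.inl rfl)
      · exact cl1 s ha hb
    have cl3 : τ (univ.image (fun i => p (i, ε i))) =
        τ (univ.image (fun i => p (i, flip univ ε i))) := by
      have hs : (univ : Finset (Fin k)) = insert b (univ.erase b) := (insert_erase (mem_univ b)).symm
      have e1 : flip univ ε = Function.update (flip (univ.erase b) ε) b (!(flip (univ.erase b) ε) b) := by
        rw [← flip_insert (univ.erase b) ε b (by simp), ← hs]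
      rw [e1, cl2 (univ.erase b) (by simp)]
      exact crit _ b (Or.inr (Or.inl rfl))
    exact final_contra D p hp τ hτ hg _ cl3
  · push Not at hex
    set N := univ.filter (fun v : V => v ≠ y ∧ s(y, v) ∉ E) with hN
    set M := univ.filter (fun v : V => s(y, v) ∈ E) with hM
    have hMc : E.card ≤ M.card := by
      have : E ⊆ M.image (fun v => s(y, v)) := by
        intro e he
        have hy := hex e he
        obtain ⟨w, rfl⟩ := hy
        rw [mem_image]
        exact ⟨w, by simp [hM, he], rfl⟩
      exact (card_le_card this).trans card_image_le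
    have hNM : (insert y (N ∪ M)).card ≤ Fintype.card V := card_le_univ _
    have hyN : y ∉ N := by simp [hN]
    have hyM : y ∉ M := by
      intro h
      simp only [hM, mem_filter, mem_univ, true_and] at h
      have := (hE _).1 h
      rw [SimpleGraph.mem_edgeSet] at this
      exact this.ne rfl
    have hdNM : Disjoint N M := by
      rw [Finset.disjoint_left]
      intro v hv hv'
      simp only [hN, hM, mem_filter, mem_univ, true_and] at hv hv'
      exact hv.2 hv'
    rw [card_insert_of_notMem (by simp [hyN, hyM]), card_union_of_disjoint hdNM, hV] at hNM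
    have hNk : N.card ≤ k := by omega
    obtain ⟨p, hp, hpy, hpN⟩ := h2 V N y k hV hyN hNk
    refine allsteps p hp hpy ?_ ?_
    · intro ε
      have : eI D (univ.image (fun i => p (i, ε i))) = 0 := by
        rw [eI_eq D E hE, card_eq_zero, Finset.filter_eq_empty_iff]
        intro e he h
        have := h y (hex e he)
        simp only [mem_image, mem_univ, true_and] at this
        obtain ⟨i, hi⟩ := this
        exact hpy _ hi
      omega
    · intro ε j
      right
      refine ⟨s(y, p (j, true)), ?_, ?_, ?_⟩
      · by_contra hc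
        exact hpN j (by simp [hN, hpy, hc])
      · intro h
        exact not_mem_ins y p hp hpy ε j j true (Or.inl rfl) (h _ (by simp))
      · intro h
        exact not_mem_ins y p hp hpy (fun i => !ε i) j j true (Or.inl rfl) (h _ (by simp))

end Pool.Agent.H133.ZM.Ew
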