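import Mathlib
import Pool.Agent.H133.ZM.Stm

/-! # Project ZM (helper133): extension of small matchings (ext1) -/

set_option autoImplicit false

namespace Pool.Agent.H133.ZM.X1

open Finset Pool.Agent.H133.ZM

/-- the arithmetic of the claim -/
theorem arith (r t j a D μ : ℕ) (ht : t ≤ r + 1) (hj : j ≤ r)
    (hD1 : a + t + 1 ≤ D) (hD2 : 12 * r + 1 + t ≤ D + 4 * j + 3 * a)
    (hm : (a + t) * D ≤ 2 * μ)
    (h1 : 2 * μ + 2 ≤ 2 * t * (4 * r + 1) + t * (t - 1))
    (h2 : t = r + 1 → 2 * μ + 2 + 2 * r ≤ 2 * t * (4 * r + 1) + t * (t - 1)) (ht1 : 1 ≤ t) :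
    False := by
  obtain ⟨t', rfl⟩ : ∃ t', t = t' + 1 := ⟨t - 1, by omega⟩
  simp only [Nat.add_sub_cancel] at h1 h2
  zify at *
  by_cases ha : (a : ℤ) ≤ 2 * r
  · have h3 : (8 : ℤ) * r + 1 + (t' + 1) - 3 * a ≤ D := by linarith
    have h4 : ((a : ℤ) + (t' + 1)) * (8 * r + 1 + (t' + 1) - 3 * a) ≤ (a + (t' + 1)) * D :=
      mul_le_mul_of_nonneg_left h3 (by positivity)
    rcases lt_or_eq_of_le ht with h5 | h5
    · have h6 : (0 : ℤ) ≤ (a : ℤ) * (8 * r + 1 - 2 * (t' + 1) - 3 * a) :=
        mul_nonneg (by positivity) (by linarith)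
      nlinarith
    · have h6 := h2 h5
      have h7 : -(a : ℤ) ≤ (a : ℤ) * (8 * r + 1 - 2 * (t' + 1) - 3 * a) := by
        have : (-1 : ℤ) ≤ 8 * r + 1 - 2 * (t' + 1) - 3 * a := by linarith
        have := mul_le_mul_of_nonneg_left this (show (0 : ℤ) ≤ a by positivity)
        linarith
      nlinarith
  · push Not at ha
    have h3 : ((a : ℤ) + (t' + 1)) * (a + (t' + 1) + 1) ≤ (a + (t' + 1)) * D :=
      mul_le_mul_of_nonneg_left (by linarith) (by positivity)
    have h4 : (2 * (r : ℤ) + 1 + (t' + 1)) * (2 * r + 1 + (t' + 1) + 1) ≤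
        ((a : ℤ) + (t' + 1)) * (a + (t' + 1) + 1) := by
      apply mul_le_mul <;> first | positivity | linarith
    nlinarith

/-- non-adjacent pairs -/
theorem pairs_le {V : Type} [Fintype V] [DecidableEq V] (G : SimpleGraph V) (P : Finset (V × V))
    (hP : ∀ p ∈ P, Gᶜ.Adj p.1 p.2) : P.card ≤ 2 * mis G := by
  have h1 : P.card ≤ 2 * (P.image fun p => s(p.1, p.2)).card := by
    refine Finset.card_le_mul_card_image P 2 fun e he => ?_
    rw [Finset.mem_image] at he
    obtain ⟨⟨x, y⟩, _, rfl⟩ := he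
    have h2 : (P.filter fun p => s(p.1, p.2) = s(x, y)) ⊆ {(x, y), (y, x)} := by
      rintro ⟨u, v⟩ h
      rw [Finset.mem_filter] at h
      have h3 := h.2
      simp only [Sym2.eq_iff] at h3
      rw [Finset.mem_insert, Finset.mem_singleton]
      rcases h3 with ⟨rfl, rfl⟩ | ⟨rfl, rfl⟩
      · exact Or.inl rfl
      · exact Or.inr rfl
    exact (Finset.card_le_card h2).trans (Finset.card_le_two)
  have h2 : (P.image fun p => s(p.1, p.2)).card ≤ mis G := by
    unfold mis
    rw [← Set.ncard_coe_finset]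
    refine Set.ncard_le_ncard ?_ (Set.toFinite _)
    intro e he
    rw [Finset.coe_image] at he
    obtain ⟨p, hp, rfl⟩ := he
    exact hP p hp
  omega

theorem t_ext1 (h : S_part) : S_ext1 := by
  intro hTB m t hm hodd ht1 ht2 V _ _ G hV h1 h2 Q hQ hQm
  obtain ⟨r, rfl⟩ := hodd
  by_contra hcon
  push Not at hcon
  have hLL : LL (2 * r + 1) = 3 * r + 1 := by unfold LL; omega
  rw [hLL] at hcon
  -- the vertices of `Q`
  set W : Finset V := Q.biUnion fun e => e.toFinset with hW
  have hWm : ∀ v, v ∈ W ↔ ∃ e ∈ Q, v ∈ e := by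
    intro v
    rw [hW, Finset.mem_biUnion]
    simp only [Sym2.mem_toFinset]
  have hWc : W.card ≤ 2 * Q.card := by
    rw [mul_comm]
    refine Finset.card_biUnion_le_card_mul _ _ _ fun e _ => ?_
    rw [Sym2.card_toFinset]
    split_ifs <;> omega
  let G' : SimpleGraph V :=
    { Adj := fun u v => G.Adj u v ∧ u ∉ W ∧ v ∉ W
      symm := ⟨fun u v huv => ⟨huv.1.symm, huv.2.2, huv.2.1⟩⟩
      loopless := ⟨fun u hu => G.loopless.irrefl u hu.1⟩ }
  have hG' : ∀ u v, G'.Adj u v ↔ G.Adj u v ∧ u ∉ W ∧ v ∉ W := fun u v => Iff.rfl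
  have hG'e : ∀ e : Sym2 V, e ∈ G'.edgeSet → e ∈ G.edgeSet ∧ ∀ v ∈ e, v ∉ W := by
    intro e
    induction e using Sym2.ind with
    | _ u v =>
      intro he
      rw [SimpleGraph.mem_edgeSet, hG'] at he
      refine ⟨he.1, fun w hw => ?_⟩
      rw [Sym2.mem_iff] at hw
      rcases hw with rfl | rfl
      · exact he.2.1
      · exact he.2.2
  have hk : ∀ M, IsM G' M → M.card ≤ 3 * r - Q.card := by
    intro M hM
    by_contra hlt
    push Not at hlt
    obtain ⟨M', hM', hM'c⟩ := Finset.exists_subset_card_eq (s := M) (n := 3 * r + 1 - Q.card)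
      (by omega)
    have hdis : Disjoint Q M' := by
      rw [Finset.disjoint_left]
      intro e heQ heM
      have h3 := (hG'e e (hM.1 e (hM' heM))).2
      induction e using Sym2.ind with
      | _ u v =>
        exact h3 u (Sym2.mem_mk_left u v) ((hWm u).2 ⟨_, heQ, Sym2.mem_mk_left u v⟩)
    refine hcon (Q ∪ M') ⟨?_, ?_⟩ Finset.subset_union_left ?_
    · intro e he
      rcases Finset.mem_union.1 he with he | he
      · exact hQ.1 e he
      · exact (hG'e e (hM.1 e (hM' he))).1
    · intro e he f hf hef v hve hvf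
      rcases Finset.mem_union.1 he with he | he <;> rcases Finset.mem_union.1 hf with hf | hf
      · exact hQ.2 e he f hf hef v hve hvf
      · exact (hG'e f (hM.1 f (hM' hf))).2 v hvf ((hWm v).2 ⟨e, he, hve⟩)
      · exact (hG'e e (hM.1 e (hM' he))).2 v hve ((hWm v).2 ⟨f, hf, hvf⟩)
      · exact hM.2 e (hM' he) f (hM' hf) hef v hve hvf
    · rw [Finset.card_union_of_disjoint hdis, hM'c]
      omega
  obtain ⟨A, f, hAf, hAc⟩ := hTB V G' _ hk
  set X : Finset V := Aᶜ \ W with hX
  have hXA : X ⊆ Aᶜ := Finset.sdiff_subset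
  have hsum : ∑ i ∈ X.image f, (X.filter (fun v => f v = i)).card / 2 ≤
      ∑ i ∈ (Aᶜ).image f, ((Aᶜ).filter (fun v => f v = i)).card / 2 := by
    refine (Finset.sum_le_sum fun i _ => ?_).trans
      (Finset.sum_le_sum_of_subset (Finset.image_subset_image hXA))
    exact Nat.div_le_div_right (Finset.card_le_card (Finset.filter_subset_filter _ hXA))
  have hXcard : X.card ≤ 2 * (∑ i ∈ X.image f, (X.filter (fun v => f v = i)).card / 2) +
      (X.image f).card := by
    have e1 := Finset.card_eq_sum_card_image f X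
    rw [Finset.mul_sum, Finset.card_eq_sum_ones (X.image f), ← Finset.sum_add_distrib]
    refine e1.le.trans (Finset.sum_le_sum fun i _ => ?_)
    omega
  have hXlow : 6 * r + 1 + t ≤ X.card + A.card + 2 * Q.card := by
    have e1 : (Aᶜ).card + A.card = Fintype.card V := Finset.card_compl_add_card A
    have e2 : (Aᶜ).card ≤ X.card + W.card := by
      have := Finset.le_card_sdiff W (Aᶜ)
      rw [← hX] at this
      omega
    omega
  have hclass : A.card + t + 1 ≤ (X.image f).card := by omega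
  have hclassle : (X.image f).card ≤ X.card := Finset.card_image_le
  have hpart := h V X f (A.card + t + 1) hclass
  have hpairs := pairs_le G ((X ×ˢ X).filter (fun p => f p.1 ≠ f p.2)) (by
    rintro ⟨x, y⟩ hxy
    rw [Finset.mem_filter, Finset.mem_product] at hxy
    obtain ⟨⟨hx, hy⟩, hne⟩ := hxy
    simp only at hx hy hne
    rw [SimpleGraph.compl_adj]
    refine ⟨fun e => hne (by rw [show x = y from e]), fun hadj => ?_⟩
    have hx' := Finset.mem_sdiff.1 hx
    have hy' := Finset.mem_sdiff.1 hy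
    exact hne (hAf x y (Finset.mem_compl.1 hx'.1) (Finset.mem_compl.1 hy'.1)
      ((hG' x y).2 ⟨hadj, hx'.2, hy'.2⟩)))
  have e1 : 2 * (2 * r + 1) - 1 = 4 * r + 1 := by omega
  rw [e1] at h1 h2
  refine arith r t Q.card A.card (2 * X.card - (A.card + t + 1)) (mis G) (by omega) (by omega)
    (by omega) (by omega) ?_ h1 (fun ht => ?_) ht1
  · have e2 : A.card + t + 1 - 1 = A.card + t := by omega
    rw [e2] at hpart
    exact hpart.trans hpairs
  · have h3 := h2 (by omega)
    have e3 : 2 * r + 1 - 1 = 2 * r := by omega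
    rw [e3] at h3
    exact h3

end Pool.Agent.H133.ZM.X1
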