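import Pool.Agent.H133.ZM.Stm

set_option autoImplicit false

/-!
Project ZM2 (helper133): the case n = 3m-1 of MP_22c8d1_co for all m, in particular the doubling
step from h to 2h. Together with helper621's landed reduction to n = 3m-1 this gives the full
frozen statement S07649.
-/

namespace Pool.Agent.H133.ZM

open Finset

/-- number of edges of `D` with both ends in `S` -/
noncomputable def eI {V : Type} (D : SimpleGraph V) (S : Finset V) : ℕ :=
  {e ∈ D.edgeSet | ∀ v ∈ e, v ∈ S}.ncard

/-- the theorem at `n = 3m - 1`: a graph with at most `2m-2` non-edges has a zero-sum `m`-matching -/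
def S_base (m : ℕ) : Prop := ∀ (V : Type) [Fintype V] [DecidableEq V] (G : SimpleGraph V)
  (c : Sym2 V → ZMod m), Fintype.card V + 1 = 3 * m → mis G + 2 ≤ 2 * m →
  ∃ M, IsM G M ∧ M.card = m ∧ ∑ e ∈ M, c e = 0

/-- PROOF. The 2k elements other than y, listed with `f` monotone (Tuple.sort): x_0, x_1, …, x_{2k-1}; put p (i,false) = x_{2i}, p (i,true) = x_{2i+1}. The difference of the two sums is at most
∑_i (f x_{2i+1} - f x_{2i}) ≤ f x_{2k-1} - f x_0 ≤ d (telescoping: x_{2i+1} ≤ x_{2i+2} in f). -/
def S_Epair : Prop := ∀ (V : Type) [Fintype V] [DecidableEq V] (f : V → ℕ) (y : V) (k : ℕ),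
  Fintype.card V = 2 * k + 1 →
  ∃ p : Fin k × Bool → V, Function.Injective p ∧ (∀ x, p x ≠ y) ∧
    ∀ (ε : Fin k → Bool) (d : ℕ), (∀ v, v ≠ y → f v ≤ d) →
      ∑ i, f (p (i, ε i)) ≤ (∑ i, f (p (i, !ε i))) + d

/-- PROOF. Enumerate the 2k elements other than y such that the elements of N come among the first k; p (i,false) = the i-th, p (i,true) = the (k+i)-th. -/
def S_Epair2 : Prop := ∀ (V : Type) [Fintype V] [DecidableEq V] (N : Finset V) (y : V) (k : ℕ),
  Fintype.card V = 2 * k + 1 → y ∉ N → N.card ≤ k →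
  ∃ p : Fin k × Bool → V, Function.Injective p ∧ (∀ x, p x ≠ y) ∧ ∀ i, p (i, true) ∉ N

/-- The type is constant under swapping one pair. For ε : Fin k → Bool write A_ε = {p (i, ε i)}, and A_{¬ε} for its complement in V \ {y}. j-th swap: ε' = Function.update ε j (!ε j).
PROOF. All A's are good (hypothesis tr). If X = insert y (A_ε minus p (j, ε j)) is good (k elements): X is disjoint from A_{¬ε} and from A_{¬ε'} (= A_{¬ε} minus p (j,!ε j) plus p (j, ε j)), so τ A_{¬ε} ≠ τ X ≠ τ A_{¬ε'}, hence (Bool) τ A_{¬ε} = τ A_{¬ε'} and, as τ A_ε ≠ τ A_{¬ε},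
τ A_ε' ≠ τ A_{¬ε'}: τ A_ε = τ A_ε'. If Y = insert y (A_{¬ε} minus p (j, !ε j)) is good: Y is disjoint from A_ε and A_ε', so τ A_ε = τ A_ε'. -/
def S_Eswap : Prop := ∀ (V : Type) [Fintype V] [DecidableEq V] (k : ℕ) (y : V) (p : Fin k × Bool → V)
  (gd : Finset V → Prop) (τ : Finset V → Bool), Function.Injective p → (∀ x, p x ≠ y) →
  (∀ S T : Finset V, S.card = k → T.card = k → Disjoint S T → gd S → gd T → τ S ≠ τ T) →
  (∀ ε : Fin k → Bool, gd (univ.image (fun i => p (i, ε i)))) →
  ∀ (ε : Fin k → Bool) (j : Fin k),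
    (gd (insert y ((univ.erase j).image (fun i => p (i, ε i)))) ∨
     gd (insert y ((univ.erase j).image (fun i => p (i, !ε i))))) →
    τ (univ.image (fun i => p (i, ε i))) =
      τ (univ.image (fun i => p (i, Function.update ε j (!ε j) i)))

/-- There is no 2-colouring τ of the k-sets with fewer than q edges of D inside for which disjoint sets always get different colours (|V| = 2k+1 = 3q+2, D has at most 2q edges).
PROOF (use S_Epair, S_Epair2, S_Eswap as hypotheses). Let gd S := eI D S < q. y = a vertex of maximum degree d0 of D; D' = edges of D not containing y, deg' the degree in D'.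
TRANSVERSALS. Take p from S_Epair for f = deg'. For a transversal A = A_ε and B = A_{¬ε} (A, B, {y} partition V, as card V = 2k+1): ∑_{v∈A} deg' v = 2 eI(A) + cut, ∑_{v∈B} deg' v = 2 eI(B) + cut (cut = number of D'-edges between A and B),
so 2(eI A - eI B) ≤ d1 := max deg' ≤ d0, and eI A + eI B ≤ e(D) - d0. Hence 4 eI A ≤ 2(e(D)-d0) + d0 ≤ 4q - d0, and < 4q if d0 ≥ 1; if d0 = 0 then D has no edges and eI A = 0 < q (q ≥ 1 because 2k = 3q+1). So eI A < q: all transversals are good.
SWAP. For a swap of the pair j at ε: X = insert y (A minus p(j,ε j)), Y = insert y (B minus p(j,!ε j)); an edge of D inside both X and Y would be inside X ∩ Y = {y}, impossible; so eI X + eI Y ≤ e(D) ≤ 2q, and if some edge of D is neither inside X nor inside Y then eI X + eI Y ≤ 2q-1, so one of X, Y is good (< q). (*)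
If e(D) < 2q this is always the case. So let e(D) = 2q.
CASE 1: D' has an edge uv. Then u, v ≠ y; u = p (a, α), v = p (b, β). Start with ε such that ε a = α, and (if b ≠ a) ε b = !β, so u ∈ A, v ∈ B (if a = b automatically v ∈ B). Flip the coordinates one after another: first all j ∉ {a,b} (in any order, e.g. Finset induction over subsets of univ \ {a,b}),
then a, then b (only a if a = b). In the steps j ∉ {a,b} the edge uv joins A\{p(j,ε j)} and B\{p(j,!ε j)}: it is in neither X nor Y; in the steps j = a, j = b: the vertex u (resp. v) is in neither X nor Y. So by (*) S_Eswap applies at every step: τ A_ε = τ A_{¬ε}. But A_ε and A_{¬ε} are disjoint good k-sets: contradiction.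
CASE 2: D' has no edge: all 2q edges of D contain y. Let N = the vertices other than y that are not adjacent to y in D: |N| = 2k - 2q = q+1 ≤ k. Take p from S_Epair2. All transversals have eI = 0 < q. For a swap of the pair j: the edge y p(j,true) of D is neither in X nor in Y, so by (*) S_Eswap applies to every flip at every ε: all transversals have the same τ: contradiction again. -/
def S_Ewalk : Prop := ∀ (V : Type) [Fintype V] [DecidableEq V] (D : SimpleGraph V) (k q : ℕ),
  Fintype.card V = 2 * k + 1 → 2 * k = 3 * q + 1 → D.edgeSet.ncard ≤ 2 * q →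
  ∀ τ : Finset V → Bool,
    ¬ ∀ S T : Finset V, S.card = k → T.card = k → Disjoint S T →
      eI D S < q → eI D T < q → τ S ≠ τ T

/-- PROOF. Let |V| + 1 = 6h, mis G ≤ 4h-2, c : Sym2 V → ZMod (2h), D = Gᶜ, k = 3h-1, q = 2h-1 (so 2k = 3q+1, |V| = 2k+1, e(D) ≤ 2q). For every k-set S with eI D S < q the induced graph G[S] (G.induce S or G.comap Subtype.val, on the subtype) has |S| + 1 = 3h vertices and at most q-1 = 2h-2 non-edges, and
S_base h for the colouring e ↦ ZMod.castHom (h ∣ 2h) (c (image of e)) gives (mapping the matching back by Sym2.map Subtype.val) a matching F_S of G inside S with h edges and castHom (∑ c) = 0, i.e. the sum is 0 or h in ZMod (2h). Let τ S = true iff ∑_{F_S} c = 0 (F_S chosen).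
If S, T are disjoint good k-sets then τ S ≠ τ T, otherwise F_S ∪ F_T is a matching of G with 2h edges and sum 0+0 or h+h = 0 in ZMod (2h), and we are done. So if there is no zero-sum 2h-matching, S_Ewalk gives a contradiction. -/
def S_Edouble : Prop := S_Ewalk → ∀ h : ℕ, 1 ≤ h → S_base h → S_base (2 * h)

/-- variant of S_SW without S_A1 -/
def S_SW' : Prop := S_S2 → S_A2 → ∀ (m : ℕ), 3 ≤ m → Odd m →
  ∀ (V : Type) [Fintype V] [DecidableEq V] (G : SimpleGraph V) (c : Sym2 V → ZMod m),
  Fintype.card V = 3 * m - 1 → mis G ≤ 2 * m - 2 →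
  (∀ M, IsM G M → M.card = m → ∑ e ∈ M, c e ≠ 0) →
  ∀ M M' (a g a' g' : ZMod m), IsM G M → IsM G M' → M.card = LL m → M'.card = LL m →
  (M \ M').card = 2 → (M' \ M).card = 2 → Nrm m M c a g → Nrm m M' c a' g' →
  PEq a g a' g'

end Pool.Agent.H133.ZM
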