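import Pool.Agent.H621.ZM.Main
import Pool.Agent.H133.ZM.Stm2

set_option autoImplicit false

/-! # From the case `n = 3 s - 1` to all `n` -/

namespace Pool.Agent.H133.ZM.FinA

open Finset Pool.Agent.H133.ZM Pool.Agent.H621.ZM.Values

theorem eq_all (hb : ∀ m : ℕ, 1 ≤ m → S_base m) (n s : ℕ) (hs : 1 ≤ s) : T2 n s = TZ n s := by
  have hP := Pool.Agent.H621.ZM.Main.parts
  have hT := Pool.Agent.H621.ZM.TwoCol.twoCol
  have hC := Pool.Agent.H621.ZM.Constr.constr
  have h1 := gap hP hT hC n s hs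
  have h2 := T2_le_TZ n s hs
  have h4 := T2_eq hT hC (3 * s - 1) s 1 hs (by omega)
  rw [mm_one s hs] at h4
  have h5 := TZ_le (3 * s - 1) s hs (2 * s - 1) 0 (by
    intro G c hc
    by_contra hcon
    have hmis : mis G = Pool.Agent.H621.ZM.miss G := rfl
    obtain ⟨M, hM, hMc, hMs⟩ := hb s hs (Fin (3 * s - 1)) G c
      (by rw [Fintype.card_fin]; omega) (by rw [hmis]; omega)
    exact hc M hM hMc hMs)
  omega

end Pool.Agent.H133.ZM.FinA
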