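import Pool.Agent.H133.ZM.Stm

set_option autoImplicit false

/-! MP_22c8d1_co, board task ZM/hex: the finite check on the 6-cycle. -/

namespace Pool.Agent.H133.ZM.Hx

open Finset Pool.Agent.H133.ZM

/-- the twelve conditions -/
def cond (a0 a1 a2 a3 a4 a5 b0 b1 b2 b3 b4 b5 : Bool) : Bool :=
  (a0 || b1 || a4 || (b3 && a2)) &&
  (b0 || a1 || b4 || (a3 && b2)) &&
  (a1 || b0 || a3 || (b4 && a5)) &&
  (b1 || a0 || b3 || (a4 && b5)) &&
  (a2 || b3 || a0 || (b5 && a4)) &&
  (b2 || a3 || b0 || (a5 && b4)) &&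
  (a3 || b2 || a5 || (b0 && a1)) &&
  (b3 || a2 || b5 || (a0 && b1)) &&
  (a4 || b5 || a2 || (b1 && a0)) &&
  (b4 || a5 || b2 || (a1 && b0)) &&
  (a5 || b4 || a1 || (b2 && a3)) &&
  (b5 || a4 || b1 || (a2 && b3))

lemma key : ∀ a0 a1 a2 a3 a4 a5 b0 b1 b2 b3 b4 b5 : Bool,
    cond a0 a1 a2 a3 a4 a5 b0 b1 b2 b3 b4 b5 = true →
      4 ≤ (a0.toNat + a1.toNat + a2.toNat + a3.toNat + a4.toNat + a5.toNat) +
        (b0.toNat + b1.toNat + b2.toNat + b3.toNat + b4.toNat + b5.toNat) := by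
  decide +kernel

lemma imp (x y z u v : Bool) (h : x = false → y = false → z = false → (u = true ∧ v = true)) :
    (x || y || z || (u && v)) = true := by
  revert h; revert x y z u v; decide

lemma card_eq (A : Fin 6 → Bool) : (Finset.univ.filter (fun i => A i = true)).card =
    (A 0).toNat + (A 1).toNat + (A 2).toNat + (A 3).toNat + (A 4).toNat + (A 5).toNat := by
  rw [Finset.card_filter, Fin.sum_univ_six]
  have h : ∀ b : Bool, (if b = true then 1 else 0) = b.toNat := by decide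
  simp only [h]

theorem t_hex : S_hex := by
  intro A B h
  rw [card_eq A, card_eq B]
  apply key
  have h01 : A 0 = false → B 1 = false → A 4 = false → (B 3 = true ∧ A 2 = true) := h 0 true
  have h00 : B 0 = false → A 1 = false → B 4 = false → (A 3 = true ∧ B 2 = true) := h 0 false
  have h11 : A 1 = false → B 0 = false → A 3 = false → (B 4 = true ∧ A 5 = true) := h 1 true
  have h10 : B 1 = false → A 0 = false → B 3 = false → (A 4 = true ∧ B 5 = true) := h 1 false
  have h21 : A 2 = false → B 3 = false → A 0 = false → (B 5 = true ∧ A 4 = true) := h 2 true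
  have h20 : B 2 = false → A 3 = false → B 0 = false → (A 5 = true ∧ B 4 = true) := h 2 false
  have h31 : A 3 = false → B 2 = false → A 5 = false → (B 0 = true ∧ A 1 = true) := h 3 true
  have h30 : B 3 = false → A 2 = false → B 5 = false → (A 0 = true ∧ B 1 = true) := h 3 false
  have h41 : A 4 = false → B 5 = false → A 2 = false → (B 1 = true ∧ A 0 = true) := h 4 true
  have h40 : B 4 = false → A 5 = false → B 2 = false → (A 1 = true ∧ B 0 = true) := h 4 false
  have h51 : A 5 = false → B 4 = false → A 1 = false → (B 2 = true ∧ A 3 = true) := h 5 true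
  have h50 : B 5 = false → A 4 = false → B 1 = false → (A 2 = true ∧ B 3 = true) := h 5 false
  unfold cond
  simp only [Bool.and_eq_true]
  exact ⟨⟨⟨⟨⟨⟨⟨⟨⟨⟨⟨imp _ _ _ _ _ h01, imp _ _ _ _ _ h00⟩, imp _ _ _ _ _ h11⟩, imp _ _ _ _ _ h10⟩, imp _ _ _ _ _ h21⟩, imp _ _ _ _ _ h20⟩, imp _ _ _ _ _ h31⟩, imp _ _ _ _ _ h30⟩, imp _ _ _ _ _ h41⟩, imp _ _ _ _ _ h40⟩, imp _ _ _ _ _ h51⟩, imp _ _ _ _ _ h50⟩

end Pool.Agent.H133.ZM.Hx
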