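import Pool.Agent.H133.ZM.Stm

/-!
# ZM: short counting (`S_part`)
-/

set_option autoImplicit false

open Finset

namespace Pool.Agent.H133.ZM.Pt

theorem t_part : Pool.Agent.H133.ZM.S_part := by
  intro V _ X f c hc
  rcases X.eq_empty_or_nonempty with hX0 | ⟨v0, _⟩
  · subst hX0
    simp at hc
    simp [hc]
  have : Nonempty V := ⟨v0⟩
  obtain ⟨T, hTX, hTc⟩ := Finset.exists_subset_card_eq hc
  have hr : ∀ i ∈ T, ∃ v ∈ X, f v = i := by
    intro i hi
    have := hTX hi
    rw [mem_image] at this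
    exact this
  choose! r hr1 hr2 using hr
  set S : Finset V := T.image r with hS
  have hSX : S ⊆ X := by
    intro v hv
    rw [hS, mem_image] at hv
    obtain ⟨i, hi, rfl⟩ := hv
    exact hr1 i hi
  have hinj : ∀ x ∈ S, ∀ y ∈ S, f x = f y → x = y := by
    intro x hx y hy hxy
    rw [hS, mem_image] at hx hy
    obtain ⟨i, hi, rfl⟩ := hx
    obtain ⟨j, hj, rfl⟩ := hy
    rw [hr2 i hi, hr2 j hj] at hxy
    rw [hxy]
  have hSc : S.card = c := by
    rw [hS, card_image_of_injOn, hTc]
    intro i hi j hj hij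
    have h1 := hr2 i hi
    have h2 := hr2 j hj
    change r i = r j at hij
    rw [hij] at h1
    omega
  have hcX : c ≤ X.card := by
    rw [← hSc]
    exact card_le_card hSX
  -- every vertex differs from at least `c - 1` representatives
  have key : ∀ x : V, c - 1 ≤ ∑ y ∈ S, (if f x ≠ f y then 1 else 0) := by
    intro x
    rw [← card_filter]
    have h1 : (S.filter (fun y => ¬ f x ≠ f y)).card ≤ 1 := by
      rw [card_le_one]
      intro y hy z hz
      rw [mem_filter, not_not] at hy hz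
      exact hinj y hy.1 z hz.1 (by rw [← hy.2, hz.2])
    have h2 := card_filter_add_card_filter_not (s := S) (fun y => f x ≠ f y)
    omega
  have key' : ∀ x : V, c - 1 ≤ ∑ y ∈ S, (if f y ≠ f x then 1 else 0) := by
    intro x
    refine (key x).trans (le_of_eq (sum_congr rfl fun y _ => ?_))
    by_cases h : f x = f y
    · rw [if_neg (by simpa using h), if_neg (by simpa using h.symm)]
    · rw [if_pos h, if_pos (fun h' => h h'.symm)]
  have hD : ((X ×ˢ X).filter (fun p => f p.1 ≠ f p.2)).card =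
      ∑ x ∈ X, ∑ y ∈ X, (if f x ≠ f y then 1 else 0) := by
    rw [card_filter, sum_product]
  rw [hD, ← sum_sdiff hSX]
  have e1 : ∑ x ∈ X \ S, ∑ y ∈ S, (if f x ≠ f y then 1 else 0) ≤
      ∑ x ∈ X \ S, ∑ y ∈ X, (if f x ≠ f y then 1 else 0) := by
    refine sum_le_sum fun x _ => ?_
    exact sum_le_sum_of_subset hSX
  have e2 : (X \ S).card * (c - 1) ≤ ∑ x ∈ X \ S, ∑ y ∈ S, (if f x ≠ f y then 1 else 0) := by
    rw [← smul_eq_mul, ← sum_const]
    exact sum_le_sum fun x _ => key x
  have e3 : ∑ x ∈ S, ∑ y ∈ X, (if f x ≠ f y then 1 else 0) =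
      ∑ y ∈ X, ∑ x ∈ S, (if f x ≠ f y then 1 else 0) := sum_comm
  have e4 : X.card * (c - 1) ≤ ∑ y ∈ X, ∑ x ∈ S, (if f x ≠ f y then 1 else 0) := by
    rw [← smul_eq_mul, ← sum_const]
    exact sum_le_sum fun x _ => key' x
  have e5 : (X \ S).card = X.card - c := by rw [card_sdiff_of_subset hSX, hSc]
  have e6 : (c - 1) * (2 * X.card - c) = (X.card - c) * (c - 1) + X.card * (c - 1) := by
    rw [← add_mul, mul_comm]
    congr 1
    omega
  rw [e6, e3]
  rw [e5] at e2
  exact add_le_add (e2.trans e1) e4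

end Pool.Agent.H133.ZM.Pt
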