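import Pool.Agent.H133.ZM.Stm

set_option autoImplicit false

/-!
# The additive structure theorem (task ZM/S2)
-/

namespace Pool.Agent.H133.ZM

open Finset

namespace S2L

theorem exists_two (h1 : S_beh) {ι : Type} [DecidableEq ι] (W : Finset ι) (w : ι → ℕ)
    (hw : ∀ e ∈ W, 1 ≤ w e) (hs : ∑ e ∈ W, w e + 2 ≤ 2 * W.card)
    (hsub : ∀ k ≤ ∑ e ∈ W, w e, ∃ F ⊆ W, ∑ e ∈ F, w e = k) (u : ℕ) (hu : 2 ≤ u)
    (hus : u ≤ ∑ e ∈ W, w e) : ∃ F ⊆ W, ∑ e ∈ F, w e = u ∧ 2 ≤ F.card := by
  have key : ∃ F ⊆ W, (∀ e ∈ F, w e ≠ u) ∧ ∑ e ∈ F, w e = u := by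
    by_cases hμ : W.filter (fun e => w e = u) = ∅
    · obtain ⟨F, hF, hFu⟩ := hsub u hus
      refine ⟨F, hF, fun e he h => ?_, hFu⟩
      have : e ∈ W.filter (fun e => w e = u) := Finset.mem_filter.2 ⟨hF he, h⟩
      rw [hμ] at this
      exact absurd this (Finset.notMem_empty e)
    · have hμ1 : 1 ≤ (W.filter (fun e => w e = u)).card :=
        Finset.card_pos.2 (Finset.nonempty_iff_ne_empty.2 hμ)
      have hcard : (W.filter (fun e => w e = u)).card + (W.filter (fun e => ¬ w e = u)).card =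
          W.card := Finset.card_filter_add_card_filter_not (fun e => w e = u)
      have hsum := Finset.sum_filter_add_sum_filter_not W (fun e => w e = u) w
      have hsum1 : ∑ e ∈ W.filter (fun e => w e = u), w e =
          (W.filter (fun e => w e = u)).card * u := by
        rw [Finset.sum_congr rfl (fun e he => (Finset.mem_filter.1 he).2), Finset.sum_const,
          smul_eq_mul]
      have hW' : (W.filter (fun e => ¬ w e = u)).card ≤
          ∑ e ∈ W.filter (fun e => ¬ w e = u), w e := by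
        rw [Finset.card_eq_sum_ones]
        exact Finset.sum_le_sum (fun e he => hw e (Finset.mem_filter.1 he).1)
      rw [hsum1] at hsum
      generalize (W.filter (fun e => w e = u)).card = μ at hμ1 hcard hsum
      generalize hk' : (W.filter (fun e => ¬ w e = u)).card = k' at hcard hW'
      generalize hS' : ∑ e ∈ W.filter (fun e => ¬ w e = u), w e = S' at hsum hW'
      obtain ⟨μ', rfl⟩ : ∃ μ', μ = μ' + 1 := ⟨μ - 1, by omega⟩
      obtain ⟨u', rfl⟩ : ∃ u', u = u' + 2 := ⟨u - 2, by omega⟩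
      rw [← hsum, ← hcard] at hs
      have e1 : (μ' + 1) * (u' + 2) = μ' * u' + u' + 2 * μ' + 2 := by ring
      rw [e1] at hs
      obtain ⟨F, hF, hFu⟩ := h1 ι (W.filter (fun e => ¬ w e = u' + 2)) w
        (fun e he => hw e (Finset.mem_filter.1 he).1) (by rw [hk', hS']; omega) (u' + 2)
        (by rw [hS']; omega)
      exact ⟨F, fun e he => (Finset.mem_filter.1 (hF he)).1,
        fun e he => (Finset.mem_filter.1 (hF he)).2, hFu⟩
  obtain ⟨F, hF, hne, hFu⟩ := key
  refine ⟨F, hF, hFu, ?_⟩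
  by_contra hcon
  have hc : F.card = 0 ∨ F.card = 1 := by omega
  rcases hc with hc | hc
  · rw [Finset.card_eq_zero] at hc
    rw [hc, Finset.sum_empty] at hFu
    omega
  · obtain ⟨e, he⟩ := Finset.card_eq_one.1 hc
    rw [he, Finset.sum_singleton] at hFu
    exact hne e (by rw [he]; exact Finset.mem_singleton_self e) hFu

theorem exists_J0 {ι : Type} [DecidableEq ι] (J : Finset ι) (j : ι → ℕ) (z : ℕ)
    (hj : ∀ e ∈ J, 1 ≤ j e ∧ j e ≤ z) (hz : z + 1 ≤ ∑ e ∈ J, j e) :
    ∃ J0 ⊆ J, ∃ c' j0 : ℕ, J0.card = c' + 1 ∧ 1 ≤ c' ∧ 1 ≤ j0 ∧ j0 ≤ z ∧ z + 1 ≤ ∑ e ∈ J0, j e ∧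
      ∑ e ∈ J0, j e ≤ z + j0 ∧ c' * j0 ≤ z := by
  obtain ⟨J0, hJ0, hmin⟩ := Finset.exists_min_image
    (J.powerset.filter (fun F => z + 1 ≤ ∑ e ∈ F, j e)) Finset.card
    ⟨J, Finset.mem_filter.2 ⟨Finset.mem_powerset_self J, hz⟩⟩
  rw [Finset.mem_filter, Finset.mem_powerset] at hJ0
  have hne : J0.Nonempty := by
    rw [Finset.nonempty_iff_ne_empty]
    intro h
    have := hJ0.2
    rw [h, Finset.sum_empty] at this
    omega
  obtain ⟨e0, he0, hmin0⟩ := Finset.exists_min_image J0 j hne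
  have hsplit : j e0 + ∑ e ∈ J0.erase e0, j e = ∑ e ∈ J0, j e := Finset.add_sum_erase J0 j he0
  have hcard : (J0.erase e0).card + 1 = J0.card := Finset.card_erase_add_one he0
  have hle : ∑ e ∈ J0.erase e0, j e ≤ z := by
    by_contra hcon
    have h1 := hmin (J0.erase e0) (Finset.mem_filter.2 ⟨Finset.mem_powerset.2
      ((Finset.erase_subset e0 J0).trans hJ0.1), by omega⟩)
    omega
  have hlow : (J0.erase e0).card * j e0 ≤ ∑ e ∈ J0.erase e0, j e := by
    rw [← smul_eq_mul]
    exact Finset.card_nsmul_le_sum _ _ _ fun e he => hmin0 e (Finset.mem_of_mem_erase he)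
  have hb := hj e0 (hJ0.1 he0)
  refine ⟨J0, hJ0.1, (J0.erase e0).card, j e0, hcard.symm, ?_, hb.1, hb.2, hJ0.2, by omega,
    hlow.trans hle⟩
  by_contra hcon
  have h0 : (J0.erase e0).card = 0 := by omega
  rw [Finset.card_eq_zero] at h0
  rw [h0, Finset.sum_empty] at hsplit
  have := hJ0.2
  omega

theorem unit_of_order {m : ℕ} [NeZero m] (g : ZMod m) (h : addOrderOf g = m) : IsUnit g := by
  have hm : 0 < m := Nat.pos_of_ne_zero (NeZero.ne m)
  have h1 : addOrderOf ((g.val : ℕ) : ZMod m) = m / m.gcd g.val :=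
    ZMod.addOrderOf_coe g.val (NeZero.ne m)
  rw [ZMod.natCast_zmod_val, h] at h1
  have h2 : m.gcd g.val ∣ m := Nat.gcd_dvd_left _ _
  have h3 : m.gcd g.val = 1 := by
    have h4 := Nat.div_mul_cancel h2
    rw [← h1] at h4
    exact Nat.eq_of_mul_eq_mul_left hm (by rw [h4, mul_one])
  have h5 : IsUnit ((g.val : ℕ) : ZMod m) := (ZMod.isUnit_iff_coprime g.val m).2
    (Nat.Coprime.symm h3)
  rwa [ZMod.natCast_zmod_val] at h5

theorem core (h1 : S_beh) (h2 : S_smooth) (h3 : S_gao) (m : ℕ) [NeZero m] (hm : 3 ≤ m) {ι : Type}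
    [DecidableEq ι] (M : Finset ι) (c : ι → ZMod m) (hNZ : NZ m M c) (hL : LL m ≤ M.card)
    (hmax : ∀ x, mu M c x ≤ mu M c 0) : ∃ g, Nrm m M c 0 g := by
  classical
  obtain ⟨R, hR⟩ : ∃ R : Finset ι, R = M.filter (fun e => ¬ c e = 0) := ⟨_, rfl⟩
  have hRM : R ⊆ M := by
    rw [hR]
    exact Finset.filter_subset _ _
  have hRc : ∀ e ∈ R, c e ≠ 0 := by
    intro e he
    rw [hR] at he
    exact (Finset.mem_filter.1 he).2
  have hcardM : mu M c 0 + R.card = M.card := by
    rw [hR]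
    exact Finset.card_filter_add_card_filter_not (fun e => c e = 0)
  obtain ⟨U, hU, hUmax⟩ := Finset.exists_max_image
    (R.powerset.filter (fun F => ∑ e ∈ F, c e = 0)) Finset.card
    ⟨∅, Finset.mem_filter.2 ⟨Finset.empty_mem_powerset R, Finset.sum_empty⟩⟩
  rw [Finset.mem_filter, Finset.mem_powerset] at hU
  obtain ⟨hUR, hU0⟩ := hU
  obtain ⟨W, hW⟩ : ∃ W : Finset ι, W = R \ U := ⟨_, rfl⟩
  have hWR : W ⊆ R := by
    rw [hW]
    exact Finset.sdiff_subset
  have hWcard : W.card + U.card = R.card := by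
    rw [hW]
    exact Finset.card_sdiff_add_card_eq_card hUR
  have swap : ∀ F ⊆ U, ∀ W1 ⊆ W, ∑ e ∈ F, c e = ∑ e ∈ W1, c e → W1.card ≤ F.card := by
    intro F hF W1 hW1 hsum
    have hdisj : Disjoint (U \ F) W1 := by
      rw [Finset.disjoint_left]
      intro e he he'
      have := hW1 he'
      rw [hW, Finset.mem_sdiff] at this
      exact this.2 (Finset.mem_sdiff.1 he).1
    have h4 := hUmax ((U \ F) ∪ W1) (by
      rw [Finset.mem_filter, Finset.mem_powerset]
      refine ⟨Finset.union_subset (Finset.sdiff_subset.trans hUR) (hW1.trans hWR), ?_⟩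
      rw [Finset.sum_union hdisj, ← hsum, Finset.sum_sdiff hF]
      exact hU0)
    rw [Finset.card_union_of_disjoint hdisj] at h4
    have h5 := Finset.card_sdiff_add_card_eq_card hF
    omega
  have hgao : U.card + mu M c 0 + 1 ≤ m :=
    h3 m ι M c hNZ hmax U (hUR.trans hRM) (fun e he => hRc e (hUR he)) hU0
  have hZF : ZF W c := by
    intro F hF hne h0
    have := swap ∅ (Finset.empty_subset _) F hF (by rw [h0, Finset.sum_empty])
    rw [Finset.card_empty] at this
    have := Finset.card_pos.2 hne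
    omega
  unfold LL at hL
  have hk : m + 1 ≤ 2 * W.card := by omega
  have hSg : (Sg W c).card + 1 ≤ 2 * W.card := by
    have : (Sg W c).card ≤ m := by
      have := Finset.card_le_univ (Sg W c)
      rwa [ZMod.card] at this
    omega
  obtain ⟨g, w, hw, hs, hsub⟩ := h2 m ι W c hZF hSg
  obtain ⟨s, hsdef⟩ : ∃ s : ℕ, s = ∑ e ∈ W, w e := ⟨_, rfl⟩
  rw [← hsdef] at hs hsub
  have hsk : W.card ≤ s := by
    rw [hsdef, Finset.card_eq_sum_ones]
    exact Finset.sum_le_sum fun e he => (hw e he).1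
  have hord : addOrderOf g = m := by
    have h4 : addOrderOf g ∣ m := by
      have := addOrderOf_dvd_card (x := g)
      rwa [ZMod.card] at this
    obtain ⟨t, ht⟩ := h4
    have ht0 : t ≠ 0 := by
      rintro rfl
      omega
    rcases Nat.lt_or_ge t 2 with h | h
    · have : t = 1 := by omega
      rw [this, mul_one] at ht
      exact ht.symm
    · have h5 : addOrderOf g * 2 ≤ addOrderOf g * t := Nat.mul_le_mul_left _ h
      omega
  have hg : IsUnit g := unit_of_order g hord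
  rw [hord] at hs
  obtain ⟨gu, hgu⟩ := hg
  obtain ⟨ρ, hρ⟩ : ∃ ρ : ι → ℕ, ρ = fun e => ((gu⁻¹ : (ZMod m)ˣ) * c e : ZMod m).val := ⟨_, rfl⟩
  have hρm : ∀ e, ρ e < m := by
    intro e
    rw [hρ]
    exact ZMod.val_lt _
  have hρc : ∀ e, c e = (ρ e : ZMod m) * g := by
    intro e
    rw [hρ]
    change c e = ((((gu⁻¹ : (ZMod m)ˣ) * c e : ZMod m).val : ℕ) : ZMod m) * g
    rw [ZMod.natCast_zmod_val, ← hgu, mul_comm, ← mul_assoc, Units.mul_inv, one_mul]
  have hginj : ∀ x y : ZMod m, x * g = y * g → x = y := by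
    intro x y h
    rw [← hgu] at h
    exact (Units.mul_left_inj gu).1 h
  have hρ0 : ∀ e, c e = 0 ↔ ρ e = 0 := by
    intro e
    constructor
    · intro h
      rw [hρ]
      change ((gu⁻¹ : (ZMod m)ˣ) * c e : ZMod m).val = 0
      rw [h, mul_zero, ZMod.val_zero]
    · intro h
      rw [hρc e, h, Nat.cast_zero, zero_mul]
  have hρW : ∀ e ∈ W, ρ e = w e := by
    intro e he
    have h4 : ((ρ e : ℕ) : ZMod m) = ((w e : ℕ) : ZMod m) := by
      apply hginj
      rw [← hρc e]
      exact (hw e he).2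
    have h5 : w e ≤ s := by
      rw [hsdef]
      exact Finset.single_le_sum (fun i _ => Nat.zero_le (w i)) he
    have h6 := (ZMod.natCast_eq_natCast_iff' _ _ _).1 h4
    rwa [Nat.mod_eq_of_lt (hρm e), Nat.mod_eq_of_lt (by omega)] at h6
  have hsumρ : ∀ F : Finset ι, ∑ e ∈ F, c e = ((∑ e ∈ F, ρ e : ℕ) : ZMod m) * g := by
    intro F
    rw [Nat.cast_sum, Finset.sum_mul]
    exact Finset.sum_congr rfl fun e _ => hρc e
  have hsumW : ∀ F ⊆ W, ∑ e ∈ F, c e = ((∑ e ∈ F, w e : ℕ) : ZMod m) * g := by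
    intro F hF
    rw [hsumρ]
    congr 2
    exact Finset.sum_congr rfl fun e he => hρW e (hF he)
  have hUρ : ∀ e ∈ U, 1 ≤ ρ e := by
    intro e he
    have := hRc e (hUR he)
    rw [Ne, hρ0] at this
    omega
  -- (a)
  have ha : ∀ e ∈ U, ρ e = 1 ∨ s < ρ e := by
    intro e he
    by_contra hcon
    push Not at hcon
    have h0 := hUρ e he
    obtain ⟨W1, hW1, hsum1, hcard1⟩ := exists_two h1 W w (fun e he => (hw e he).1)
      (by rw [← hsdef]; omega) (by rw [← hsdef]; exact hsub) (ρ e) (by omega)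
      (by rw [← hsdef]; exact hcon.2)
    have h4 := swap {e} (Finset.singleton_subset_iff.2 he) W1 hW1 (by
      rw [Finset.sum_singleton, hsumW W1 hW1, hsum1]
      exact hρc e)
    rw [Finset.card_singleton] at h4
    omega
  -- (b)
  obtain ⟨J, hJ⟩ : ∃ J : Finset ι, J = U.filter (fun e => ¬ ρ e = 1) := ⟨_, rfl⟩
  have hJU : J ⊆ U := by
    rw [hJ]
    exact Finset.filter_subset _ _
  have hJs : ∀ e ∈ J, s < ρ e := by
    intro e he
    rw [hJ, Finset.mem_filter] at he
    exact (ha e he.1).resolve_left he.2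
  obtain ⟨j, hj⟩ : ∃ j : ι → ℕ, j = fun e => m - ρ e := ⟨_, rfl⟩
  have hjρ : ∀ e, j e + ρ e = m := by
    intro e
    rw [hj]
    have := hρm e
    change m - ρ e + ρ e = m
    omega
  have hsumJ : ∀ F : Finset ι, ∑ e ∈ F, c e = -(((∑ e ∈ F, j e : ℕ) : ZMod m) * g) := by
    intro F
    rw [hsumρ F, ← neg_mul]
    congr 1
    rw [Nat.cast_sum, Nat.cast_sum, ← Finset.sum_neg_distrib]
    refine Finset.sum_congr rfl fun e _ => ?_
    have h4 := congrArg (Nat.cast : ℕ → ZMod m) (hjρ e)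
    rw [Nat.cast_add, ZMod.natCast_self] at h4
    exact (eq_neg_of_add_eq_zero_right h4)
  have hb : ∑ e ∈ J, j e + s + 1 ≤ m := by
    by_contra hcon
    obtain ⟨J0, hJ0, c', j0, k1, k2, k3, k4, k5, k6, k7⟩ := exists_J0 J j (m - s - 1) (by
      intro e he
      have q1 := hJs e he
      have q2 := hjρ e
      have q3 := hρm e
      omega) (by omega)
    obtain ⟨x, hx⟩ : ∃ x : ℕ, x = ∑ e ∈ J0, j e := ⟨_, rfl⟩
    rw [← hx] at k5 k6
    have hxm : x ≤ m := by omega
    obtain ⟨W1, hW1, hsum1⟩ := hsub (m - x) (by omega)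
    have h4 := swap J0 (hJ0.trans hJU) W1 hW1 (by
      rw [hsumJ J0, hsumW W1 hW1, hsum1, ← hx, Nat.cast_sub hxm, ZMod.natCast_self]
      ring)
    have h5 : ∑ e ∈ W1, w e + W.card ≤ W1.card + s := by
      have e1 : ∑ e ∈ W \ W1, w e + ∑ e ∈ W1, w e = ∑ e ∈ W, w e := Finset.sum_sdiff hW1
      have e2 : (W \ W1).card ≤ ∑ e ∈ W \ W1, w e := by
        rw [Finset.card_eq_sum_ones]
        exact Finset.sum_le_sum fun e he => (hw e (Finset.mem_sdiff.1 he).1).1
      have e3 := Finset.card_sdiff_add_card_eq_card hW1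
      omega
    have h6 : c' + j0 ≤ c' * j0 + 1 := by
      obtain ⟨c'', rfl⟩ : ∃ c'', c' = c'' + 1 := ⟨c' - 1, by omega⟩
      obtain ⟨j', rfl⟩ : ∃ j', j0 = j' + 1 := ⟨j0 - 1, by omega⟩
      have : (c'' + 1) * (j' + 1) = c'' * j' + c'' + j' + 1 := by ring
      rw [this]
      have := Nat.zero_le (c'' * j')
      omega
    rw [k1] at h4
    omega
  -- (c)
  have hUsplit : (U.filter (fun e => ρ e = 1)).card + J.card = U.card := by
    rw [hJ]
    exact Finset.card_filter_add_card_filter_not (fun e => ρ e = 1)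
  have hp : (U.filter (fun e => ρ e = 1)).card = ∑ e ∈ J, j e := by
    have h4 := Finset.sum_filter_add_sum_filter_not U (fun e => ρ e = 1) c
    rw [← hJ, hU0, hsumJ J, hsumρ (U.filter (fun e => ρ e = 1)),
      Finset.sum_congr rfl (fun e he => (Finset.mem_filter.1 he).2), Finset.sum_const, smul_eq_mul,
      mul_one, add_neg_eq_zero] at h4
    have h5 := (ZMod.natCast_eq_natCast_iff' _ _ _).1 (hginj _ _ h4)
    rwa [Nat.mod_eq_of_lt (by omega), Nat.mod_eq_of_lt (by omega)] at h5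
  -- the normal form
  refine ⟨g, ⟨gu, hgu⟩, fun x => if ((gu⁻¹ : (ZMod m)ˣ) * x : ZMod m).val ≤ s then
    ((((gu⁻¹ : (ZMod m)ˣ) * x : ZMod m).val : ℕ) : ℤ) else
    ((((gu⁻¹ : (ZMod m)ˣ) * x : ZMod m).val : ℕ) : ℤ) - m, ?_⟩
  have hv : ∀ e, (if ((gu⁻¹ : (ZMod m)ˣ) * c e : ZMod m).val ≤ s then
    ((((gu⁻¹ : (ZMod m)ˣ) * c e : ZMod m).val : ℕ) : ℤ) else
    ((((gu⁻¹ : (ZMod m)ˣ) * c e : ZMod m).val : ℕ) : ℤ) - m) =
      if ρ e ≤ s then (ρ e : ℤ) else (ρ e : ℤ) - m := by
    intro e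
    rw [hρ]
  simp only [hv]
  have hvW : ∀ e ∈ W, (if ρ e ≤ s then (ρ e : ℤ) else (ρ e : ℤ) - m) = w e := by
    intro e he
    have h5 : w e ≤ s := by
      rw [hsdef]
      exact Finset.single_le_sum (fun i _ => Nat.zero_le (w i)) he
    rw [hρW e he, if_pos h5]
  have hvJ : ∀ e ∈ J, (if ρ e ≤ s then (ρ e : ℤ) else (ρ e : ℤ) - m) = -(j e : ℤ) := by
    intro e he
    have h5 := hJs e he
    have h6 := hjρ e
    rw [if_neg (by omega)]
    omega
  have hvU : ∀ e ∈ U.filter (fun e => ρ e = 1),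
      (if ρ e ≤ s then (ρ e : ℤ) else (ρ e : ℤ) - m) = 1 := by
    intro e he
    rw [(Finset.mem_filter.1 he).2, if_pos (by omega)]
    rfl
  have hvZ : ∀ e ∈ M.filter (fun e => c e = 0),
      (if ρ e ≤ s then (ρ e : ℤ) else (ρ e : ℤ) - m) = 0 := by
    intro e he
    rw [(hρ0 e).1 (Finset.mem_filter.1 he).2, if_pos (by omega)]
    rfl
  have hmem : ∀ e ∈ M, e ∈ M.filter (fun e => c e = 0) ∨ e ∈ J ∨
      e ∈ U.filter (fun e => ρ e = 1) ∨ e ∈ W := by
    intro e he
    by_cases h0 : c e = 0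
    · exact Or.inl (Finset.mem_filter.2 ⟨he, h0⟩)
    · have heR : e ∈ R := by
        rw [hR]
        exact Finset.mem_filter.2 ⟨he, h0⟩
      by_cases hUe : e ∈ U
      · by_cases h1' : ρ e = 1
        · exact Or.inr (Or.inr (Or.inl (Finset.mem_filter.2 ⟨hUe, h1'⟩)))
        · exact Or.inr (Or.inl (by rw [hJ]; exact Finset.mem_filter.2 ⟨hUe, h1'⟩))
      · exact Or.inr (Or.inr (Or.inr (by rw [hW]; exact Finset.mem_sdiff.2 ⟨heR, hUe⟩)))
  have hJ1 : ∀ e ∈ J, 1 ≤ j e := by
    intro e he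
    have h6 := hjρ e
    have h7 := hρm e
    omega
  refine ⟨?_, ?_, ?_⟩
  · intro e _
    rw [zero_add]
    by_cases h : ρ e ≤ s
    · rw [if_pos h, Int.cast_natCast, mul_comm]
      exact hρc e
    · rw [if_neg h, Int.cast_sub, Int.cast_natCast, Int.cast_natCast, ZMod.natCast_self, sub_zero,
        mul_comm]
      exact hρc e
  · have hset : M.filter (fun e => 1 ≤ (if ρ e ≤ s then (ρ e : ℤ) else (ρ e : ℤ) - m)) =
        U.filter (fun e => ρ e = 1) ∪ W := by
      ext e
      rw [Finset.mem_filter, Finset.mem_union]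
      constructor
      · rintro ⟨he, h4⟩
        rcases hmem e he with h | h | h | h
        · rw [hvZ e h] at h4
          omega
        · rw [hvJ e h] at h4
          have := hJ1 e h
          omega
        · exact Or.inl h
        · exact Or.inr h
      · rintro (h | h)
        · refine ⟨hRM (hUR (Finset.mem_filter.1 h).1), ?_⟩
          rw [hvU e h]
        · refine ⟨hRM (hWR h), ?_⟩
          rw [hvW e h]
          have := (hw e h).1
          omega
    have hdisj : Disjoint (U.filter (fun e => ρ e = 1)) W := by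
      rw [Finset.disjoint_left]
      intro e he he'
      rw [hW, Finset.mem_sdiff] at he'
      exact he'.2 (Finset.mem_filter.1 he).1
    rw [hset, Finset.sum_union hdisj, Finset.sum_congr rfl hvU, Finset.sum_congr rfl hvW,
      Finset.sum_const, ← Nat.cast_sum, ← hsdef, hp]
    simp only [nsmul_eq_mul, mul_one]
    omega
  · have hset : M.filter (fun e => (if ρ e ≤ s then (ρ e : ℤ) else (ρ e : ℤ) - m) ≤ 0) =
        M.filter (fun e => c e = 0) ∪ J := by
      ext e
      rw [Finset.mem_filter, Finset.mem_union]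
      constructor
      · rintro ⟨he, h4⟩
        rcases hmem e he with h | h | h | h
        · exact Or.inl h
        · exact Or.inr h
        · rw [hvU e h] at h4
          omega
        · rw [hvW e h] at h4
          have := (hw e h).1
          omega
      · rintro (h | h)
        · refine ⟨(Finset.mem_filter.1 h).1, ?_⟩
          rw [hvZ e h]
        · refine ⟨hRM (hUR (hJU h)), ?_⟩
          rw [hvJ e h]
          omega
    have hdisj : Disjoint (M.filter (fun e => c e = 0)) J := by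
      rw [Finset.disjoint_left]
      intro e he he'
      exact hRc e (hUR (hJU he')) (Finset.mem_filter.1 he).2
    have hZc : (M.filter (fun e => c e = 0)).card = mu M c 0 := rfl
    rw [hset, Finset.sum_union hdisj,
      Finset.sum_congr rfl (fun e he => by rw [hvZ e he] :
        ∀ e ∈ M.filter (fun e => c e = 0), (1 - (if ρ e ≤ s then (ρ e : ℤ) else (ρ e : ℤ) - m)) = 1 - 0),
      Finset.sum_congr rfl (fun e he => by rw [hvJ e he]; ring :
        ∀ e ∈ J, (1 - (if ρ e ≤ s then (ρ e : ℤ) else (ρ e : ℤ) - m)) = 1 + (j e : ℤ)),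
      Finset.sum_const, Finset.sum_add_distrib, Finset.sum_const, ← Nat.cast_sum, hZc, ← hp]
    simp only [nsmul_eq_mul, mul_one, sub_zero]
    omega

end S2L

open S2L in
theorem t_S2 (h1 : S_beh) (h2 : S_smooth) (h3 : S_gao) : S_S2 := by
  intro m hm ι _ M c hNZ hL
  have : NeZero m := ⟨by omega⟩
  obtain ⟨a0, -, ha0⟩ := Finset.exists_max_image (Finset.univ : Finset (ZMod m)) (fun x => mu M c x)
    ⟨0, Finset.mem_univ _⟩
  have hmu : ∀ x, mu M (fun e => c e - a0) x = mu M c (x + a0) := by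
    intro x
    unfold mu
    congr 1
    refine Finset.filter_congr fun e _ => ?_
    constructor
    · intro h
      have h' : c e - a0 = x := h
      rw [← h']
      ring
    · intro h
      have h' : c e = x + a0 := h
      change c e - a0 = x
      rw [h']
      ring
  have hNZ' : NZ m M (fun e => c e - a0) := by
    intro F hF hc h0
    rw [Finset.sum_sub_distrib, Finset.sum_const, hc, nsmul_eq_mul, ZMod.natCast_self, zero_mul,
      sub_zero] at h0
    exact hNZ F hF hc h0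
  obtain ⟨g, hg, v, hv1, hv2, hv3⟩ := core h1 h2 h3 m hm M (fun e => c e - a0) hNZ' hL (by
    intro x
    rw [hmu, hmu, zero_add]
    exact ha0 _ (Finset.mem_univ _))
  refine ⟨a0, g, hg, fun x => v (x - a0), ?_, hv2, hv3⟩
  intro e he
  have := hv1 e he
  rw [zero_add] at this
  rw [← this]
  ring

end Pool.Agent.H133.ZM
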