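import Pool.Agent.H133.ZM.Stm

/-! The theorem on zero-sum free sequences with few subset sums. -/

set_option autoImplicit false

namespace Pool.Agent.H133.ZM.Sm

open Finset Pool.Agent.H133.ZM

variable {ι : Type} [DecidableEq ι] {m : ℕ} {B : Finset ι} {c : ι → ZMod m}

omit [DecidableEq ι] in
theorem mem_Sg {x : ZMod m} : x ∈ Sg B c ↔ ∃ F ⊆ B, ∑ e ∈ F, c e = x := by
  unfold Sg
  rw [mem_image]
  constructor
  · rintro ⟨F, hF, h⟩
    exact ⟨F, mem_powerset.1 hF, h⟩
  · rintro ⟨F, hF, h⟩
    exact ⟨F, mem_powerset.2 hF, h⟩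

omit [DecidableEq ι] in
theorem Sg_mono {B' : Finset ι} (h : B' ⊆ B) : Sg B' c ⊆ Sg B c := by
  intro x hx
  obtain ⟨F, hF, hs⟩ := mem_Sg.1 hx
  exact mem_Sg.2 ⟨F, hF.trans h, hs⟩

omit [DecidableEq ι] in
theorem zero_mem : (0 : ZMod m) ∈ Sg B c := mem_Sg.2 ⟨∅, empty_subset _, sum_empty⟩

omit [DecidableEq ι] in
theorem tot_mem : ∑ x ∈ B, c x ∈ Sg B c := mem_Sg.2 ⟨B, Subset.refl _, rfl⟩

omit [DecidableEq ι] in
theorem zf_sub {B' : Finset ι} (h : ZF B c) (hs : B' ⊆ B) : ZF B' c :=
  fun F hF hne => h F (hF.trans hs) hne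

theorem add_mem {e : ι} (he : e ∈ B) {x : ZMod m} (hx : x ∈ Sg (B.erase e) c) : x + c e ∈ Sg B c := by
  obtain ⟨F, hF, hs⟩ := mem_Sg.1 hx
  have heF : e ∉ F := fun h' => (mem_erase.1 (hF h')).1 rfl
  refine mem_Sg.2 ⟨insert e F, insert_subset he (hF.trans (erase_subset _ _)), ?_⟩
  rw [sum_insert heF, hs, add_comm]

theorem neg_notMem (h : ZF B c) {e : ι} (he : e ∈ B) : -c e ∉ Sg (B.erase e) c := by
  intro hx
  obtain ⟨F, hF, hs⟩ := mem_Sg.1 hx
  have heF : e ∉ F := fun h' => (mem_erase.1 (hF h')).1 rfl
  refine h (insert e F) (insert_subset he (hF.trans (erase_subset _ _))) (insert_nonempty _ _) ?_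
  rw [sum_insert heF, hs, add_neg_cancel]

theorem tot_notMem (h : ZF B c) {e : ι} (he : e ∈ B) : ∑ x ∈ B, c x ∉ Sg (B.erase e) c := by
  intro hx
  obtain ⟨F, hF, hs⟩ := mem_Sg.1 hx
  refine neg_notMem h he (mem_Sg.2 ⟨B.erase e \ F, sdiff_subset, ?_⟩)
  have h1 := sum_sdiff hF (f := c)
  have h2 := add_sum_erase B c he
  linear_combination h1 - hs + h2

theorem sub_erase (h : ZF B c) {e : ι} (he : e ∈ B) :
    Sg (B.erase e) c ⊆ (Sg B c).erase (∑ x ∈ B, c x) := by
  intro x hx
  refine mem_erase.2 ⟨fun h' => tot_notMem h he (h' ▸ hx), Sg_mono (erase_subset _ _) hx⟩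

theorem card_succ_le (h : ZF B c) {e : ι} (he : e ∈ B) :
    (Sg (B.erase e) c).card + 1 ≤ (Sg B c).card := by
  have h1 := card_le_card (sub_erase h he)
  rw [card_erase_of_mem tot_mem] at h1
  have h2 : 0 < (Sg B c).card := card_pos.2 ⟨_, tot_mem⟩
  omega

theorem card_lower (n : ℕ) : ∀ B : Finset ι, B.card = n → ZF B c → B.card + 1 ≤ (Sg B c).card := by
  induction n with
  | zero =>
    intro B hB _
    have h2 : 0 < (Sg B c).card := card_pos.2 ⟨_, tot_mem⟩
    omega
  | succ n ih =>
    intro B hB h
    obtain ⟨e, he⟩ : B.Nonempty := card_pos.1 (by omega)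
    have h1 := card_erase_of_mem he
    have h2 := ih (B.erase e) (by omega) (zf_sub h (erase_subset _ _))
    have h3 := card_succ_le h he
    omega

/-- a term which adds only one sum -/
theorem one_term (h : ZF B c) {e : ι} (he : e ∈ B)
    (h1 : (Sg B c).card ≤ (Sg (B.erase e) c).card + 1) :
    Sg (B.erase e) c = (Sg B c).erase (∑ x ∈ B, c x) ∧
      (Sg (B.erase e) c).image (fun x => x + c e) = (Sg B c).erase 0 := by
  have hc0 : ((Sg B c).erase (∑ x ∈ B, c x)).card = (Sg B c).card - 1 := card_erase_of_mem tot_mem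
  have hc1 : ((Sg B c).erase 0).card = (Sg B c).card - 1 := card_erase_of_mem zero_mem
  refine ⟨eq_of_subset_of_card_le (sub_erase h he) (by omega), ?_⟩
  refine eq_of_subset_of_card_le ?_ ?_
  · intro y hy
    obtain ⟨x, hx, rfl⟩ := mem_image.1 hy
    refine mem_erase.2 ⟨fun h' => ?_, add_mem he hx⟩
    have : x = -c e := eq_neg_of_add_eq_zero_left h'
    exact neg_notMem h he (this ▸ hx)
  · rw [card_image_of_injective _ (add_left_injective (c e))]
    omega

/-- two such terms are equal -/
theorem one_term_eq (h : ZF B c) {e e' : ι} (he : e ∈ B) (he' : e' ∈ B)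
    (h1 : (Sg B c).card ≤ (Sg (B.erase e) c).card + 1)
    (h2 : (Sg B c).card ≤ (Sg (B.erase e') c).card + 1) : c e = c e' := by
  by_contra hne
  obtain ⟨a1, a2⟩ := one_term h he h1
  obtain ⟨b1, b2⟩ := one_term h he' h2
  have hT : Sg (B.erase e) c = Sg (B.erase e') c := a1.trans b1.symm
  -- `c e` is in `S \ 0`
  have h3 : (0 : ZMod m) + c e ∈ (Sg B c).erase 0 := by
    rw [← a2]
    exact mem_image_of_mem _ zero_mem
  rw [← b2] at h3
  obtain ⟨x, hx, hxe⟩ := mem_image.1 h3
  have hxd : x = c e - c e' := by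
    have h4 : x + c e' = 0 + c e := hxe
    linear_combination h4
  have h5 : c e - c e' ∈ (Sg B c).erase 0 := by
    refine mem_erase.2 ⟨sub_ne_zero.2 hne, ?_⟩
    rw [← hxd]
    exact Sg_mono (erase_subset _ _) hx
  rw [← a2] at h5
  obtain ⟨y, hy, hye⟩ := mem_image.1 h5
  have h6 : y = -c e' := by
    have h7 : y + c e = c e - c e' := hye
    linear_combination h7
  rw [hT, h6] at hy
  exact neg_notMem h he' hy

theorem t_smooth : S_smooth := by
  intro m _ ι _ B c
  obtain ⟨n, hn⟩ : ∃ n, B.card = n := ⟨_, rfl⟩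
  induction n generalizing B with
  | zero =>
    intro _ h
    have h2 : 0 < (Sg B c).card := card_pos.2 ⟨_, tot_mem⟩
    omega
  | succ n ih =>
    intro hZ hcard
    have hne : B.Nonempty := card_pos.1 (by omega)
    by_cases hex : ∃ e ∈ B, (Sg (B.erase e) c).card + 2 ≤ (Sg B c).card
    · obtain ⟨e, he, h2⟩ := hex
      have hce := card_erase_of_mem he
      have hZ' : ZF (B.erase e) c := zf_sub hZ (erase_subset _ _)
      obtain ⟨a, w, hw, -, hsum⟩ := ih (B.erase e) (by omega) hZ' (by omega)
      set s := ∑ x ∈ B.erase e, w x with hs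
      have hSg : ∀ x ∈ Sg (B.erase e) c, ∃ k ≤ s, x = (k : ZMod m) * a := by
        intro x hx
        obtain ⟨F, hF, hFs⟩ := mem_Sg.1 hx
        refine ⟨∑ y ∈ F, w y, sum_le_sum_of_subset hF, ?_⟩
        rw [← hFs, Nat.cast_sum, sum_mul]
        exact sum_congr rfl fun y hy => (hw y (hF hy)).2
      have hSg' : ∀ k ≤ s, (k : ZMod m) * a ∈ Sg (B.erase e) c := by
        intro k hk
        obtain ⟨F, hF, hFs⟩ := hsum k hk
        refine mem_Sg.2 ⟨F, hF, ?_⟩
        rw [← hFs, Nat.cast_sum, sum_mul]
        exact sum_congr rfl fun y hy => (hw y (hF hy)).2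
      by_cases hj : ∃ j, 1 ≤ j ∧ j ≤ s + 1 ∧ c e = (j : ZMod m) * a
      · obtain ⟨j, hj1, hj2, hj3⟩ := hj
        refine ⟨a, Function.update w e j, ?_, ?_⟩
        · intro x hx
          by_cases hxe : x = e
          · subst hxe
            rw [Function.update_self]
            exact ⟨hj1, hj3⟩
          · rw [Function.update_of_ne hxe]
            exact hw x (mem_erase.2 ⟨hxe, hx⟩)
        have hF0 : ∀ F, e ∉ F → ∑ x ∈ F, Function.update w e j x = ∑ x ∈ F, w x := by
          intro F hF
          refine sum_congr rfl fun x hx => ?_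
          rw [Function.update_of_ne]
          rintro rfl
          exact hF hx
        have htot : ∑ x ∈ B, Function.update w e j x = j + s := by
          rw [← add_sum_erase B _ he, Function.update_self, hF0 _ (notMem_erase e B)]
        have hall : ∀ k ≤ ∑ x ∈ B, Function.update w e j x, ∃ F ⊆ B, ∑ x ∈ F, Function.update w e j x = k := by
          intro k hk
          rw [htot] at hk
          by_cases hks : k ≤ s
          · obtain ⟨F, hF, hFs⟩ := hsum k hks
            refine ⟨F, hF.trans (erase_subset _ _), ?_⟩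
            rw [hF0 F fun h' => (mem_erase.1 (hF h')).1 rfl, hFs]
          · obtain ⟨F, hF, hFs⟩ := hsum (k - j) (by omega)
            have heF : e ∉ F := fun h' => (mem_erase.1 (hF h')).1 rfl
            refine ⟨insert e F, insert_subset he (hF.trans (erase_subset _ _)), ?_⟩
            rw [sum_insert heF, Function.update_self, hF0 F heF, hFs]
            omega
        refine ⟨?_, hall⟩
        by_contra hlt
        rw [not_lt] at hlt
        obtain ⟨F, hF, hFs⟩ := hall _ hlt
        have hFne : F.Nonempty := by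
          rw [nonempty_iff_ne_empty]
          rintro rfl
          rw [sum_empty] at hFs
          exact (addOrderOf_pos a).ne hFs
        refine hZ F hF hFne ?_
        have h3 : ∀ x ∈ B, c x = (Function.update w e j x : ZMod m) * a := by
          intro x hx
          by_cases hxe : x = e
          · subst hxe
            rw [Function.update_self]
            exact hj3
          · rw [Function.update_of_ne hxe]
            exact (hw x (mem_erase.2 ⟨hxe, hx⟩)).2
        rw [sum_congr rfl fun x hx => h3 x (hF hx), ← sum_mul, ← Nat.cast_sum, hFs, ← nsmul_eq_mul]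
        exact addOrderOf_nsmul_eq_zero a
      · exfalso
        -- disjointness
        have hdis : Disjoint (Sg (B.erase e) c) ((Sg (B.erase e) c).image fun x => x + c e) := by
          rw [disjoint_left]
          intro x hx hx'
          obtain ⟨y, hy, hyx⟩ := mem_image.1 hx'
          obtain ⟨k, hk, rfl⟩ := hSg x hx
          obtain ⟨k', hk', rfl⟩ := hSg y hy
          have h3 : (k' : ZMod m) * a + c e = (k : ZMod m) * a := hyx
          rcases lt_or_ge k' k with hlt | hge
          · refine hj ⟨k - k', by omega, by omega, ?_⟩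
            rw [Nat.cast_sub hlt.le]
            linear_combination h3
          · refine neg_notMem hZ he ?_
            have h4 : -c e = ((k' - k : ℕ) : ZMod m) * a := by
              rw [Nat.cast_sub hge]
              linear_combination -h3
            rw [h4]
            exact hSg' _ (by omega)
        have h3 : Sg (B.erase e) c ∪ ((Sg (B.erase e) c).image fun x => x + c e) ⊆ Sg B c := by
          refine union_subset (Sg_mono (erase_subset _ _)) ?_
          intro x hx
          obtain ⟨y, hy, rfl⟩ := mem_image.1 hx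
          exact add_mem he hy
        have h4 := card_le_card h3
        rw [card_union_of_disjoint hdis, card_image_of_injective _ (add_left_injective (c e))] at h4
        have h5 := card_lower _ (B.erase e) rfl hZ'
        omega
    · push Not at hex
      obtain ⟨e0, he0⟩ := hne
      have hall : ∀ e ∈ B, c e = c e0 := fun e he =>
        one_term_eq hZ he he0 (by have := hex e he; omega) (by have := hex e0 he0; omega)
      refine ⟨c e0, fun _ => 1, fun e he => ⟨le_rfl, ?_⟩, ?_, ?_⟩
      · rw [Nat.cast_one, one_mul]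
        exact hall e he
      · rw [sum_const, smul_eq_mul, mul_one]
        by_contra hlt
        rw [not_lt] at hlt
        obtain ⟨F, hF, hFc⟩ := exists_subset_card_eq hlt
        have hFne : F.Nonempty := card_pos.1 (by rw [hFc]; exact addOrderOf_pos _)
        refine hZ F hF hFne ?_
        rw [sum_congr rfl fun x hx => hall x (hF hx), sum_const, hFc]
        exact addOrderOf_nsmul_eq_zero _
      · intro k hk
        rw [sum_const, smul_eq_mul, mul_one] at hk
        obtain ⟨F, hF, hFc⟩ := exists_subset_card_eq hk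
        refine ⟨F, hF, ?_⟩
        rw [sum_const, smul_eq_mul, mul_one, hFc]

end Pool.Agent.H133.ZM.Sm
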