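import Pool.Agent.H133.ZM.Stm
import Pool.Graph.R_pool_sql_team_39128cda.Lib.helper26_.Berge

set_option autoImplicit false

/-!
ZM/TB: the Tutte-Berge formula, from the deficiency form in the library.
-/

namespace Pool.Agent.H133.ZM.T1

open Finset Pool.Agent.H133.ZM

/-- an involution gives a matching -/
theorem of_inv {V : Type} [Fintype V] [DecidableEq V] (G : SimpleGraph V) (f : V → V)
    (h1 : ∀ v, f (f v) = v) (h2 : ∀ v, f v ≠ v → G.Adj v (f v)) :
    ∃ M : Finset (Sym2 V), IsM G M ∧ Fintype.card V ≤ #{v | f v = v} + 2 * #M := by
  classical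
  refine ⟨(univ.filter fun v => f v ≠ v).image fun v => s(v, f v), ⟨?_, ?_⟩, ?_⟩
  · intro e he
    obtain ⟨v, hv, rfl⟩ := Finset.mem_image.1 he
    exact h2 v (Finset.mem_filter.1 hv).2
  · intro e he e' he' hne x hx hx'
    obtain ⟨v, hv, rfl⟩ := Finset.mem_image.1 he
    obtain ⟨w, hw, rfl⟩ := Finset.mem_image.1 he'
    have key : ∀ u : V, x ∈ s(u, f u) → s(u, f u) = s(x, f x) := by
      intro u hu
      rcases Sym2.mem_iff.1 hu with h | h
      · rw [h]
      · rw [h, h1]
        exact Sym2.eq_swap
    exact hne ((key v hx).trans (key w hx').symm)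
  · have h3 : #(univ.filter fun v => f v ≠ v) ≤
        2 * #((univ.filter fun v => f v ≠ v).image fun v => s(v, f v)) := by
      refine Finset.card_le_mul_card_image _ 2 ?_
      intro e he
      obtain ⟨v, hv, rfl⟩ := Finset.mem_image.1 he
      refine (Finset.card_le_card (t := {v, f v}) ?_).trans Finset.card_le_two
      intro x hx
      have h4 := (Finset.mem_filter.1 hx).2
      have h5 : x ∈ s(v, f v) := by
        rw [← h4]
        exact Sym2.mem_mk_left _ _
      rcases Sym2.mem_iff.1 h5 with h | h
      · simp [h]
      · simp [h]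
    have h6 : #{v | f v = v} + #(univ.filter fun v => f v ≠ v) = Fintype.card V := by
      rw [← Finset.card_univ]
      exact Finset.card_filter_add_card_filter_not _
    omega

theorem t_TB : S_TB := by
  intro V _ _ G k hk
  classical
  rcases Nat.lt_or_ge (Fintype.card V) (2 * k + 2) with hn | hn
  · refine ⟨∅, fun _ => 0, fun _ _ _ _ _ => rfl, ?_⟩
    rw [Finset.card_empty, zero_add]
    refine (Finset.sum_le_sum_of_subset (t := {0}) ?_).trans ?_
    · intro i hi
      obtain ⟨v, _, rfl⟩ := Finset.mem_image.1 hi
      simp
    · rw [Finset.sum_singleton]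
      have h1 : #{v ∈ (∅ : Finset V)ᶜ | (fun _ : V => 0) v = 0} ≤ Fintype.card V :=
        Finset.card_le_univ _
      omega
  · have hd : Even (Fintype.card V + (Fintype.card V - 2 * k - 2)) :=
      ⟨Fintype.card V - k - 1, by omega⟩
    rcases Pool.Agent.Lib.helper26.Berge.tb G (Fintype.card V - 2 * k - 2) hd with
      ⟨f, h1, h2, h3⟩ | ⟨S, K, hK, hC, hdis⟩
    · exfalso
      obtain ⟨M, hM, hcard⟩ := of_inv G f h1 h2
      have := hk M hM
      omega
    · let enc := Fintype.equivFin (Finset (Finset V))
      let f : V → ℕ := fun v => (enc (K.filter fun C => v ∈ C)).val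
      have hf : ∀ u v, f u = f v ↔ (K.filter fun C => u ∈ C) = K.filter fun C => v ∈ C := by
        intro u v
        constructor
        · intro h
          exact enc.injective (Fin.ext h)
        · intro h
          show (enc _).val = (enc _).val
          rw [h]
      have hKC : ∀ C ∈ K, ∀ v ∈ C, (K.filter fun D => v ∈ D) = {C} := by
        intro C hCK v hv
        ext D
        rw [Finset.mem_filter, Finset.mem_singleton]
        constructor
        · rintro ⟨hD, hvD⟩
          by_contra hne
          have := hdis hD hCK hne
          exact (Finset.disjoint_left.1 this) hvD hv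
        · rintro rfl
          exact ⟨hCK, hv⟩
      let g : Finset V → ℕ := fun C => (enc {C}).val
      have hclass : ∀ C ∈ K, (Sᶜ.filter fun v => f v = g C) = C := by
        intro C hCK
        ext v
        rw [Finset.mem_filter, Finset.mem_compl]
        constructor
        · rintro ⟨_, h⟩
          have h4 : (K.filter fun D => v ∈ D) = {C} := enc.injective (Fin.ext h)
          have h5 : C ∈ K.filter fun D => v ∈ D := by
            rw [h4]
            exact Finset.mem_singleton_self C
          exact (Finset.mem_filter.1 h5).2
        · intro hv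
          refine ⟨fun hS => (Finset.disjoint_left.1 (hC C hCK).2.1) hv hS, ?_⟩
          show (enc (K.filter fun D => v ∈ D)).val = (enc {C}).val
          rw [hKC C hCK v hv]
      refine ⟨S, f, ?_, ?_⟩
      · intro u v hu hv huv
        rw [hf]
        ext C
        rw [Finset.mem_filter, Finset.mem_filter]
        refine and_congr_right fun hCK => ⟨fun h => ?_, fun h => ?_⟩
        · exact ((hC C hCK).2.2 u h v huv).resolve_right hv
        · exact ((hC C hCK).2.2 v h u huv.symm).resolve_right hu
      · have hsum : #(Sᶜ) = ∑ i ∈ Sᶜ.image f, #(Sᶜ.filter fun v => f v = i) :=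
          Finset.card_eq_sum_card_image f Sᶜ
        have hginj : Set.InjOn g K := by
          intro C _ D _ h
          have h4 : ({C} : Finset (Finset V)) = {D} := enc.injective (Fin.ext h)
          exact Finset.singleton_injective h4
        have hJ : K.image g ⊆ Sᶜ.image f := by
          intro i hi
          obtain ⟨C, hCK, rfl⟩ := Finset.mem_image.1 hi
          obtain ⟨v, hv⟩ : C.Nonempty := by
            rw [← Finset.card_pos]
            exact (hC C hCK).1.pos
          rw [← hclass C hCK, Finset.mem_filter] at hv
          exact Finset.mem_image.2 ⟨v, hv.1, hv.2⟩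
        have hmain : ∑ i ∈ Sᶜ.image f, (2 * (#(Sᶜ.filter fun v => f v = i) / 2) +
            if i ∈ K.image g then 1 else 0) ≤
            ∑ i ∈ Sᶜ.image f, #(Sᶜ.filter fun v => f v = i) := by
          refine Finset.sum_le_sum fun i _ => ?_
          by_cases hi : i ∈ K.image g
          · rw [if_pos hi]
            obtain ⟨C, hCK, rfl⟩ := Finset.mem_image.1 hi
            rw [hclass C hCK]
            obtain ⟨q, hq⟩ := (hC C hCK).1
            omega
          · rw [if_neg hi]
            omega
        rw [Finset.sum_add_distrib, ← Finset.mul_sum, ← hsum, Finset.sum_ite_mem,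
          Finset.inter_eq_right.2 hJ, Finset.sum_const, smul_eq_mul, mul_one,
          Finset.card_image_of_injOn hginj, Finset.card_compl] at hmain
        have hS : #S ≤ Fintype.card V := Finset.card_le_univ S
        show #S + ∑ i ∈ Sᶜ.image f, #(Sᶜ.filter fun v => f v = i) / 2 ≤ k
        omega

end Pool.Agent.H133.ZM.T1
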