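import Pool.Agent.H621.ZM.Main
import Pool.Agent.H133.ZM.Stm2
import Pool.Agent.H133.ZM.Smooth
import Pool.Agent.H133.ZM.Bgl
import Pool.Agent.H133.ZM.S2
import Pool.Agent.H133.ZM.Ext1
import Pool.Agent.H133.ZM.TB
import Pool.Agent.H133.ZM.Hex
import Pool.Agent.H133.ZM.Gao
import Pool.Agent.H133.ZM.Beh
import Pool.Agent.H133.ZM.A2
import Pool.Agent.H133.ZM.Conn3
import Pool.Agent.H133.ZM.Key
import Pool.Agent.H133.ZM.Part

set_option autoImplicit false

/-! # The case `n = 3 m - 1`, `m` odd -/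

namespace Pool.Agent.H133.ZM.OddCase

open Finset Pool.Agent.H133.ZM

theorem isM_sub {V : Type} {G : SimpleGraph V} {F F' : Finset (Sym2 V)} (h : IsM G F) (hs : F' ⊆ F) :
    IsM G F' :=
  ⟨fun e he => h.1 e (hs he), fun e he f hf => h.2 e (hs he) f (hs hf)⟩

/-- a matching covers `2 |M|` vertices -/
theorem card_le {V : Type} [Fintype V] [DecidableEq V] {G : SimpleGraph V} {M : Finset (Sym2 V)}
    (h : IsM G M) : 2 * M.card ≤ Fintype.card V := by
  have h1 : ∀ e ∈ M, e.toFinset.card = 2 := by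
    intro e he
    have h2 := h.1 e he
    exact Sym2.card_toFinset_of_not_isDiag e (G.not_isDiag_of_mem_edgeSet h2)
  have h3 : (M.biUnion (fun e => e.toFinset)).card = ∑ e ∈ M, e.toFinset.card := by
    apply card_biUnion
    intro e he f hf hef
    rw [Function.onFun, disjoint_left]
    intro v hv hv'
    rw [Sym2.mem_toFinset] at hv hv'
    exact h.2 e he f hf hef v hv hv'
  rw [sum_congr rfl h1, sum_const, smul_eq_mul] at h3
  have h4 := card_le_univ (M.biUnion (fun e => e.toFinset))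
  omega

/-- flipping a normal form -/
theorem nrm_flip {ι : Type} {m : ℕ} {M : Finset ι} {c : ι → ZMod m} {a g : ZMod m}
    (h : Nrm m M c a g) : Nrm m M c (a + g) (-g) := by
  obtain ⟨hu, v, h1, h2, h3⟩ := h
  refine ⟨hu.neg, fun x => 1 - v x, ?_, ?_, ?_⟩
  · intro e he
    have := h1 e he
    push_cast
    rw [show a + g + -g * (1 - (v (c e) : ZMod m)) = a + g * (v (c e) : ZMod m) by ring]
    exact this
  · have e1 : M.filter (fun e => 1 ≤ 1 - v (c e)) = M.filter (fun e => v (c e) ≤ 0) := by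
      apply filter_congr
      intro e _
      constructor <;> intro h <;> linarith
    rw [e1]
    exact h3
  · have e1 : M.filter (fun e => 1 - v (c e) ≤ 0) = M.filter (fun e => 1 ≤ v (c e)) := by
      apply filter_congr
      intro e _
      constructor <;> intro h <;> linarith
    rw [e1]
    have e2 : ∑ e ∈ M.filter (fun e => 1 ≤ v (c e)), (1 - (1 - v (c e))) =
        ∑ e ∈ M.filter (fun e => 1 ≤ v (c e)), v (c e) :=
      sum_congr rfl fun e _ => by ring
    rw [e2]
    exact h2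

theorem nrm_of_peq {ι : Type} {m : ℕ} {M : Finset ι} {c : ι → ZMod m} {a g a' g' : ZMod m}
    (h : Nrm m M c a' g') (hp : PEq a g a' g') : Nrm m M c a g := by
  rcases hp with ⟨h1, h2⟩ | ⟨h1, h2⟩
  · rw [h1, h2] at h
    exact h
  · have h3 := nrm_flip h
    rw [h1, h2] at h3
    have e1 : a + g + -g = a := by ring
    have e2 : - -g = g := by ring
    rw [e1, e2] at h3
    exact h3

/-- window of a normal form -/
theorem window {ι : Type} {m : ℕ} {M : Finset ι} {u : ι → ℤ}
    (h2 : ∑ e ∈ M.filter (fun e => 1 ≤ u e), u e ≤ (m : ℤ) - 1)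
    (h3 : ∑ e ∈ M.filter (fun e => u e ≤ 0), (1 - u e) ≤ (m : ℤ) - 1) {e : ι} (he : e ∈ M) :
    (M.card : ℤ) + 2 - 2 * m ≤ u e ∧ u e ≤ 2 * m - 1 - M.card := by
  classical
  have h4 : ∑ i ∈ M, (if 1 ≤ u i then u i else 1 - u i) ≤ 2 * (m : ℤ) - 2 := by
    have e1 : ∑ i ∈ M, (if 1 ≤ u i then u i else 1 - u i) =
        ∑ i ∈ M.filter (fun i => 1 ≤ u i), u i + ∑ i ∈ M.filter (fun i => ¬ 1 ≤ u i), (1 - u i) :=
      sum_ite _ _
    have e2 : M.filter (fun i => ¬ 1 ≤ u i) = M.filter (fun i => u i ≤ 0) := by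
      apply filter_congr
      intro i _
      constructor <;> intro h <;> omega
    rw [e1, e2]
    linarith
  have h5 : ∀ i ∈ M, (1 : ℤ) ≤ (if 1 ≤ u i then u i else 1 - u i) := by
    intro i _
    split_ifs with h
    · exact h
    · omega
  have h6 : (if 1 ≤ u e then u e else 1 - u e) + ((M.card : ℤ) - 1) ≤
      ∑ i ∈ M, (if 1 ≤ u i then u i else 1 - u i) := by
    rw [← add_sum_erase _ _ he]
    have h7 : ((M.card : ℤ) - 1) ≤ ∑ i ∈ M.erase e, (if 1 ≤ u i then u i else 1 - u i) := by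
      have h8 : ∑ i ∈ M.erase e, (1 : ℤ) ≤ ∑ i ∈ M.erase e, (if 1 ≤ u i then u i else 1 - u i) :=
        sum_le_sum fun i hi => h5 i (mem_of_mem_erase hi)
      rw [sum_const, card_erase_of_mem he, nsmul_eq_mul, mul_one] at h8
      have h9 : 1 ≤ M.card := card_pos.mpr ⟨e, he⟩
      have h10 : ((M.card - 1 : ℕ) : ℤ) = (M.card : ℤ) - 1 := by push_cast [h9]; ring
      rw [h10] at h8
      exact h8
    linarith
  split_ifs at h6 with h
  · constructor <;> omega
  · constructor <;> omega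

/-- the canonical lift -/
def lift (m : ℕ) (w : ℤ) (x : ZMod m) : ℤ := if (x.val : ℤ) ≤ w then x.val else x.val - m

theorem lift_cast (m : ℕ) [NeZero m] (w : ℤ) (x : ZMod m) : ((lift m w x : ℤ) : ZMod m) = x := by
  unfold lift
  split_ifs
  · simp
  · simp

theorem lift_eq (m : ℕ) [NeZero m] (w : ℤ) (x : ZMod m) (y : ℤ) (h : (y : ZMod m) = x)
    (h1 : 1 - w ≤ y) (h2 : y ≤ w) (h3 : 2 * w ≤ m) : lift m w x = y := by
  have hx : x.val < m := ZMod.val_lt x
  have h4 : ((lift m w x - y : ℤ) : ZMod m) = 0 := by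
    push_cast
    rw [lift_cast, h, sub_self]
  have h5 : (m : ℤ) ∣ lift m w x - y := (ZMod.intCast_zmod_eq_zero_iff_dvd _ m).mp h4
  have h6 : |lift m w x - y| < m := by
    rw [abs_lt]
    unfold lift
    split_ifs with h7
    · constructor <;> omega
    · constructor <;> omega
  have := Int.eq_zero_of_abs_lt_dvd h5 h6
  omega

/-- the odd case -/
theorem base_odd (hSW : S_SW') (m : ℕ) (hm : 3 ≤ m) (ho : Odd m) : S_base m := by
  intro V _ _ G c hV hmis
  by_contra hcon
  push Not at hcon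
  have : NeZero m := ⟨by omega⟩
  have hS2 : S_S2 := t_S2 Beh.t_beh Sm.t_smooth
    (Gao.t_gao Bg.t_bgl)
  have hA2 : S_A2 := A2.t_A2
  obtain ⟨k, hk⟩ := ho
  have hLL : LL m = 3 * k + 1 := by unfold LL; omega
  have hNZ : ∀ M, IsM G M → NZ m M c := fun M hM F hF hFc => hcon F (isM_sub hM hF) hFc
  have hExt : ∀ Q, IsM G Q → 2 * Q.card + 1 ≤ m → ∃ M, IsM G M ∧ Q ⊆ M ∧ M.card = LL m := by
    refine X1.t_ext1 Pt.t_part T1.t_TB m 1 hm ⟨k, hk⟩
      le_rfl (by omega) V G (by omega) ?_ (by omega)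
    simp only [mul_one, Nat.sub_self, mul_zero, add_zero]
    omega
  have hStr : ∀ M, IsM G M → LL m ≤ M.card → ∃ a g, Nrm m M c a g := fun M hM hMc =>
    hS2 m hm (Sym2 V) M c (hNZ M hM) hMc
  obtain ⟨M0, hM0, -, hM0c⟩ := hExt ∅ ⟨by simp, by simp⟩ (by simp; omega)
  obtain ⟨a, g, hag⟩ := hStr M0 hM0 hM0c.ge
  let P : Finset (Sym2 V) → Set (ZMod m × ZMod m) := fun M => {x | Nrm m M c x.1 x.2}
  have hPP : ∀ M M', IsM G M → IsM G M' → M.card = LL m → M'.card = LL m → (M \ M').card = 2 →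
      (M' \ M).card = 2 → P M ⊆ P M' := by
    intro M M' hM hM' hMc hMc' h1 h2 x hx
    obtain ⟨a', g', hag'⟩ := hStr M' hM' hMc'.ge
    have h3 := hSW hS2 hA2 m hm ⟨k, hk⟩ V G c (by omega) (by omega) hcon M M' x.1 x.2 a' g'
      hM hM' hMc hMc' h1 h2 hx hag'
    exact nrm_of_peq hag' h3
  have hall : ∀ M, IsM G M → M.card = LL m → Nrm m M c a g := by
    intro M hM hMc
    have h1 := C3.t_conn3 Hx.t_hex V G (LL m) _ P (by omega)
      (fun M M' hM hM' hMc hMc' h1 h2 => Set.Subset.antisymm (hPP M M' hM hM' hMc hMc' h1 h2)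
        (hPP M' M hM' hM hMc' hMc h2 h1)) (by omega) M0 M hM0 hM hM0c hMc
    have h2 : (a, g) ∈ P M0 := hag
    rw [h1] at h2
    exact h2
  have hg : IsUnit g := hag.1
  obtain ⟨g', hg'⟩ := hg.exists_right_inv
  -- the lift
  let w : ℤ := 2 * m - 1 - LL m
  let vv : Sym2 V → ℤ := fun e => lift m w (g' * (c e - a))
  have hvv : ∀ e, c e = a + g * ((vv e : ℤ) : ZMod m) := by
    intro e
    show c e = a + g * ((lift m w (g' * (c e - a)) : ℤ) : ZMod m)
    rw [lift_cast, ← mul_assoc, hg', one_mul]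
    ring
  have hineq : ∀ M, IsM G M → LL m ≤ M.card →
      ∑ e ∈ M.filter (fun e => 1 ≤ vv e), vv e ≤ (m : ℤ) - 1 ∧
      ∑ e ∈ M.filter (fun e => vv e ≤ 0), (1 - vv e) ≤ (m : ℤ) - 1 := by
    intro M hM hMc
    have hMc' : M.card = LL m := by
      have := card_le hM
      omega
    obtain ⟨-, v, h1, h2, h3⟩ := hall M hM hMc'
    have h4 : ∀ e ∈ M, vv e = v (c e) := by
      intro e he
      have h5 : (M.card : ℤ) + 2 - 2 * m ≤ v (c e) ∧ v (c e) ≤ 2 * m - 1 - M.card :=
        window (u := fun e => v (c e)) h2 h3 he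
      apply lift_eq
      · have h6 := h1 e he
        have h7 : g * ((v (c e) : ℤ) : ZMod m) = c e - a := by
          rw [eq_sub_iff_add_eq, add_comm]
          exact h6.symm
        rw [← h7, ← mul_assoc, mul_comm g' g, hg', one_mul]
      · show 1 - (2 * (m : ℤ) - 1 - (LL m : ℤ)) ≤ v (c e)
        rw [← hMc']
        linarith [h5.1]
      · show v (c e) ≤ 2 * (m : ℤ) - 1 - (LL m : ℤ)
        rw [← hMc']
        exact h5.2
      · show 2 * (2 * (m : ℤ) - 1 - (LL m : ℤ)) ≤ m
        rw [hLL]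
        omega
    have e1 : M.filter (fun e => 1 ≤ vv e) = M.filter (fun e => 1 ≤ v (c e)) :=
      filter_congr fun e he => by rw [h4 e he]
    have e2 : M.filter (fun e => vv e ≤ 0) = M.filter (fun e => v (c e) ≤ 0) :=
      filter_congr fun e he => by rw [h4 e he]
    rw [e1, e2]
    refine ⟨?_, ?_⟩
    · rw [sum_congr rfl fun e he => h4 e (mem_of_mem_filter e he)]
      exact h2
    · have e3 : ∑ e ∈ M.filter (fun e => v (c e) ≤ 0), (1 - vv e) =
          ∑ e ∈ M.filter (fun e => v (c e) ≤ 0), (1 - v (c e)) :=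
        sum_congr rfl fun e he => by rw [h4 e (mem_of_mem_filter e he)]
      rw [e3]
      exact h3
  have hnd : ∀ M, IsM G M → M.card = m → ¬ (m : ℤ) ∣ ∑ e ∈ M, vv e := by
    intro M hM hMc hd
    apply hcon M hM hMc
    rw [sum_congr rfl fun e _ => hvv e, sum_add_distrib, sum_const, hMc, ← mul_sum, ← Int.cast_sum,
      (ZMod.intCast_zmod_eq_zero_iff_dvd _ m).mpr hd]
    simp
  have hkey := Key.t_key
  have hB := hkey m (LL m) hm (by omega) V G vv hnd hExt hineq
  have hA := hkey m (LL m) hm (by omega) V G (fun e => 1 - vv e)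
    (by
      intro M hM hMc hd
      apply hnd M hM hMc
      have e1 : ∑ e ∈ M, (1 - vv e) = (m : ℤ) - ∑ e ∈ M, vv e := by
        rw [sum_sub_distrib, sum_const, hMc]
        simp
      rw [e1] at hd
      have := (dvd_sub_right (dvd_refl (m : ℤ))).mp hd
      exact this) hExt
    (by
      intro M hM hMc
      obtain ⟨h1, h2⟩ := hineq M hM hMc
      have e1 : M.filter (fun e => 1 ≤ 1 - vv e) = M.filter (fun e => vv e ≤ 0) := by
        apply filter_congr
        intro e _
        constructor <;> intro h <;> linarith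
      have e2 : M.filter (fun e => 1 - vv e ≤ 0) = M.filter (fun e => 1 ≤ vv e) := by
        apply filter_congr
        intro e _
        constructor <;> intro h <;> linarith
      rw [e1, e2]
      refine ⟨h2, ?_⟩
      rw [sum_congr rfl fun e _ => show 1 - (1 - vv e) = vv e by ring]
      exact h1)
  have hTwo := Pool.Agent.H621.ZM.TwoCol.twoCol V G
    (SimpleGraph.fromEdgeSet {e | e ∈ G.edgeSet ∧ 1 ≤ vv e})
    (SimpleGraph.fromEdgeSet {e | e ∈ G.edgeSet ∧ 1 ≤ 1 - vv e}) m 1 (by omega) (by omega)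
    (by
      intro v u h
      rw [SimpleGraph.sup_adj, SimpleGraph.fromEdgeSet_adj, SimpleGraph.fromEdgeSet_adj]
      have h1 : s(v, u) ∈ G.edgeSet := h
      rcases le_or_gt 1 (vv s(v, u)) with h2 | h2
      · exact Or.inl ⟨⟨h1, h2⟩, h.ne⟩
      · exact Or.inr ⟨⟨h1, by omega⟩, h.ne⟩)
    (by
      intro F hF
      by_contra hc
      rw [not_lt] at hc
      obtain ⟨h1, h2⟩ := Pool.Agent.H621.ZM.Core.isM_edge hF
      obtain ⟨T, hT, hTc⟩ := exists_subset_card_eq hc
      exact hB T (isM_sub h1 hT) hTc fun e he => h2 e (hT he))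
    (by
      intro F hF
      by_contra hc
      rw [not_lt] at hc
      obtain ⟨h1, h2⟩ := Pool.Agent.H621.ZM.Core.isM_edge hF
      obtain ⟨T, hT, hTc⟩ := exists_subset_card_eq hc
      exact hA T (isM_sub h1 hT) hTc fun e he => h2 e (hT he))
  rw [Pool.Agent.H621.ZM.Values.mm_one m (by omega)] at hTwo
  have hmm : mis G = Pool.Agent.H621.ZM.miss G := rfl
  omega

/-- the case `m = 1` -/
theorem base_one : S_base 1 := by
  intro V _ _ G c hV hmis
  have h0 : mis G = 0 := by omega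
  have h1 : (Gᶜ).edgeSet = ∅ := (Set.ncard_eq_zero (Set.toFinite _)).mp h0
  have hc2 : Fintype.card V = 2 := by omega
  have h3 : ∃ x y : V, x ≠ y := by
    have h4 : 1 < Fintype.card V := by omega
    obtain ⟨x, y, h5⟩ := Fintype.one_lt_card_iff.mp h4
    exact ⟨x, y, h5⟩
  obtain ⟨x, y, hxy⟩ := h3
  have hadj : G.Adj x y := by
    by_contra hn
    have h2 : s(x, y) ∈ (Gᶜ).edgeSet := by
      rw [SimpleGraph.mem_edgeSet, SimpleGraph.compl_adj]
      exact ⟨hxy, hn⟩
    rw [h1] at h2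
    exact h2
  refine ⟨{s(x, y)}, ⟨?_, ?_⟩, card_singleton _, ?_⟩
  · intro e he
    rw [mem_singleton] at he
    rw [he]
    exact hadj
  · intro e he f hf hef
    rw [mem_singleton] at he hf
    exact absurd (he.trans hf.symm) hef
  · exact Subsingleton.elim _ _

/-- all `m` -/
theorem base_all (hSW : S_SW') (hE : S_Ewalk) (hD : S_Edouble) (m : ℕ) (hm : 1 ≤ m) : S_base m := by
  induction m using Nat.strong_induction_on with
  | _ m ih =>
    rcases Nat.even_or_odd m with he | ho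
    · obtain ⟨h, rfl⟩ := he
      have h1 : 1 ≤ h := by omega
      have h2 := hD hE h h1 (ih h (by omega) h1)
      rwa [two_mul] at h2
    · by_cases h3 : 3 ≤ m
      · exact base_odd hSW m h3 ho
      · have : m = 1 := by
          obtain ⟨k, hk⟩ := ho
          omega
        subst this
        exact base_one

end Pool.Agent.H133.ZM.OddCase
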