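import Pool.Agent.H133.ZM.Stm

set_option autoImplicit false

/-!
# Project ZM, part SW: the exceptional switch for perfect matchings
-/

namespace Pool.Agent.H133.ZM.SW

open Finset Pool.Agent.H133.ZM

section basic

variable {ι : Type} [DecidableEq ι]

theorem mu_insert {m : ℕ} (R : Finset ι) (c : ι → ZMod m) (e : ι) (he : e ∉ R) (x : ZMod m) :
    mu (insert e R) c x = (if c e = x then 1 else 0) + mu R c x := by
  unfold mu
  rw [Finset.filter_insert]
  split_ifs with h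
  · rw [Finset.card_insert_of_notMem (by simp [he])]
    ring
  · simp

theorem nrm_sym {m : ℕ} {M : Finset ι} {c : ι → ZMod m} {a g : ZMod m} (h : Nrm m M c a g) :
    Nrm m M c (a + g) (-g) := by
  obtain ⟨hg, v, h1, h2, h3⟩ := h
  refine ⟨hg.neg, fun x => 1 - v x, fun e he => ?_, ?_, ?_⟩
  · have h4 := h1 e he
    push_cast
    rw [show a + g + -g * (1 - ((v (c e) : ℤ) : ZMod m)) = a + g * ((v (c e) : ℤ) : ZMod m) by ring]
    exact h4
  · have h5 : M.filter (fun e => 1 ≤ 1 - v (c e)) = M.filter (fun e => v (c e) ≤ 0) := by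
      apply Finset.filter_congr
      intro e _
      constructor <;> intro h <;> omega
    rw [h5]
    exact h3
  · have h5 : M.filter (fun e => 1 - v (c e) ≤ 0) = M.filter (fun e => 1 ≤ v (c e)) := by
      apply Finset.filter_congr
      intro e _
      constructor <;> intro h <;> omega
    rw [h5]
    simpa using h2

theorem nrm_peq {m : ℕ} {M : Finset ι} {c : ι → ZMod m} {a g a' g' : ZMod m} (hp : PEq a g a' g')
    (h : Nrm m M c a' g') : Nrm m M c a g := by
  rcases hp with ⟨rfl, rfl⟩ | ⟨rfl, rfl⟩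
  · exact h
  · have h2 := nrm_sym h
    rwa [add_neg_cancel_right, neg_neg] at h2

theorem nrm_replace {m : ℕ} {R : Finset ι} {c : ι → ZMod m} {a g : ZMod m} {e1 e2 f1 f2 : ι}
    (he1 : e1 ∉ insert e2 R) (he2 : e2 ∉ R) (hf1 : f1 ∉ insert f2 R) (hf2 : f2 ∉ R)
    (h1 : c f1 = c e1) (h2 : c f2 = c e2)
    (h : Nrm m (insert e1 (insert e2 R)) c a g) : Nrm m (insert f1 (insert f2 R)) c a g := by
  obtain ⟨hg, v, h3, h4, h5⟩ := h
  refine ⟨hg, v, fun f hf => ?_, ?_, ?_⟩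
  · rcases Finset.mem_insert.mp hf with hf | hf
    · rw [hf, h1]; exact h3 e1 (mem_insert_self _ _)
    · rcases Finset.mem_insert.mp hf with hf | hf
      · rw [hf, h2]; exact h3 e2 (mem_insert_of_mem (mem_insert_self _ _))
      · exact h3 f (mem_insert_of_mem (mem_insert_of_mem hf))
  · rw [Finset.sum_filter, Finset.sum_insert he1, Finset.sum_insert he2] at h4
    rw [Finset.sum_filter, Finset.sum_insert hf1, Finset.sum_insert hf2, h1, h2]
    exact h4
  · rw [Finset.sum_filter, Finset.sum_insert he1, Finset.sum_insert he2] at h5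
    rw [Finset.sum_filter, Finset.sum_insert hf1, Finset.sum_insert hf2, h1, h2]
    exact h5

/-- the positive part -/
def PP (t : ℤ) : ℤ := if 1 ≤ t then t else 0

/-- the other part -/
def QQ (t : ℤ) : ℤ := if t ≤ 0 then 1 - t else 0

theorem PP_nonneg (t : ℤ) : 0 ≤ PP t := by unfold PP; split_ifs <;> omega

theorem QQ_nonneg (t : ℤ) : 0 ≤ QQ t := by unfold QQ; split_ifs <;> omega

theorem nrm_data {k : ℕ} {N : Finset ι} {c : ι → ZMod (2 * k + 1)} {a g : ZMod (2 * k + 1)}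
    (h : Nrm (2 * k + 1) N c a g) (hN : N.card = 3 * k + 1) :
    ∃ v : ZMod (2 * k + 1) → ℤ, (∀ e ∈ N, c e = a + g * ((v (c e) : ℤ) : ZMod (2 * k + 1))) ∧
      ∑ e ∈ N, PP (v (c e)) ≤ 2 * k ∧ ∑ e ∈ N, QQ (v (c e)) ≤ 2 * k ∧
      ∀ e ∈ N, -(k : ℤ) + 1 ≤ v (c e) ∧ v (c e) ≤ k := by
  obtain ⟨hg, v, h1, h2, h3⟩ := h
  rw [Finset.sum_filter] at h2 h3
  have h2' : ∑ e ∈ N, PP (v (c e)) ≤ 2 * k := by
    push_cast at h2
    unfold PP
    linarith
  have h3' : ∑ e ∈ N, QQ (v (c e)) ≤ 2 * k := by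
    push_cast at h3
    unfold QQ
    linarith
  refine ⟨v, h1, h2', h3', fun e he => ?_⟩
  have h4 : ∑ e ∈ N, (PP (v (c e)) + QQ (v (c e)) - 1) ≤ (k : ℤ) - 1 := by
    rw [Finset.sum_sub_distrib, Finset.sum_add_distrib, Finset.sum_const, hN]
    push_cast
    simp only [nsmul_eq_mul, mul_one]
    push_cast
    linarith
  have h5 : PP (v (c e)) + QQ (v (c e)) - 1 ≤ ∑ e ∈ N, (PP (v (c e)) + QQ (v (c e)) - 1) :=
    Finset.single_le_sum (f := fun e => PP (v (c e)) + QQ (v (c e)) - 1)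
      (fun e _ => by
        show 0 ≤ PP (v (c e)) + QQ (v (c e)) - 1
        unfold PP QQ
        split_ifs <;> omega) he
  have h6 := h5.trans h4
  revert h6
  unfold PP QQ
  split_ifs <;> intro h6 <;> constructor <;> omega

theorem cast_zero {k : ℕ} {t : ℤ} (h : ((t : ℤ) : ZMod (2 * k + 1)) = 0) (h1 : -(2 * k + 1 : ℤ) < t)
    (h2 : t < 2 * k + 1) : t = 0 := by
  have h3 := (ZMod.intCast_zmod_eq_zero_iff_dvd t (2 * k + 1)).mp h
  push_cast at h3
  exact Int.eq_zero_of_abs_lt_dvd h3 (abs_lt.mpr ⟨h1, h2⟩)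

/-- no value `1` in a normal form for `(0, 2)` -/
theorem no_one {k : ℕ} {N : Finset ι} {c : ι → ZMod (2 * k + 1)}
    (h : Nrm (2 * k + 1) N c 0 2) (hN : N.card = 3 * k + 1) : ∀ e ∈ N, c e ≠ 1 := by
  obtain ⟨v, h1, -, -, h4⟩ := nrm_data h hN
  intro e he hc
  have h5 := h1 e he
  obtain ⟨h6, h7⟩ := h4 e he
  have h8 : ((2 * v (c e) - 1 : ℤ) : ZMod (2 * k + 1)) = 0 := by
    push_cast
    rw [zero_add] at h5
    rw [← h5, hc]
    ring
  have h9 := cast_zero h8 (by omega) (by omega)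
  omega

theorem v_val {k : ℕ} (_hk : 1 ≤ k) {x : ZMod (2 * k + 1)} {t : ℤ} (j : ℕ) (hj : j ≤ 2)
    (h1 : x = 0 + 1 * ((t : ℤ) : ZMod (2 * k + 1))) (h2 : -(k : ℤ) + 1 ≤ t) (h3 : t ≤ k) (hx : x = (j : ZMod (2 * k + 1))) :
    t = j := by
  have h8 : ((t - j : ℤ) : ZMod (2 * k + 1)) = 0 := by
    push_cast
    rw [zero_add, one_mul] at h1
    rw [← h1, hx]
    ring
  have h9 := cast_zero h8 (by omega) (by omega)
  omega

theorem factA {k : ℕ} (hk : 1 ≤ k) {C1 : Finset ι} {e1 e2 : ι} {c : ι → ZMod (2 * k + 1)}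
    (h1 : e1 ∉ insert e2 C1) (h2 : e2 ∉ C1) (hc : C1.card + 2 = 3 * k + 1)
    (h : Nrm (2 * k + 1) (insert e1 (insert e2 C1)) c 0 1) :
    ∃ v1 v2 : ℤ, c e1 = v1 ∧ c e2 = v2 ∧ PP v1 + PP v2 + mu C1 c 1 + 2 * mu C1 c 2 ≤ 2 * k ∧
      QQ v1 + QQ v2 + mu C1 c 0 ≤ 2 * k := by
  obtain ⟨v, g1, g2, g3, g4⟩ := nrm_data h (by rw [card_insert_of_notMem h1, card_insert_of_notMem h2]; omega)
  rw [Finset.sum_insert h1, Finset.sum_insert h2] at g2 g3
  have hsub : ∀ e ∈ C1, e ∈ insert e1 (insert e2 C1) := fun e he => mem_insert_of_mem (mem_insert_of_mem he)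
  refine ⟨v (c e1), v (c e2), ?_, ?_, ?_, ?_⟩
  · have := g1 e1 (mem_insert_self _ _)
    rwa [zero_add, one_mul] at this
  · have := g1 e2 (mem_insert_of_mem (mem_insert_self _ _))
    rwa [zero_add, one_mul] at this
  · have h5 : (mu C1 c 1 : ℤ) + 2 * mu C1 c 2 ≤ ∑ e ∈ C1, PP (v (c e)) := by
      unfold mu
      rw [← Finset.sum_boole, ← Finset.sum_boole, Finset.mul_sum, ← Finset.sum_add_distrib]
      refine Finset.sum_le_sum fun e he => ?_
      have g5 := g1 e (hsub e he)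
      obtain ⟨g6, g7⟩ := g4 e (hsub e he)
      have g8 := fun j hj => v_val hk j hj g5 g6 g7
      have g9 := PP_nonneg (v (c e))
      by_cases c1 : c e = 1
      · have g10 := g8 1 (by norm_num) (by rw [c1]; simp)
        by_cases c2 : c e = 2
        · have g11 := g8 2 (by norm_num) (by rw [c2]; simp)
          omega
        · rw [if_pos c1, if_neg c2]
          unfold PP
          split_ifs <;> push_cast at * <;> omega
      · rw [if_neg c1]
        by_cases c2 : c e = 2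
        · have g11 := g8 2 (by norm_num) (by rw [c2]; simp)
          rw [if_pos c2]
          unfold PP
          split_ifs <;> push_cast at * <;> omega
        · rw [if_neg c2]
          omega
    linarith
  · have h5 : (mu C1 c 0 : ℤ) ≤ ∑ e ∈ C1, QQ (v (c e)) := by
      unfold mu
      rw [← Finset.sum_boole]
      refine Finset.sum_le_sum fun e he => ?_
      have g5 := g1 e (hsub e he)
      obtain ⟨g6, g7⟩ := g4 e (hsub e he)
      have g9 := QQ_nonneg (v (c e))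
      by_cases c1 : c e = 0
      · have g10 := v_val hk 0 (by norm_num) g5 g6 g7 (by rw [c1]; simp)
        rw [if_pos c1]
        unfold QQ
        split_ifs <;> push_cast at * <;> omega
      · rw [if_neg c1]
        exact g9
    linarith

end basic

section graph

variable {V : Type} [DecidableEq V] {G : SimpleGraph V}

theorem isM_subset {M N : Finset (Sym2 V)} (h : IsM G M) (hN : N ⊆ M) : IsM G N :=
  ⟨fun e he => h.1 e (hN he), fun e he f hf => h.2 e (hN he) f (hN hf)⟩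

theorem isM_insert {C : Finset (Sym2 V)} {p q : V} (hC : IsM G C) (h : G.Adj p q)
    (hp : ∀ e ∈ C, p ∉ e) (hq : ∀ e ∈ C, q ∉ e) : IsM G (insert s(p, q) C) := by
  refine ⟨fun e he => ?_, fun e he f hf hef v hv hv2 => ?_⟩
  · rcases Finset.mem_insert.mp he with rfl | he
    · exact h
    · exact hC.1 e he
  · rcases Finset.mem_insert.mp he with he1 | he1
    · rcases Finset.mem_insert.mp hf with hf1 | hf1
      · exact hef (he1.trans hf1.symm)
      · rw [he1] at hv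
        rcases Sym2.mem_iff.mp hv with h1 | h1
        · exact hp f hf1 (h1 ▸ hv2)
        · exact hq f hf1 (h1 ▸ hv2)
    · rcases Finset.mem_insert.mp hf with hf1 | hf1
      · rw [hf1] at hv2
        rcases Sym2.mem_iff.mp hv2 with h1 | h1
        · exact hp e he1 (h1 ▸ hv)
        · exact hq e he1 (h1 ▸ hv)
      · exact hC.2 e he1 f hf1 hef v hv hv2

theorem notMem_of {C : Finset (Sym2 V)} {p q : V} (hp : ∀ e ∈ C, p ∉ e) : s(p, q) ∉ C :=
  fun h => hp _ h (Sym2.mem_mk_left p q)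

theorem free_insert {C : Finset (Sym2 V)} {p q r : V} (hr : ∀ e ∈ C, r ∉ e) (h1 : r ≠ p) (h2 : r ≠ q) :
    ∀ e ∈ insert s(p, q) C, r ∉ e := by
  intro e he
  rcases Finset.mem_insert.mp he with rfl | he
  · intro h
    rcases Sym2.mem_iff.mp h with h | h
    · exact h1 h
    · exact h2 h
  · exact hr e he

/-- two new edges -/
theorem isM_insert2 {C : Finset (Sym2 V)} {p q r t : V} (hC : IsM G C) (h : G.Adj p q) (h' : G.Adj r t)
    (hp : ∀ e ∈ C, p ∉ e) (hq : ∀ e ∈ C, q ∉ e) (hr : ∀ e ∈ C, r ∉ e) (ht : ∀ e ∈ C, t ∉ e)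
    (hpr : p ≠ r) (hpt : p ≠ t) (hqr : q ≠ r) (hqt : q ≠ t) :
    IsM G (insert s(p, q) (insert s(r, t) C)) ∧ (insert s(p, q) (insert s(r, t) C)).card = C.card + 2 := by
  refine ⟨isM_insert (isM_insert hC h' hr ht) h (free_insert hp hpr hpt) (free_insert hq hqr hqt), ?_⟩
  rw [card_insert_of_notMem (notMem_of (free_insert hp hpr hpt)), card_insert_of_notMem (notMem_of hr)]

end graph

section env

variable {V : Type} [Fintype V] [DecidableEq V]

/-- the standing hypotheses -/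
structure Env (G : SimpleGraph V) (k : ℕ) (c : Sym2 V → ZMod (2 * k + 1)) : Prop where
  hk : 1 ≤ k
  s2 : S_S2
  a2 : S_A2
  hz : ∀ M, IsM G M → M.card = 2 * k + 1 → ∑ e ∈ M, c e ≠ 0

variable {G : SimpleGraph V} {k : ℕ} {c : Sym2 V → ZMod (2 * k + 1)}

theorem LL_eq (k : ℕ) : LL (2 * k + 1) = 3 * k + 1 := by unfold LL; omega

theorem nz (E : Env G k c) {N : Finset (Sym2 V)} (hN : IsM G N) : NZ (2 * k + 1) N c :=
  fun _ hF hc => E.hz _ (isM_subset hN hF) hc

theorem zeros_le (E : Env G k c) {N : Finset (Sym2 V)} (hN : IsM G N) : mu N c 0 ≤ 2 * k := by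
  by_contra h
  push Not at h
  obtain ⟨F, hF, hFc⟩ := Finset.exists_subset_card_eq
    (show 2 * k + 1 ≤ (N.filter (fun e => c e = 0)).card from h)
  exact E.hz F (isM_subset hN (hF.trans (filter_subset _ _))) hFc
    (Finset.sum_eq_zero fun e he => (mem_filter.mp (hF he)).2)

/-- the switch -/
theorem swl (E : Env G k c) {C : Finset (Sym2 V)} {p q r t : V} (hC : IsM G C)
    (hcard : C.card + 2 = 3 * k + 1)
    (hp : ∀ e ∈ C, p ∉ e) (hq : ∀ e ∈ C, q ∉ e) (hr : ∀ e ∈ C, r ∉ e) (ht : ∀ e ∈ C, t ∉ e)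
    (hpr : p ≠ r) (hpt : p ≠ t) (hqr : q ≠ r) (hqt : q ≠ t)
    (h1 : G.Adj p q) (h2 : G.Adj r t) (h3 : G.Adj p r) (h4 : G.Adj q t) {a g : ZMod (2 * k + 1)}
    (hz1 : k ≤ mu C c 0) (hz2 : mu C c 0 < 2 * k)
    (h : Nrm (2 * k + 1) (insert s(p, q) (insert s(r, t) C)) c a g) :
    Nrm (2 * k + 1) (insert s(p, r) (insert s(q, t) C)) c a g := by
  obtain ⟨m1, c1⟩ := isM_insert2 hC h1 h2 hp hq hr ht hpr hpt hqr hqt
  obtain ⟨m2, c2⟩ := isM_insert2 hC h3 h4 hp hr hq ht h1.ne hpt hqr.symm h2.ne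
  have hk := E.hk
  have hpq := h1.ne
  have hrt := h2.ne
  have hI : (insert s(p, q) (insert s(r, t) C)) ∩ (insert s(p, r) (insert s(q, t) C)) = C := by
    ext e
    simp only [mem_inter, mem_insert]
    constructor
    · rintro ⟨h5 | h5 | h5, h6 | h6 | h6⟩ <;> first
        | exact h5
        | exact h6
        | (exfalso; rw [h5] at h6; simp only [Sym2.eq_iff] at h6; tauto)
    · intro h5
      exact ⟨Or.inr (Or.inr h5), Or.inr (Or.inr h5)⟩
  obtain ⟨a', g', hn⟩ := E.s2 (2 * k + 1) (by omega) (Sym2 V) (insert s(p, r) (insert s(q, t) C)) c (nz E m2)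
    (by rw [LL_eq, c2]; omega)
  rcases E.a2 (2 * k + 1) (by omega) (Sym2 V) _ _ c a g a' g' h hn (by rw [LL_eq, c1]; omega)
    (by rw [LL_eq, c2]; omega) (by rw [LL_eq, hI]; omega) with h5 | ⟨-, α, γ, h5, h6, h7⟩
  · exact nrm_peq h5 hn
  · exfalso
    rw [hI] at h6 h7
    by_cases ha : α = 0
    · rw [ha] at h7
      omega
    · have h8 : mu C c 0 + mu C c α ≤ C.card := by
        unfold mu
        rw [← card_union_of_disjoint]
        · exact card_le_card (union_subset (filter_subset _ _) (filter_subset _ _))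
        · rw [Finset.disjoint_left]
          intro e he he2
          exact ha (by rw [← (mem_filter.mp he2).2, (mem_filter.mp he).2])
      omega

/-- the configuration -/
structure Cf (G : SimpleGraph V) (k : ℕ) (c : Sym2 V → ZMod (2 * k + 1)) (C : Finset (Sym2 V)) (a x y b : V) : Prop where
  mC : IsM G C
  card : C.card + 2 = 3 * k + 1
  fa : ∀ e ∈ C, a ∉ e
  fx : ∀ e ∈ C, x ∉ e
  fy : ∀ e ∈ C, y ∉ e
  fb : ∀ e ∈ C, b ∉ e
  ay : a ≠ y
  xb : x ≠ b
  ax : G.Adj a x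
  yb : G.Adj y b
  xy : G.Adj x y
  ab : G.Adj a b
  vals : ∀ e ∈ C, c e = 0 ∨ c e = 2
  zeros : mu C c 0 = 2 * k
  cax : c s(a, x) = 1
  cyb : c s(y, b) = 1
  n1 : Nrm (2 * k + 1) (insert s(a, x) (insert s(y, b) C)) c 0 1
  n2 : Nrm (2 * k + 1) (insert s(x, y) (insert s(a, b) C)) c 0 2

theorem Cf.al {C : Finset (Sym2 V)} {a x y b : V} (h : Cf G k c C a x y b) : Cf G k c C x a b y where
  mC := h.mC
  card := h.card
  fa := h.fx
  fx := h.fa
  fy := h.fb
  fb := h.fy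
  ay := h.xb
  xb := h.ay
  ax := h.ax.symm
  yb := h.yb.symm
  xy := h.ab
  ab := h.xy
  vals := h.vals
  zeros := h.zeros
  cax := by rw [Sym2.eq_swap]; exact h.cax
  cyb := by rw [Sym2.eq_swap]; exact h.cyb
  n1 := by rw [Sym2.eq_swap, Sym2.eq_swap (a := b)]; exact h.n1
  n2 := by rw [Finset.insert_comm]; exact h.n2

theorem Cf.be {C : Finset (Sym2 V)} {a x y b : V} (h : Cf G k c C a x y b) : Cf G k c C y b a x where
  mC := h.mC
  card := h.card
  fa := h.fy
  fx := h.fb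
  fy := h.fa
  fb := h.fx
  ay := h.ay.symm
  xb := h.xb.symm
  ax := h.yb
  yb := h.ax
  xy := h.ab.symm
  ab := h.xy.symm
  vals := h.vals
  zeros := h.zeros
  cax := h.cyb
  cyb := h.cax
  n1 := by rw [Finset.insert_comm]; exact h.n1
  n2 := by
    rw [Finset.insert_comm, Sym2.eq_swap, Sym2.eq_swap (a := b)]
    exact h.n2

/-- data of a zero edge -/
structure Zd (G : SimpleGraph V) (k : ℕ) (c : Sym2 V → ZMod (2 * k + 1)) (C C0 : Finset (Sym2 V)) (a x y b p q : V) :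
    Prop where
  eq : C = insert s(p, q) C0
  mC : IsM G C0
  card : C0.card + 3 = 3 * k + 1
  z0 : mu C0 c 0 + 1 = 2 * k
  z2 : mu C0 c 2 + 1 = k
  fa : ∀ e ∈ C0, a ∉ e
  fx : ∀ e ∈ C0, x ∉ e
  fy : ∀ e ∈ C0, y ∉ e
  fb : ∀ e ∈ C0, b ∉ e
  fp : ∀ e ∈ C0, p ∉ e
  fq : ∀ e ∈ C0, q ∉ e
  ap : a ≠ p
  aq : a ≠ q
  xp : x ≠ p
  xq : x ≠ q
  yp : y ≠ p
  yq : y ≠ q
  bp : b ≠ p
  bq : b ≠ q
  pq : G.Adj p q

theorem two_ne (hk : 1 ≤ k) : (0 : ZMod (2 * k + 1)) ≠ 2 := by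
  intro h
  have h1 : ((2 : ℤ) : ZMod (2 * k + 1)) = 0 := by push_cast; exact h.symm
  have h2 := cast_zero h1 (by omega) (by omega)
  omega

theorem Cf.zd (hk : 1 ≤ k) {C : Finset (Sym2 V)} {a x y b : V} (h : Cf G k c C a x y b) {p q : V} (hpq : s(p, q) ∈ C)
    (h0 : c s(p, q) = 0) : Zd G k c C (C.erase s(p, q)) a x y b p q := by
  have hins : insert s(p, q) (C.erase s(p, q)) = C := Finset.insert_erase hpq
  have hcd := Finset.card_erase_add_one hpq
  have hc := h.card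
  have hsub : ∀ e ∈ C.erase s(p, q), e ∈ C := fun e he => Finset.mem_of_mem_erase he
  have hm0 : mu C c 0 = 1 + mu (C.erase s(p, q)) c 0 := by
    conv_lhs => rw [← hins]
    rw [mu_insert _ _ _ (Finset.notMem_erase _ _), if_pos h0]
  have hm2 : mu C c 2 = 0 + mu (C.erase s(p, q)) c 2 := by
    conv_lhs => rw [← hins]
    rw [mu_insert _ _ _ (Finset.notMem_erase _ _), if_neg (by rw [h0]; exact two_ne hk)]
  have hm : mu C c 0 + mu C c 2 = C.card := by
    unfold mu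
    rw [← card_union_of_disjoint]
    · congr 1
      ext e
      simp only [mem_union, mem_filter]
      have := h.vals e
      tauto
    · rw [Finset.disjoint_left]
      intro e he he2
      exact two_ne hk (by rw [← (mem_filter.mp he2).2, (mem_filter.mp he).2])
  have hz := h.zeros
  have hP : ∀ e ∈ C.erase s(p, q), p ∉ e := fun e he hp =>
    h.mC.2 _ hpq e (hsub e he) (Finset.ne_of_mem_erase he).symm p (Sym2.mem_mk_left p q) hp
  have hQ : ∀ e ∈ C.erase s(p, q), q ∉ e := fun e he hp =>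
    h.mC.2 _ hpq e (hsub e he) (Finset.ne_of_mem_erase he).symm q (Sym2.mem_mk_right p q) hp
  have key : ∀ w : V, (∀ e ∈ C, w ∉ e) → w ≠ p ∧ w ≠ q := fun w hw =>
    ⟨fun e => hw _ hpq (e ▸ Sym2.mem_mk_left p q), fun e => hw _ hpq (e ▸ Sym2.mem_mk_right p q)⟩
  exact {
    eq := hins.symm
    mC := isM_subset h.mC (Finset.erase_subset _ _)
    card := by omega
    z0 := by omega
    z2 := by omega
    fa := fun e he => h.fa e (hsub e he)
    fx := fun e he => h.fx e (hsub e he)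
    fy := fun e he => h.fy e (hsub e he)
    fb := fun e he => h.fb e (hsub e he)
    fp := hP
    fq := hQ
    ap := (key a h.fa).1
    aq := (key a h.fa).2
    xp := (key x h.fx).1
    xq := (key x h.fx).2
    yp := (key y h.fy).1
    yq := (key y h.fy).2
    bp := (key b h.fb).1
    bq := (key b h.fb).2
    pq := h.mC.1 _ hpq }

/-- the edges of `M' \ M` are nonzero -/
theorem Cf.xy0 (E : Env G k c) {C : Finset (Sym2 V)} {a x y b : V} (h : Cf G k c C a x y b) :
    c s(x, y) ≠ 0 ∧ c s(a, b) ≠ 0 := by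
  obtain ⟨m2, c2⟩ := isM_insert2 h.mC h.xy h.ab h.fx h.fy h.fa h.fb h.ax.ne' h.xb h.ay.symm h.yb.ne
  have h1 := zeros_le E m2
  have hf : ∀ e ∈ insert s(a, b) C, x ∉ e := free_insert h.fx h.ax.ne' h.xb
  rw [mu_insert _ _ _ (notMem_of hf), mu_insert _ _ _ (notMem_of h.fa), h.zeros] at h1
  constructor
  · intro h2
    rw [if_pos h2] at h1
    omega
  · intro h2
    rw [if_pos h2] at h1
    omega

/-- switch with six vertices -/
theorem sw6 (E : Env G k c) {C0 : Finset (Sym2 V)} {p q r t u w : V} (hC : IsM G C0)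
    (hcard : C0.card + 3 = 3 * k + 1) (hz0 : mu C0 c 0 + 1 = 2 * k)
    (hp : ∀ e ∈ C0, p ∉ e) (hq : ∀ e ∈ C0, q ∉ e) (hr : ∀ e ∈ C0, r ∉ e) (ht : ∀ e ∈ C0, t ∉ e)
    (hu : ∀ e ∈ C0, u ∉ e) (hw : ∀ e ∈ C0, w ∉ e)
    (hpr : p ≠ r) (hpt : p ≠ t) (hqr : q ≠ r) (hqt : q ≠ t) (hpu : p ≠ u) (hpw : p ≠ w) (hqu : q ≠ u)
    (hqw : q ≠ w) (hru : r ≠ u) (hrw : r ≠ w) (htu : t ≠ u) (htw : t ≠ w)
    (h1 : G.Adj p q) (h2 : G.Adj r t) (h3 : G.Adj p r) (h4 : G.Adj q t) (h5 : G.Adj u w)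
    (h6 : c s(u, w) ≠ 0) {a g : ZMod (2 * k + 1)}
    (h : Nrm (2 * k + 1) (insert s(p, q) (insert s(r, t) (insert s(u, w) C0))) c a g) :
    Nrm (2 * k + 1) (insert s(p, r) (insert s(q, t) (insert s(u, w) C0))) c a g ∧
      IsM G (insert s(p, r) (insert s(q, t) (insert s(u, w) C0))) ∧
      (insert s(p, r) (insert s(q, t) (insert s(u, w) C0))).card = 3 * k + 1 := by
  have hk := E.hk
  have hm : mu (insert s(u, w) C0) c 0 = mu C0 c 0 := by
    rw [mu_insert _ _ _ (notMem_of hu), if_neg h6, zero_add]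
  have hcd : (insert s(u, w) C0).card = C0.card + 1 := card_insert_of_notMem (notMem_of hu)
  have m0 : IsM G (insert s(u, w) C0) := isM_insert hC h5 hu hw
  obtain ⟨m2, c2⟩ := isM_insert2 m0 h3 h4 (free_insert hp hpu hpw) (free_insert hr hru hrw)
    (free_insert hq hqu hqw) (free_insert ht htu htw) h1.ne hpt hqr.symm h2.ne
  exact ⟨swl E m0 (by omega) (free_insert hp hpu hpw) (free_insert hq hqu hqw) (free_insert hr hru hrw)
    (free_insert ht htu htw) hpr hpt hqr hqt h1 h2 h3 h4 (by omega) (by omega) h, m2, by omega⟩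

theorem F1 (E : Env G k c) {C : Finset (Sym2 V)} {a x y b : V} (h : Cf G k c C a x y b) {p q : V}
    (hpq : s(p, q) ∈ C) (h0 : c s(p, q) = 0) (hxp : G.Adj x p) (haq : G.Adj a q) :
    (c s(x, p) = 0 ∧ c s(a, q) = 1) ∨ (c s(x, p) = 1 ∧ c s(a, q) = 0) := by
  have hk := E.hk
  have Z := h.zd hk hpq h0
  set C0 := C.erase s(p, q) with hC0
  have hn : Nrm (2 * k + 1) (insert s(x, a) (insert s(p, q) (insert s(y, b) C0))) c 0 1 := by
    rw [Finset.insert_comm s(p, q), ← Z.eq, Sym2.eq_swap]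
    exact h.n1
  have h1 : (1 : ZMod (2 * k + 1)) ≠ 0 := by
    intro h
    have h1 : ((1 : ℤ) : ZMod (2 * k + 1)) = 0 := by push_cast; exact h
    have h2 := cast_zero h1 (by omega) (by omega)
    omega
  obtain ⟨h2, m2, c2⟩ := sw6 E Z.mC Z.card Z.z0 Z.fx Z.fa Z.fp Z.fq Z.fy Z.fb Z.xp Z.xq Z.ap Z.aq h.xy.ne h.xb h.ay
    h.ab.ne Z.yp.symm Z.bp.symm Z.yq.symm Z.bq.symm h.ax.symm Z.pq hxp haq h.yb (by rw [h.cyb]; exact h1) hn
  have e1 : s(a, q) ∉ insert s(y, b) C0 := notMem_of (free_insert Z.fa h.ay h.ab.ne)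
  have e2 : s(x, p) ∉ insert s(a, q) (insert s(y, b) C0) :=
    notMem_of (free_insert (free_insert Z.fx h.xy.ne h.xb) h.ax.ne' Z.xq)
  have e3 : s(y, b) ∉ C0 := notMem_of Z.fy
  obtain ⟨v1, v2, g1, g2, g3, g4⟩ := factA hk e2 e1
    (by rw [card_insert_of_notMem e3]; have := Z.card; omega) h2
  rw [mu_insert _ _ _ e3, mu_insert _ _ _ e3, if_pos h.cyb] at g3
  rw [mu_insert _ _ _ e3, if_neg (by rw [h.cyb]; exact h1)] at g4
  have z0 := Z.z0
  have z2 := Z.z2
  have g5 : PP v1 + PP v2 ≤ 1 := by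
    push_cast at g3
    have : (0 : ℤ) ≤ (if c s(y, b) = 2 then 1 else 0 : ℤ) := by split_ifs <;> norm_num
    omega
  have g6 : QQ v1 + QQ v2 ≤ 1 := by
    push_cast at g4
    omega
  have g7 : (v1 = 0 ∧ v2 = 1) ∨ (v1 = 1 ∧ v2 = 0) := by
    revert g5 g6
    unfold PP QQ
    split_ifs <;> omega
  rcases g7 with ⟨rfl, rfl⟩ | ⟨rfl, rfl⟩
  · left
    exact ⟨by rw [g1]; simp, by rw [g2]; simp⟩
  · right
    exact ⟨by rw [g1]; simp, by rw [g2]; simp⟩

theorem F3' (E : Env G k c) {C : Finset (Sym2 V)} {a x y b : V} (h : Cf G k c C a x y b) {p q : V}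
    (hpq : s(p, q) ∈ C) (h0 : c s(p, q) = 0) (hxp : G.Adj x p) (hyq : G.Adj y q) :
    Nrm (2 * k + 1) (insert s(x, p) (insert s(y, q) (insert s(a, b) (C.erase s(p, q))))) c 0 2 ∧
      IsM G (insert s(x, p) (insert s(y, q) (insert s(a, b) (C.erase s(p, q))))) ∧
      (insert s(x, p) (insert s(y, q) (insert s(a, b) (C.erase s(p, q))))).card = 3 * k + 1 := by
  have hk := E.hk
  have Z := h.zd hk hpq h0
  set C0 := C.erase s(p, q) with hC0
  have hn : Nrm (2 * k + 1) (insert s(x, y) (insert s(p, q) (insert s(a, b) C0))) c 0 2 := by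
    rw [Finset.insert_comm s(p, q), ← Z.eq]
    exact h.n2
  exact sw6 E Z.mC Z.card Z.z0 Z.fx Z.fy Z.fp Z.fq Z.fa Z.fb Z.xp Z.xq Z.yp Z.yq h.ax.ne' h.xb h.ay.symm h.yb.ne
    Z.ap.symm Z.bp.symm Z.aq.symm Z.bq.symm h.xy Z.pq hxp hyq h.ab (h.xy0 E).2 hn

theorem F3 (E : Env G k c) {C : Finset (Sym2 V)} {a x y b : V} (h : Cf G k c C a x y b) {p q : V}
    (hpq : s(p, q) ∈ C) (h0 : c s(p, q) = 0) (hxp : G.Adj x p) (hyq : G.Adj y q) :
    c s(x, p) ≠ 1 ∧ c s(y, q) ≠ 1 := by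
  obtain ⟨h1, _, h3⟩ := F3' E h hpq h0 hxp hyq
  have h4 := no_one h1 h3
  exact ⟨h4 _ (mem_insert_self _ _), h4 _ (mem_insert_of_mem (mem_insert_self _ _))⟩

theorem F4 (E : Env G k c) {C : Finset (Sym2 V)} {a x y b : V} (h : Cf G k c C a x y b) {p q : V}
    (hpq : s(p, q) ∈ C) (h0 : c s(p, q) = 0) (hbp : G.Adj b p) (haq : G.Adj a q) :
    c s(b, p) ≠ 1 ∧ c s(a, q) ≠ 1 := F3 E h.be hpq h0 hbp haq

theorem FT (E : Env G k c) {C : Finset (Sym2 V)} {a x y b : V} (h : Cf G k c C a x y b) {p q : V}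
    (hpq : s(p, q) ∈ C) (h0 : c s(p, q) = 0) : ¬ (G.Adj x p ∧ G.Adj b p ∧ G.Adj a q ∧ G.Adj y q) := by
  rintro ⟨h1, h2, h3, h4⟩
  have h5 := F1 E h hpq h0 h1 h3
  have h6 := F3 E h hpq h0 h1 h4
  have h7 := F4 E h hpq h0 h2 h3
  tauto

theorem FE (E : Env G k c) {C : Finset (Sym2 V)} {a x y b : V} (h : Cf G k c C a x y b) {p q : V}
    (hpq : s(p, q) ∈ C) (h0 : c s(p, q) = 0) (xp : G.Adj x p) (xq : G.Adj x q) (ap : G.Adj a p) (aq : G.Adj a q)
    (yp : G.Adj y p) (yq : G.Adj y q) (bx : G.Adj b x) : False := by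
  have hk := E.hk
  have hqp : s(q, p) ∈ C := by rw [Sym2.eq_swap]; exact hpq
  have h0' : c s(q, p) = 0 := by rw [Sym2.eq_swap]; exact h0
  have h1 := F1 E h hpq h0 xp aq
  have h2 := F3 E h hpq h0 xp yq
  have h3 := F1 E h hqp h0' xq ap
  have h4 := F3 E h hqp h0' xq yp
  have cxp : c s(x, p) = 0 := by tauto
  have cap : c s(a, p) = 1 := by tauto
  obtain ⟨n3, m3, c3⟩ := F3' E h hpq h0 xp yq
  have Z := h.zd hk hpq h0
  set C0 := C.erase s(p, q) with hC0
  have e1 : s(a, b) ∉ C0 := notMem_of Z.fa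
  have e2 : s(y, q) ∉ insert s(a, b) C0 := notMem_of (free_insert Z.fy h.ay.symm h.yb.ne)
  have e3 : s(x, p) ∉ insert s(y, q) (insert s(a, b) C0) :=
    notMem_of (free_insert (free_insert Z.fx h.ax.ne' h.xb) h.xy.ne Z.xq)
  have cyq : c s(y, q) ≠ 0 := by
    intro h5
    have h6 := zeros_le E m3
    rw [mu_insert _ _ _ e3, mu_insert _ _ _ e2, mu_insert _ _ _ e1, if_pos cxp, if_pos h5] at h6
    have := Z.z0
    omega
  have hn : Nrm (2 * k + 1) (insert s(a, b) (insert s(p, x) (insert s(y, q) C0))) c 0 2 := by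
    rw [Finset.insert_comm s(a, b), Finset.insert_comm s(a, b), Sym2.eq_swap (a := p)]
    exact n3
  obtain ⟨n9, -, c9⟩ := sw6 E Z.mC Z.card Z.z0 Z.fa Z.fb Z.fp Z.fx Z.fy Z.fq Z.ap h.ax.ne Z.bp h.xb.symm h.ay Z.aq
    h.yb.ne' Z.bq Z.yp.symm Z.pq.ne h.xy.ne Z.xq h.ab xp.symm ap bx yq cyq hn
  exact no_one n9 c9 _ (mem_insert_self _ _) cap

/-- the values after a rematch -/
theorem rv (E : Env G k c) {C : Finset (Sym2 V)} {a x y b : V} (h : Cf G k c C a x y b) {p p' q q' : V}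
    {C1 : Finset (Sym2 V)} (hC1 : C = insert s(p, p') (insert s(q, q') C1))
    (hp1 : c s(p, p') = 0) (hq1 : c s(q, q') = 0)
    (e1 : s(p, p') ∉ insert s(q, q') C1) (e2 : s(q, q') ∉ C1)
    (hp : ∀ e ∈ C1, p ∉ e) (hp' : ∀ e ∈ C1, p' ∉ e) (hq : ∀ e ∈ C1, q ∉ e) (hq' : ∀ e ∈ C1, q' ∉ e)
    (d1 : a ≠ p ∧ a ≠ p' ∧ a ≠ q ∧ a ≠ q') (d2 : x ≠ p ∧ x ≠ p' ∧ x ≠ q ∧ x ≠ q')
    (d3 : y ≠ p ∧ y ≠ p' ∧ y ≠ q ∧ y ≠ q') (d4 : b ≠ p ∧ b ≠ p' ∧ b ≠ q ∧ b ≠ q')
    (d5 : p ≠ q) (d6 : p ≠ q') (d7 : p' ≠ q) (d8 : p' ≠ q')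
    (a1 : G.Adj p p') (a2 : G.Adj q q') (a3 : G.Adj p q) (a4 : G.Adj p' q') :
    c s(p, q) = 0 ∧ c s(p', q') = 0 := by
  have hk := E.hk
  have hsub : ∀ e ∈ C1, e ∈ C := fun e he => by
    rw [hC1]; exact mem_insert_of_mem (mem_insert_of_mem he)
  have mC1 : IsM G C1 := isM_subset h.mC hsub
  have fa : ∀ e ∈ C1, a ∉ e := fun e he => h.fa e (hsub e he)
  have fx : ∀ e ∈ C1, x ∉ e := fun e he => h.fx e (hsub e he)
  have fy : ∀ e ∈ C1, y ∉ e := fun e he => h.fy e (hsub e he)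
  have fb : ∀ e ∈ C1, b ∉ e := fun e he => h.fb e (hsub e he)
  have hcd := h.card
  have hzz := h.zeros
  have hm : mu C c 0 + mu C c 2 = C.card := by
    unfold mu
    rw [← card_union_of_disjoint]
    · congr 1
      ext e
      simp only [mem_union, mem_filter]
      have := h.vals e
      tauto
    · rw [Finset.disjoint_left]
      intro e he he2
      exact two_ne hk (by rw [← (mem_filter.mp he2).2, (mem_filter.mp he).2])
  rw [hC1] at hcd hzz hm
  rw [card_insert_of_notMem e1, card_insert_of_notMem e2] at hcd hm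
  rw [mu_insert _ _ _ e1, mu_insert _ _ _ e2, if_pos hp1, if_pos hq1] at hzz
  rw [mu_insert _ _ _ e1, mu_insert _ _ _ e2, if_pos hp1, if_pos hq1, mu_insert _ _ _ e1, mu_insert _ _ _ e2,
    if_neg (by rw [hp1]; exact two_ne hk), if_neg (by rw [hq1]; exact two_ne hk)] at hm
  by_cases hk1 : k = 1
  · have hxy := h.xy0 E
    obtain ⟨m2, c2⟩ := isM_insert2 h.mC h.xy h.ab h.fx h.fy h.fa h.fb h.ax.ne' h.xb h.ay.symm h.yb.ne
    obtain ⟨v, w1, -, -, w4⟩ := nrm_data h.n2 (by rw [c2]; exact h.card)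
    have key : ∀ e ∈ insert s(x, y) (insert s(a, b) C), c e ≠ 0 → c e = 2 := by
      intro e he h0
      have w5 := w1 e he
      obtain ⟨w6, w7⟩ := w4 e he
      have w8 : v (c e) = 0 ∨ v (c e) = 1 := by omega
      rcases w8 with w8 | w8
      · rw [w8] at w5
        exfalso
        apply h0
        rw [w5]
        simp
      · rw [w8] at w5
        rw [w5]
        simp
    have cxy := key _ (mem_insert_self _ _) hxy.1
    have cab := key _ (mem_insert_of_mem (mem_insert_self _ _)) hxy.2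
    have tri : ∀ u w : V, G.Adj u w → (a ≠ u ∧ a ≠ w) → (x ≠ u ∧ x ≠ w) → (y ≠ u ∧ y ≠ w) → (b ≠ u ∧ b ≠ w) →
        (c s(a, x) + (c s(y, b) + c s(u, w)) ≠ 0) ∧ (c s(x, y) + (c s(a, b) + c s(u, w)) ≠ 0) := by
      intro u w huw ha hx hy hb
      have hE : IsM G (∅ : Finset (Sym2 V)) := ⟨by simp, by simp⟩
      have m0 : IsM G (insert s(u, w) ∅) := isM_insert hE huw (by simp) (by simp)
      have f0 : ∀ z : V, z ≠ u → z ≠ w → ∀ e ∈ (insert s(u, w) ∅ : Finset (Sym2 V)), z ∉ e :=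
        fun z h1 h2 => free_insert (by simp) h1 h2
      obtain ⟨m3, c3⟩ := isM_insert2 m0 h.ax h.yb (f0 a ha.1 ha.2) (f0 x hx.1 hx.2) (f0 y hy.1 hy.2)
        (f0 b hb.1 hb.2) h.ay h.ab.ne h.xy.ne h.xb
      obtain ⟨m4, c4⟩ := isM_insert2 m0 h.xy h.ab (f0 x hx.1 hx.2) (f0 y hy.1 hy.2) (f0 a ha.1 ha.2)
        (f0 b hb.1 hb.2) h.ax.ne' h.xb h.ay.symm h.yb.ne
      have s3 := E.hz _ m3 (by rw [c3]; simp; omega)
      have s4 := E.hz _ m4 (by rw [c4]; simp; omega)
      rw [Finset.sum_insert (notMem_of (free_insert (f0 a ha.1 ha.2) h.ay h.ab.ne)),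
        Finset.sum_insert (notMem_of (f0 y hy.1 hy.2)), Finset.sum_insert (by simp), Finset.sum_empty, add_zero] at s3
      rw [Finset.sum_insert (notMem_of (free_insert (f0 x hx.1 hx.2) h.ax.ne' h.xb)),
        Finset.sum_insert (notMem_of (f0 a ha.1 ha.2)), Finset.sum_insert (by simp), Finset.sum_empty, add_zero] at s4
      exact ⟨s3, s4⟩
    have t1 := tri p q a3 ⟨d1.1, d1.2.2.1⟩ ⟨d2.1, d2.2.2.1⟩ ⟨d3.1, d3.2.2.1⟩ ⟨d4.1, d4.2.2.1⟩
    have t2 := tri p' q' a4 ⟨d1.2.1, d1.2.2.2⟩ ⟨d2.2.1, d2.2.2.2⟩ ⟨d3.2.1, d3.2.2.2⟩ ⟨d4.2.1, d4.2.2.2⟩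
    rw [h.cax, h.cyb, cxy, cab] at t1 t2
    have dec : ∀ z : ZMod (2 * 1 + 1), 1 + (1 + z) ≠ 0 → 2 + (2 + z) ≠ 0 → z = 0 := by decide
    subst hk1
    exact ⟨dec _ t1.1 t1.2, dec _ t2.1 t2.2⟩
  · have ec1 : s(y, b) ∉ C1 := notMem_of fy
    have ec2 : s(a, x) ∉ insert s(y, b) C1 := notMem_of (free_insert fa h.ay h.ab.ne)
    obtain ⟨mB, cB⟩ := isM_insert2 mC1 h.ax h.yb fa fx fy fb h.ay h.ab.ne h.xy.ne h.xb
    have one0 : (1 : ZMod (2 * k + 1)) ≠ 0 := by
      intro h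
      have h1 : ((1 : ℤ) : ZMod (2 * k + 1)) = 0 := by push_cast; exact h
      have h2 := cast_zero h1 (by omega) (by omega)
      omega
    have free : ∀ z : V, (∀ e ∈ C1, z ∉ e) → a ≠ z → x ≠ z → y ≠ z → b ≠ z →
        ∀ e ∈ insert s(a, x) (insert s(y, b) C1), z ∉ e := fun z hz h1 h2 h3 h4 =>
      free_insert (free_insert hz h3.symm h4.symm) h1.symm h2.symm
    have gp := free p hp d1.1 d2.1 d3.1 d4.1
    have gp' := free p' hp' d1.2.1 d2.2.1 d3.2.1 d4.2.1
    have gq := free q hq d1.2.2.1 d2.2.2.1 d3.2.2.1 d4.2.2.1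
    have gq' := free q' hq' d1.2.2.2 d2.2.2.2 d3.2.2.2 d4.2.2.2
    have hmu : mu (insert s(a, x) (insert s(y, b) C1)) c 0 = mu C1 c 0 := by
      rw [mu_insert _ _ _ ec2, mu_insert _ _ _ ec1, if_neg (by rw [h.cax]; exact one0),
        if_neg (by rw [h.cyb]; exact one0)]
      ring
    have hn : Nrm (2 * k + 1) (insert s(p, p') (insert s(q, q') (insert s(a, x) (insert s(y, b) C1)))) c 0 1 := by
      have h5 := h.n1
      rw [hC1] at h5
      rw [show insert s(p, p') (insert s(q, q') (insert s(a, x) (insert s(y, b) C1))) =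
        insert s(a, x) (insert s(y, b) (insert s(p, p') (insert s(q, q') C1))) by
          ext e; simp only [mem_insert]; tauto]
      exact h5
    have h6 := swl E mB (by omega) gp gp' gq gq' d5 d6 d7 d8 a1 a2 a3 a4 (by omega) (by omega) hn
    obtain ⟨v1, v2, g1, g2, g3, g4⟩ := factA hk (notMem_of (free_insert gp a1.ne d6)) (notMem_of gp')
      (by omega) h6
    rw [mu_insert _ _ _ ec2, mu_insert _ _ _ ec2, mu_insert _ _ _ ec1, mu_insert _ _ _ ec1, if_pos h.cax,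
      if_pos h.cyb] at g3
    rw [hmu] at g4
    have g5 : PP v1 + PP v2 ≤ 0 := by
      push_cast at g3
      have i1 : (0 : ℤ) ≤ (if c s(y, b) = 2 then 1 else 0 : ℤ) := by split_ifs <;> norm_num
      have i2 : (0 : ℤ) ≤ (if c s(a, x) = 2 then 1 else 0 : ℤ) := by split_ifs <;> norm_num
      omega
    have g6 : QQ v1 + QQ v2 ≤ 2 := by
      push_cast at g4
      omega
    have g7 : v1 = 0 ∧ v2 = 0 := by
      revert g5 g6
      unfold PP QQ
      split_ifs <;> omega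
    rw [g1, g2, g7.1, g7.2]
    simp

/-- rematching two zero edges -/
theorem rem (E : Env G k c) {C : Finset (Sym2 V)} {a x y b : V} (h : Cf G k c C a x y b) {p p' q q' : V}
    (hp1 : s(p, p') ∈ C) (hq1 : s(q, q') ∈ C) (hne : s(p, p') ≠ s(q, q'))
    (hp0 : c s(p, p') = 0) (hq0 : c s(q, q') = 0) (a3 : G.Adj p q) (a4 : G.Adj p' q') :
    ∃ C', Cf G k c C' a x y b ∧ s(p, q) ∈ C' ∧ c s(p, q) = 0 := by
  have hk := E.hk
  have hq1' : s(q, q') ∈ C.erase s(p, p') := mem_erase.mpr ⟨hne.symm, hq1⟩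
  set C1 := (C.erase s(p, p')).erase s(q, q') with hC1
  have hsub : ∀ e ∈ C1, e ∈ C := fun e he => mem_of_mem_erase (mem_of_mem_erase he)
  have hCe : C = insert s(p, p') (insert s(q, q') C1) := by
    rw [hC1, Finset.insert_erase hq1', Finset.insert_erase hp1]
  have e2 : s(q, q') ∉ C1 := notMem_erase _ _
  have e1 : s(p, p') ∉ insert s(q, q') C1 := by
    rw [mem_insert, not_or]
    exact ⟨hne, fun h => notMem_erase _ _ (mem_of_mem_erase h)⟩
  have mm1 : ∀ z : V, z ∈ s(p, p') → ∀ e ∈ C1, z ∉ e := fun z hz e he =>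
    h.mC.2 _ hp1 e (hsub e he) (fun h' => (notMem_erase _ _ (mem_of_mem_erase (h' ▸ he)))) z hz
  have mm2 : ∀ z : V, z ∈ s(q, q') → ∀ e ∈ C1, z ∉ e := fun z hz e he =>
    h.mC.2 _ hq1 e (hsub e he) (fun h' => (notMem_erase _ _ (h' ▸ he))) z hz
  have hp := mm1 p (Sym2.mem_mk_left _ _)
  have hp' := mm1 p' (Sym2.mem_mk_right _ _)
  have hq := mm2 q (Sym2.mem_mk_left _ _)
  have hq' := mm2 q' (Sym2.mem_mk_right _ _)
  have key : ∀ w : V, (∀ e ∈ C, w ∉ e) → w ≠ p ∧ w ≠ p' ∧ w ≠ q ∧ w ≠ q' := fun w hw =>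
    ⟨fun e => hw _ hp1 (e ▸ Sym2.mem_mk_left p p'), fun e => hw _ hp1 (e ▸ Sym2.mem_mk_right p p'),
      fun e => hw _ hq1 (e ▸ Sym2.mem_mk_left q q'), fun e => hw _ hq1 (e ▸ Sym2.mem_mk_right q q')⟩
  have dd : ∀ w : V, w ∈ s(p, p') → w ≠ q ∧ w ≠ q' := fun w hw =>
    ⟨fun e => h.mC.2 _ hp1 _ hq1 hne w hw (e ▸ Sym2.mem_mk_left q q'),
      fun e => h.mC.2 _ hp1 _ hq1 hne w hw (e ▸ Sym2.mem_mk_right q q')⟩
  obtain ⟨d5, d6⟩ := dd p (Sym2.mem_mk_left _ _)
  obtain ⟨d7, d8⟩ := dd p' (Sym2.mem_mk_right _ _)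
  have a1 : G.Adj p p' := h.mC.1 _ hp1
  have a2 : G.Adj q q' := h.mC.1 _ hq1
  have d1 := key a h.fa
  have d2 := key x h.fx
  have d3 := key y h.fy
  have d4 := key b h.fb
  obtain ⟨r1, r2⟩ := rv E h hCe hp0 hq0 e1 e2 hp hp' hq hq' d1 d2 d3 d4 d5 d6 d7 d8 a1 a2 a3 a4
  have mC1 : IsM G C1 := isM_subset h.mC hsub
  obtain ⟨m5, c5⟩ := isM_insert2 mC1 a3 a4 hp hq hp' hq' a1.ne d6 d7.symm a2.ne
  have f2 : s(p', q') ∉ C1 := notMem_of hp'
  have f1 : s(p, q) ∉ insert s(p', q') C1 := notMem_of (free_insert hp a1.ne d6)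
  have hcd := h.card
  have hzz := h.zeros
  rw [hCe, card_insert_of_notMem e1, card_insert_of_notMem e2] at hcd
  rw [hCe, mu_insert _ _ _ e1, mu_insert _ _ _ e2, if_pos hp0, if_pos hq0] at hzz
  have fr : ∀ w : V, (∀ e ∈ C, w ∉ e) → ∀ e ∈ insert s(p, q) (insert s(p', q') C1), w ∉ e := fun w hw =>
    free_insert (free_insert (fun e he => hw e (hsub e he)) (key w hw).2.1 (key w hw).2.2.2) (key w hw).1
      (key w hw).2.2.1
  -- normal forms
  have trans : ∀ (A B : Sym2 V) (α γ : ZMod (2 * k + 1)), A ∉ insert B C → B ∉ C →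
      s(p, q) ∉ insert s(p', q') (insert A (insert B C1)) → s(p', q') ∉ insert A (insert B C1) →
      Nrm (2 * k + 1) (insert A (insert B C)) c α γ →
      Nrm (2 * k + 1) (insert A (insert B (insert s(p, q) (insert s(p', q') C1)))) c α γ := by
    intro A B α γ hA hB hf1 hf2 hn
    rw [hCe, show insert A (insert B (insert s(p, p') (insert s(q, q') C1))) =
      insert s(p, p') (insert s(q, q') (insert A (insert B C1))) by
        ext e; simp only [mem_insert]; tauto] at hn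
    rw [show insert A (insert B (insert s(p, q) (insert s(p', q') C1))) =
      insert s(p, q) (insert s(p', q') (insert A (insert B C1))) by
        ext e; simp only [mem_insert]; tauto]
    have hB1 : B ≠ s(q, q') := fun h => hB (h ▸ hq1)
    have hB2 : B ≠ s(p, p') := fun h => hB (h ▸ hp1)
    have hA1 : A ≠ s(q, q') := fun h => hA (mem_insert_of_mem (h ▸ hq1))
    have hA2 : A ≠ s(p, p') := fun h => hA (mem_insert_of_mem (h ▸ hp1))
    refine nrm_replace ?_ ?_ hf1 hf2 (r1.trans hp0.symm) (r2.trans hq0.symm) hn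
    · simp only [mem_insert, not_or] at e1 ⊢
      exact ⟨e1.1, hA2.symm, hB2.symm, e1.2⟩
    · simp only [mem_insert, not_or]
      exact ⟨hA1.symm, hB1.symm, e2⟩
  refine ⟨insert s(p, q) (insert s(p', q') C1), ?_, mem_insert_self _ _, r1⟩
  refine {
    mC := m5
    card := by omega
    fa := fr a h.fa
    fx := fr x h.fx
    fy := fr y h.fy
    fb := fr b h.fb
    ay := h.ay
    xb := h.xb
    ax := h.ax
    yb := h.yb
    xy := h.xy
    ab := h.ab
    vals := ?_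
    zeros := ?_
    cax := h.cax
    cyb := h.cyb
    n1 := ?_
    n2 := ?_ }
  · intro e he
    rcases mem_insert.mp he with rfl | he
    · exact Or.inl r1
    · rcases mem_insert.mp he with rfl | he
      · exact Or.inl r2
      · exact h.vals e (hsub e he)
  · rw [mu_insert _ _ _ f1, mu_insert _ _ _ f2, if_pos r1, if_pos r2]
    exact hzz
  · refine trans _ _ _ _ (notMem_of (free_insert h.fa h.ay h.ab.ne)) (notMem_of h.fy) ?_ ?_ h.n1
    · exact notMem_of (free_insert (free_insert (free_insert hp d3.1.symm d4.1.symm) d1.1.symm d2.1.symm) a1.ne d6)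
    · exact notMem_of (free_insert (free_insert hp' d3.2.1.symm d4.2.1.symm) d1.2.1.symm d2.2.1.symm)
  · refine trans _ _ _ _ (notMem_of (free_insert h.fx h.ax.ne' h.xb)) (notMem_of h.fa) ?_ ?_ h.n2
    · exact notMem_of (free_insert (free_insert (free_insert hp d1.1.symm d4.1.symm) d2.1.symm d3.1.symm) a1.ne d6)
    · exact notMem_of (free_insert (free_insert hp' d1.2.1.symm d4.2.1.symm) d2.2.1.symm d3.2.1.symm)

theorem cnt {W : Type} [DecidableEq W] (Z : Finset W) (f g : W → ℕ) (hZ : 3 ≤ Z.card)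
    (h1 : ∀ p ∈ Z, ∀ q ∈ Z, p ≠ q → 1 ≤ f p + g q) (h2 : ∑ z ∈ Z, (f z + g z) ≤ Z.card) :
    (∀ z ∈ Z, f z = 1 ∧ g z = 0) ∨ (∀ z ∈ Z, g z = 1 ∧ f z = 0) := by
  have A : ∀ f g : W → ℕ, ∑ z ∈ Z, (f z + g z) ≤ Z.card → (∀ z ∈ Z, 1 ≤ f z) →
      ∀ z ∈ Z, f z = 1 ∧ g z = 0 := by
    intro f g h h3 z hz
    rw [Finset.sum_add_distrib] at h
    have h3' := h3 z hz
    have h4 : (Z.erase z).card ≤ ∑ z ∈ Z.erase z, f z := by
      calc (Z.erase z).card = ∑ _z ∈ Z.erase z, 1 := by simp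
        _ ≤ _ := Finset.sum_le_sum fun w hw => h3 w (mem_of_mem_erase hw)
    have h5 : g z ≤ ∑ z ∈ Z, g z := Finset.single_le_sum (f := g) (fun _ _ => Nat.zero_le _) hz
    have h6 := Finset.add_sum_erase Z f hz
    have h7 := Finset.card_erase_add_one hz
    omega
  by_cases hf : ∀ z ∈ Z, 1 ≤ f z
  · left
    exact A f g h2 hf
  by_cases hg : ∀ z ∈ Z, 1 ≤ g z
  · right
    exact A g f (by simpa [add_comm] using h2) hg
  exfalso
  push Not at hf hg
  obtain ⟨p0, hp0, hfp⟩ := hf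
  obtain ⟨q0, hq0, hgq⟩ := hg
  have hpq : p0 = q0 := by
    by_contra hne
    have := h1 p0 hp0 q0 hq0 hne
    omega
  subst hpq
  have h6 : ∑ z ∈ Z.erase p0, 2 ≤ ∑ z ∈ Z.erase p0, (f z + g z) := Finset.sum_le_sum fun z hz => by
    have hz1 := (Finset.mem_erase.mp hz)
    have := h1 p0 hp0 z hz1.2 hz1.1.symm
    have := h1 z hz1.2 p0 hp0 hz1.1
    omega
  have h7 : ∑ z ∈ Z.erase p0, (f z + g z) ≤ ∑ z ∈ Z, (f z + g z) :=
    Finset.sum_le_sum_of_subset (Finset.erase_subset _ _)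
  rw [Finset.sum_const, Finset.card_erase_of_mem hp0, smul_eq_mul] at h6
  omega

theorem case1 (E : Env G k c) {a x y b : V} (Z : Finset V) (hZ : 3 ≤ Z.card)
    (H : ∀ p ∈ Z, ∀ q ∈ Z, p ≠ q → ∃ C', Cf G k c C' a x y b ∧ s(p, q) ∈ C' ∧ c s(p, q) = 0)
    (ha : ∀ z ∈ Z, G.Adj a z) (hy : ∀ z ∈ Z, G.Adj y z) (hxb : ∀ z ∈ Z, G.Adj x z ∨ G.Adj b z)
    (bx : G.Adj b x) : False := by
  obtain ⟨p, hp, q, hq, hpq⟩ := Finset.one_lt_card.mp (show 1 < Z.card by omega)
  by_cases h1 : ∀ z ∈ Z, G.Adj x z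
  · obtain ⟨C', hC, hm, h0⟩ := H p hp q hq hpq
    exact FE E hC hm h0 (h1 p hp) (h1 q hq) (ha p hp) (ha q hq) (hy p hp) (hy q hq) bx
  by_cases h2 : ∀ z ∈ Z, G.Adj b z
  · obtain ⟨C', hC, hm, h0⟩ := H p hp q hq hpq
    exact FE E hC.be hm h0 (h2 p hp) (h2 q hq) (hy p hp) (hy q hq) (ha p hp) (ha q hq) bx.symm
  push Not at h1 h2
  obtain ⟨p1, hp1, hx1⟩ := h1
  obtain ⟨p2, hp2, hb2⟩ := h2
  have hb1 : G.Adj b p1 := (hxb p1 hp1).resolve_left hx1
  have hx2 : G.Adj x p2 := (hxb p2 hp2).resolve_right hb2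
  obtain ⟨r, hr, hr2⟩ := Finset.exists_mem_notMem_of_card_lt_card
    (show ({p1, p2} : Finset V).card < Z.card from lt_of_le_of_lt Finset.card_le_two (by omega))
  simp only [mem_insert, mem_singleton, not_or] at hr2
  obtain ⟨C1, hC1, m1, z1⟩ := H p1 hp1 r hr (Ne.symm hr2.1)
  obtain ⟨C2, hC2, m2, z2⟩ := H p2 hp2 r hr (Ne.symm hr2.2)
  have g1 := F1 E hC2 m2 z2 hx2 (ha r hr)
  have g2 := F3 E hC2 m2 z2 hx2 (hy r hr)
  have g3 := F4 E hC1 m1 z1 hb1 (ha r hr)
  tauto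

theorem core (E : Env G k c) {C : Finset (Sym2 V)} {a x y b : V} (h : Cf G k c C a x y b)
    (hmis : mis G ≤ 4 * k) : False := by
  classical
  have hk := E.hk
  set E0 := C.filter (fun e => c e = 0) with hE0
  have hE0c : E0.card = 2 * k := h.zeros
  set Z : Finset V := E0.biUnion (fun e => e.toFinset) with hZ
  have hdis : ∀ e ∈ E0, ∀ f ∈ E0, e ≠ f → Disjoint e.toFinset f.toFinset := by
    intro e he f hf hef
    rw [Finset.disjoint_left]
    intro w hw hw2
    rw [Sym2.mem_toFinset] at hw hw2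
    exact h.mC.2 e (mem_filter.mp he).1 f (mem_filter.mp hf).1 hef w hw hw2
  have hZc : Z.card = 4 * k := by
    rw [hZ, Finset.card_biUnion hdis]
    rw [Finset.sum_congr rfl (g := fun _ => 2) fun e he => ?_]
    · rw [Finset.sum_const, hE0c, smul_eq_mul]
      ring
    · exact Sym2.card_toFinset_of_not_isDiag e (SimpleGraph.not_isDiag_of_mem_edgeSet G (h.mC.1 e (mem_filter.mp he).1))
  have hZm : ∀ z ∈ Z, ∃ w, s(z, w) ∈ C ∧ c s(z, w) = 0 := by
    intro z hz
    obtain ⟨e, he, hze⟩ := mem_biUnion.mp hz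
    rw [Sym2.mem_toFinset] at hze
    obtain ⟨w, rfl⟩ := Sym2.mem_iff_exists.mp hze
    exact ⟨w, (mem_filter.mp he).1, (mem_filter.mp he).2⟩
  have hZm2 : ∀ z w : V, s(z, w) ∈ C → c s(z, w) = 0 → z ∈ Z ∧ w ∈ Z := by
    intro z w h1 h2
    constructor
    · exact mem_biUnion.mpr ⟨_, mem_filter.mpr ⟨h1, h2⟩, Sym2.mem_toFinset.mpr (Sym2.mem_mk_left _ _)⟩
    · exact mem_biUnion.mpr ⟨_, mem_filter.mpr ⟨h1, h2⟩, Sym2.mem_toFinset.mpr (Sym2.mem_mk_right _ _)⟩
  have hZn : ∀ z ∈ Z, z ≠ a ∧ z ≠ x ∧ z ≠ y ∧ z ≠ b := by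
    intro z hz
    obtain ⟨w, hw, -⟩ := hZm z hz
    have hzw := Sym2.mem_mk_left z w
    exact ⟨fun e => h.fa _ hw (e ▸ hzw), fun e => h.fx _ hw (e ▸ hzw), fun e => h.fy _ hw (e ▸ hzw),
      fun e => h.fb _ hw (e ▸ hzw)⟩
  set f : V → ℕ := fun z => (if ¬ G.Adj x z then 1 else 0) + (if ¬ G.Adj b z then 1 else 0) with hf
  set g : V → ℕ := fun z => (if ¬ G.Adj a z then 1 else 0) + (if ¬ G.Adj y z then 1 else 0) with hg
  have hfg : ∀ (C' : Finset (Sym2 V)) (p q : V), Cf G k c C' a x y b → s(p, q) ∈ C' → c s(p, q) = 0 →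
      1 ≤ f p + g q := by
    intro C' p q hC' h1 h2
    have h3 := FT E hC' h1 h2
    by_contra h4
    apply h3
    simp only [hf, hg] at h4
    refine ⟨?_, ?_, ?_, ?_⟩ <;> by_contra h5 <;> apply h4 <;> rw [if_pos h5] <;> omega
  have hlow : 4 * k ≤ ∑ z ∈ Z, (f z + g z) := by
    rw [hZ, Finset.sum_biUnion hdis]
    calc 4 * k = ∑ _e ∈ E0, 2 := by rw [Finset.sum_const, hE0c, smul_eq_mul]; ring
      _ ≤ _ := Finset.sum_le_sum fun e he => ?_
    obtain ⟨he1, he2⟩ := mem_filter.mp he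
    induction e using Sym2.ind with
    | _ p q =>
      have hpq : G.Adj p q := h.mC.1 _ he1
      rw [Sym2.toFinset_mk_eq, Finset.sum_pair hpq.ne]
      have h1 := hfg C p q h he1 he2
      have h2 := hfg C q p h (by rw [Sym2.eq_swap]; exact he1) (by rw [Sym2.eq_swap]; exact he2)
      omega
  set A : Finset V := {a, x, y, b} with hA
  have hAZ : ∀ w ∈ A, w ∉ Z := by
    intro w hw hz
    have h1 := hZn w hz
    simp only [hA, mem_insert, mem_singleton] at hw
    tauto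
  set B : Finset (V × V) := (A ×ˢ Z).filter (fun w => ¬ G.Adj w.1 w.2) with hB
  have hBc : B.card = ∑ z ∈ Z, (f z + g z) := by
    rw [hB, Finset.card_filter, Finset.sum_product_right]
    refine Finset.sum_congr rfl fun z _ => ?_
    rw [hA, Finset.sum_insert, Finset.sum_insert, Finset.sum_insert, Finset.sum_singleton]
    · simp only [hf, hg]
      ring
    · simp only [mem_singleton]
      exact h.yb.ne
    · simp only [mem_insert, mem_singleton, not_or]
      exact ⟨h.xy.ne, h.xb⟩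
    · simp only [mem_insert, mem_singleton, not_or]
      exact ⟨h.ax.ne, h.ay, h.ab.ne⟩
  have hBm : ∀ w ∈ B, w.1 ∈ A ∧ w.2 ∈ Z ∧ ¬ G.Adj w.1 w.2 := by
    intro w hw
    have h1 := mem_filter.mp hw
    exact ⟨(mem_product.mp h1.1).1, (mem_product.mp h1.1).2, h1.2⟩
  set I := B.image (fun w => s(w.1, w.2)) with hI
  have hIc : I.card = B.card := by
    refine Finset.card_image_of_injOn fun w hw w' hw' hww => ?_
    have h1 := hBm w hw
    have h2 := hBm w' hw'
    rcases Sym2.eq_iff.mp hww with h3 | h3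
    · exact Prod.ext h3.1 h3.2
    · exfalso
      exact hAZ _ h1.1 (h3.1 ▸ h2.2.1)
  set D := (Set.toFinite (Gᶜ).edgeSet).toFinset with hD
  have hDc : D.card = mis G := (Set.ncard_eq_toFinset_card _ _).symm
  have hID : I ⊆ D := by
    intro e he
    obtain ⟨w, hw, rfl⟩ := mem_image.mp he
    have h1 := hBm w hw
    rw [hD, Set.Finite.mem_toFinset, SimpleGraph.mem_edgeSet, SimpleGraph.compl_adj]
    exact ⟨fun e => hAZ _ h1.1 (e ▸ h1.2.1), h1.2.2⟩
  have hIDe : I = D := Finset.eq_of_subset_of_card_le hID (by omega)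
  have hsum : ∑ z ∈ Z, (f z + g z) ≤ Z.card := by
    rw [← hBc, ← hIc, hZc]
    exact (card_le_card hID).trans (by omega)
  have hadj : ∀ u v : V, u ≠ v → (u ∈ A → v ∉ Z) → (v ∈ A → u ∉ Z) → G.Adj u v := by
    intro u v huv h1 h2
    by_contra h3
    have h4 : s(u, v) ∈ I := by
      rw [hIDe, hD, Set.Finite.mem_toFinset, SimpleGraph.mem_edgeSet, SimpleGraph.compl_adj]
      exact ⟨huv, h3⟩
    obtain ⟨w, hw, hws⟩ := mem_image.mp h4
    have h5 := hBm w hw
    rcases Sym2.eq_iff.mp hws with h6 | h6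
    · exact h1 (h6.1 ▸ h5.1) (h6.2 ▸ h5.2.1)
    · exact h2 (h6.1 ▸ h5.1) (h6.2 ▸ h5.2.1)
  have hZZ : ∀ u ∈ Z, ∀ v ∈ Z, u ≠ v → G.Adj u v := fun u hu v hv huv =>
    hadj u v huv (fun h => absurd hu (hAZ u h)) (fun h => absurd hv (hAZ v h))
  have bx : G.Adj b x := hadj b x h.xb.symm (fun _ => hAZ x (by simp [hA])) (fun _ => hAZ b (by simp [hA]))
  have ya : G.Adj y a := hadj y a h.ay.symm (fun _ => hAZ a (by simp [hA])) (fun _ => hAZ y (by simp [hA]))
  have H : ∀ p ∈ Z, ∀ q ∈ Z, p ≠ q → ∃ C', Cf G k c C' a x y b ∧ s(p, q) ∈ C' ∧ c s(p, q) = 0 := by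
    intro p hp q hq hpq
    obtain ⟨p', hp1, hp0⟩ := hZm p hp
    obtain ⟨q', hq1, hq0⟩ := hZm q hq
    by_cases he : s(p, p') = s(q, q')
    · rcases Sym2.eq_iff.mp he with h1 | h1
      · exact absurd h1.1 hpq
      · refine ⟨C, h, ?_, ?_⟩
        · rw [← h1.2]; exact hp1
        · rw [← h1.2]; exact hp0
    · have hpq' : p' ≠ q' := by
        intro h1
        exact h.mC.2 _ hp1 _ hq1 he p' (Sym2.mem_mk_right _ _) (h1 ▸ Sym2.mem_mk_right _ _)
      exact rem E h hp1 hq1 he hp0 hq0 (hZZ p hp q hq hpq)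
        (hZZ p' (hZm2 _ _ hp1 hp0).2 q' (hZm2 _ _ hq1 hq0).2 hpq')
  rcases cnt Z f g (by omega) (fun p hp q hq hpq => by
    obtain ⟨C', h1, h2, h3⟩ := H p hp q hq hpq
    exact hfg C' p q h1 h2 h3) hsum with h1 | h1
  · refine case1 E Z (by omega) H (fun z hz => ?_) (fun z hz => ?_) (fun z hz => ?_) bx
    · have h2 := (h1 z hz).2
      simp only [hg] at h2
      by_contra h3
      rw [if_pos h3] at h2
      omega
    · have h2 := (h1 z hz).2
      simp only [hg] at h2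
      by_contra h3
      rw [if_pos h3] at h2
      omega
    · have h2 := (h1 z hz).1
      simp only [hf] at h2
      by_contra h3
      rw [not_or] at h3
      rw [if_pos h3.1, if_pos h3.2] at h2
      omega
  · refine case1 E (a := x) (x := a) (y := b) (b := y) Z (by omega) (fun p hp q hq hpq => ?_)
      (fun z hz => ?_) (fun z hz => ?_) (fun z hz => ?_) ya
    · obtain ⟨C', h2, h3⟩ := H p hp q hq hpq
      exact ⟨C', h2.al, h3⟩
    · have h2 := (h1 z hz).2
      simp only [hf] at h2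
      by_contra h3
      rw [if_pos h3] at h2
      omega
    · have h2 := (h1 z hz).2
      simp only [hf] at h2
      by_contra h3
      rw [if_pos h3] at h2
      omega
    · have h2 := (h1 z hz).1
      simp only [hg] at h2
      by_contra h3
      rw [not_or] at h3
      rw [if_pos h3.1, if_pos h3.2] at h2
      omega

/-- perfect matchings cover all vertices -/
theorem cover {M : Finset (Sym2 V)} (h : IsM G M) (hc : 2 * M.card = Fintype.card V) (v : V) :
    ∃ w, s(v, w) ∈ M := by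
  have hdis : ∀ e ∈ M, ∀ f ∈ M, e ≠ f → Disjoint e.toFinset f.toFinset := by
    intro e he f hf hef
    rw [Finset.disjoint_left]
    intro w hw hw2
    rw [Sym2.mem_toFinset] at hw hw2
    exact h.2 e he f hf hef w hw hw2
  have h1 : (M.biUnion (fun e => e.toFinset)).card = Fintype.card V := by
    rw [Finset.card_biUnion hdis, Finset.sum_congr rfl (g := fun _ => 2) fun e he => ?_]
    · rw [Finset.sum_const, smul_eq_mul]
      omega
    · exact Sym2.card_toFinset_of_not_isDiag e (SimpleGraph.not_isDiag_of_mem_edgeSet G (h.1 e he))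
  have h2 := (Finset.card_eq_iff_eq_univ _).mp h1
  have h3 : v ∈ M.biUnion (fun e => e.toFinset) := by rw [h2]; exact mem_univ _
  obtain ⟨e, he, hv⟩ := mem_biUnion.mp h3
  rw [Sym2.mem_toFinset] at hv
  obtain ⟨w, rfl⟩ := Sym2.mem_iff_exists.mp hv
  exact ⟨w, he⟩

theorem names {M M' : Finset (Sym2 V)} (h : IsM G M) (h' : IsM G M') (hc : 2 * M.card = Fintype.card V)
    (hc' : 2 * M'.card = Fintype.card V) (h1 : (M \ M').card = 2) (h2 : (M' \ M).card = 2) :
    ∃ a x y b : V, a ≠ y ∧ x ≠ b ∧ G.Adj a x ∧ G.Adj y b ∧ G.Adj x y ∧ G.Adj a b ∧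
      M \ M' = {s(a, x), s(y, b)} ∧ M' \ M = {s(x, y), s(a, b)} ∧
      (∀ e ∈ M ∩ M', a ∉ e ∧ x ∉ e ∧ y ∉ e ∧ b ∉ e) := by
  have uq : ∀ e ∈ M, ∀ f ∈ M, ∀ v : V, v ∈ e → v ∈ f → e = f := fun e he f hf v hv hv2 => by
    by_contra hne
    exact h.2 e he f hf hne v hv hv2
  have uq' : ∀ e ∈ M', ∀ f ∈ M', ∀ v : V, v ∈ e → v ∈ f → e = f := fun e he f hf v hv hv2 => by
    by_contra hne
    exact h'.2 e he f hf hne v hv hv2
  obtain ⟨e1, he1⟩ := Finset.card_pos.mp (show 0 < (M \ M').card by omega)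
  induction e1 using Sym2.ind with
  | _ a x =>
    obtain ⟨m1, n1⟩ := mem_sdiff.mp he1
    obtain ⟨y, hxy⟩ := cover h' hc' x
    have n2 : s(x, y) ∉ M := fun h3 => by
      rw [uq _ m1 _ h3 x (Sym2.mem_mk_right _ _) (Sym2.mem_mk_left _ _)] at n1
      exact n1 hxy
    have ax : G.Adj a x := h.1 _ m1
    have axy : G.Adj x y := h'.1 _ hxy
    obtain ⟨b, hyb⟩ := cover h hc y
    have n3 : s(y, b) ∉ M' := fun h3 => by
      rw [uq' _ hxy _ h3 y (Sym2.mem_mk_right _ _) (Sym2.mem_mk_left _ _)] at n2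
      exact n2 hyb
    have ayb : G.Adj y b := h.1 _ hyb
    have n4 : s(a, x) ≠ s(y, b) := by
      intro h3
      rcases Sym2.eq_iff.mp h3 with h4 | h4
      · apply n2
        rw [h4.2, Sym2.eq_swap]
        exact hyb
      · exact axy.ne h4.2
    have hay : a ≠ y := fun h3 => n4 (uq _ m1 _ hyb a (Sym2.mem_mk_left _ _) (h3 ▸ Sym2.mem_mk_left _ _))
    have hxb : x ≠ b := fun h3 => n4 (uq _ m1 _ hyb x (Sym2.mem_mk_right _ _) (h3 ▸ Sym2.mem_mk_right _ _))
    have hMM : M \ M' = {s(a, x), s(y, b)} := by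
      symm
      apply Finset.eq_of_subset_of_card_le
      · intro e he
        rcases mem_insert.mp he with rfl | he
        · exact he1
        · rw [mem_singleton.mp he]
          exact mem_sdiff.mpr ⟨hyb, n3⟩
      · rw [h1, Finset.card_pair n4]
    obtain ⟨d, had⟩ := cover h' hc' a
    have n5 : s(a, d) ∉ M := fun h3 => by
      rw [uq _ m1 _ h3 a (Sym2.mem_mk_left _ _) (Sym2.mem_mk_left _ _)] at n1
      exact n1 had
    have aad : G.Adj a d := h'.1 _ had
    obtain ⟨z, hdz⟩ := cover h hc d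
    have n6 : s(d, z) ∉ M' := fun h3 => by
      rw [uq' _ had _ h3 d (Sym2.mem_mk_right _ _) (Sym2.mem_mk_left _ _)] at n5
      exact n5 hdz
    have h7 : s(d, z) ∈ ({s(a, x), s(y, b)} : Finset (Sym2 V)) := by
      rw [← hMM]
      exact mem_sdiff.mpr ⟨hdz, n6⟩
    have hdb : d = b := by
      rcases mem_insert.mp h7 with h8 | h8
      · have h9 : d ∈ s(a, x) := h8 ▸ Sym2.mem_mk_left _ _
        rcases Sym2.mem_iff.mp h9 with h10 | h10
        · exact absurd h10.symm aad.ne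
        · rw [h10] at had
          exact absurd had n1
      · have h9 : d ∈ s(y, b) := (mem_singleton.mp h8) ▸ Sym2.mem_mk_left _ _
        rcases Sym2.mem_iff.mp h9 with h10 | h10
        · rw [h10] at had
          have h11 := uq' _ had _ hxy y (Sym2.mem_mk_right _ _) (Sym2.mem_mk_right _ _)
          rcases Sym2.eq_iff.mp h11 with h12 | h12
          · exact absurd h12.1 ax.ne
          · exact absurd h12.1 hay
        · exact h10
    rw [hdb] at had aad
    have n7 : s(x, y) ≠ s(a, b) := by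
      intro h3
      rcases Sym2.eq_iff.mp h3 with h4 | h4
      · exact ax.ne h4.1.symm
      · exact hxb h4.1
    have n8 : s(a, b) ∉ M := by rw [← hdb]; exact n5
    have hMM' : M' \ M = {s(x, y), s(a, b)} := by
      symm
      apply Finset.eq_of_subset_of_card_le
      · intro e he
        rcases mem_insert.mp he with rfl | he
        · exact mem_sdiff.mpr ⟨hxy, n2⟩
        · rw [mem_singleton.mp he]
          exact mem_sdiff.mpr ⟨had, n8⟩
      · rw [h2, Finset.card_pair n7]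
    refine ⟨a, x, y, b, hay, hxb, ax, ayb, axy, aad, hMM, hMM', fun e he => ?_⟩
    obtain ⟨he1, he2⟩ := mem_inter.mp he
    refine ⟨fun h3 => ?_, fun h3 => ?_, fun h3 => ?_, fun h3 => ?_⟩
    · exact n1 (uq _ he1 _ m1 a h3 (Sym2.mem_mk_left _ _) ▸ he2)
    · exact n1 (uq _ he1 _ m1 x h3 (Sym2.mem_mk_right _ _) ▸ he2)
    · exact n3 (uq _ he1 _ hyb y h3 (Sym2.mem_mk_left _ _) ▸ he2)
    · exact n3 (uq _ he1 _ hyb b h3 (Sym2.mem_mk_right _ _) ▸ he2)

theorem eq_ins {M M' : Finset (Sym2 V)} {e f : Sym2 V} (h : M \ M' = {e, f}) :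
    M = insert e (insert f (M ∩ M')) := by
  ext z
  have h1 : z ∈ M \ M' ↔ z ∈ ({e, f} : Finset (Sym2 V)) := by rw [h]
  simp only [mem_sdiff, mem_insert, mem_singleton, mem_inter] at h1 ⊢
  tauto

/-- the normalized case -/
theorem core01 (E : Env G k c) {M M' : Finset (Sym2 V)} (hM : IsM G M) (hM' : IsM G M')
    (hc : M.card = 3 * k + 1) (hc' : M'.card = 3 * k + 1) (hV : Fintype.card V = 6 * k + 2)
    (h1 : (M \ M').card = 2) (h2 : (M' \ M).card = 2) (n1 : Nrm (2 * k + 1) M c 0 1)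
    (n2 : Nrm (2 * k + 1) M' c 0 2) (hv : ∀ e ∈ M \ M', c e = 1)
    (hv2 : ∀ e ∈ M ∩ M', c e = 0 ∨ c e = 2) (hz : mu (M ∩ M') c 0 = 2 * k) (hmis : mis G ≤ 4 * k) : False := by
  obtain ⟨a, x, y, b, hay, hxb, ax, yb, xy, ab, hMM, hMM', hfr⟩ := names hM hM' (by omega) (by omega) h1 h2
  have hcd : (M \ M').card + (M ∩ M').card = M.card := Finset.card_sdiff_add_card_inter M M'
  refine core E (C := M ∩ M') (a := a) (x := x) (y := y) (b := b) ?_ hmis
  exact {
    mC := isM_subset hM inter_subset_left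
    card := by omega
    fa := fun e he => (hfr e he).1
    fx := fun e he => (hfr e he).2.1
    fy := fun e he => (hfr e he).2.2.1
    fb := fun e he => (hfr e he).2.2.2
    ay := hay
    xb := hxb
    ax := ax
    yb := yb
    xy := xy
    ab := ab
    vals := hv2
    zeros := hz
    cax := hv _ (by rw [hMM]; simp)
    cyb := hv _ (by rw [hMM]; simp)
    n1 := by rw [← eq_ins hMM]; exact n1
    n2 := by rw [Finset.inter_comm, ← eq_ins hMM']; exact n2 }

/-- affine normalization -/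
theorem nrm_aff {ι : Type} {m : ℕ} {N : Finset ι} {c : ι → ZMod m} {a g α h u : ZMod m} (hu : u * h = 1)
    (hn : Nrm m N c a g) : Nrm m N (fun e => u * (c e - α)) (u * (a - α)) (u * g) := by
  obtain ⟨hg, v, h1, h2, h3⟩ := hn
  have hu' : h * u = 1 := by rw [mul_comm]; exact hu
  have key : ∀ e, h * (u * (c e - α)) + α = c e := fun e => by
    rw [← mul_assoc, hu']
    ring
  refine ⟨(IsUnit.of_mul_eq_one h hu).mul hg, fun x => v (h * x + α), fun e he => ?_, ?_, ?_⟩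
  · show u * (c e - α) = u * (a - α) + u * g * ((v (h * (u * (c e - α)) + α) : ℤ) : ZMod m)
    rw [key]
    have h4 := h1 e he
    calc u * (c e - α) = u * (a + g * ((v (c e) : ℤ) : ZMod m) - α) := by rw [← h4]
      _ = _ := by ring
  · simp only [key]
    exact h2
  · simp only [key]
    exact h3

theorem core2 (E : Env G k c) {M M' : Finset (Sym2 V)} (hM : IsM G M) (hM' : IsM G M')
    (hc : M.card = 3 * k + 1) (hc' : M'.card = 3 * k + 1) (hV : Fintype.card V = 6 * k + 2)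
    (h1 : (M \ M').card = 2) (h2 : (M' \ M).card = 2) {α g : ZMod (2 * k + 1)} (n1 : Nrm (2 * k + 1) M c α g)
    (n2 : Nrm (2 * k + 1) M' c α (2 * g)) (hv : ∀ e ∈ M \ M', c e = α + g)
    (hv2 : ∀ e ∈ M ∩ M', c e = α ∨ c e = α + 2 * g) (hz : mu (M ∩ M') c α = 2 * k) (hmis : mis G ≤ 4 * k) :
    False := by
  obtain ⟨u, hu⟩ := n1.1.exists_left_inv
  have hu' : g * u = 1 := (mul_comm g u).trans hu
  have E' : Env G k (fun e => u * (c e - α)) := {
    hk := E.hk
    s2 := E.s2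
    a2 := E.a2
    hz := fun N hN hNc h0 => by
      apply E.hz N hN hNc
      have h3 : ∑ e ∈ N, u * (c e - α) = 0 := h0
      rw [← Finset.mul_sum, Finset.sum_sub_distrib, Finset.sum_const, hNc] at h3
      have h4 : ((2 * k + 1 : ℕ) • α) = 0 := by
        rw [nsmul_eq_mul, ZMod.natCast_self, zero_mul]
      rw [h4, sub_zero] at h3
      calc ∑ e ∈ N, c e = g * (u * ∑ e ∈ N, c e) := by rw [← mul_assoc, hu', one_mul]
        _ = 0 := by rw [h3, mul_zero] }
  have m1 := nrm_aff (α := α) hu n1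
  have m2 := nrm_aff (α := α) hu n2
  rw [sub_self, mul_zero, hu] at m1
  rw [sub_self, mul_zero, show u * (2 * g) = 2 * (u * g) by ring, hu, mul_one] at m2
  refine core01 E' hM hM' hc hc' hV h1 h2 m1 m2 (fun e he => ?_) (fun e he => ?_) ?_ hmis
  · show u * (c e - α) = 1
    rw [hv e he, show u * (α + g - α) = u * g by ring, hu]
  · show u * (c e - α) = 0 ∨ u * (c e - α) = 2
    rcases hv2 e he with h3 | h3
    · left
      rw [h3]
      ring
    · right
      rw [h3, show u * (α + 2 * g - α) = 2 * (u * g) by ring, hu, mul_one]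
  · refine Eq.trans ?_ hz
    unfold mu
    congr 1
    apply Finset.filter_congr
    intro e _
    constructor
    · intro h3
      have h3' : u * (c e - α) = 0 := h3
      have h4 : g * (u * (c e - α)) = 0 := by rw [h3', mul_zero]
      rw [← mul_assoc, hu', one_mul] at h4
      exact sub_eq_zero.mp h4
    · intro h3
      show u * (c e - α) = 0
      rw [h3]
      ring

end env

section analysis

variable {ι : Type} [DecidableEq ι] {k : ℕ} {c : ι → ZMod (2 * k + 1)}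

theorem an1 (hk : 1 ≤ k) {N C : Finset ι} {a g α : ZMod (2 * k + 1)} (hn : Nrm (2 * k + 1) N c a g)
    (hN : N.card = 3 * k + 1) (hC : C ⊆ N) (hmu : mu C c α = 2 * k) :
    ∃ g1, Nrm (2 * k + 1) N c α g1 ∧ ((α = a ∧ g1 = g) ∨ (α = a + g ∧ g1 = -g)) := by
  obtain ⟨v, w1, w2, w3, w4⟩ := nrm_data hn hN
  have h1 : 2 * k ≤ (N.filter (fun e => c e = α)).card := by
    refine le_trans (le_of_eq hmu.symm) ?_
    exact card_le_card (Finset.filter_subset_filter _ hC)
  obtain ⟨e, he⟩ := Finset.card_pos.mp (show 0 < (N.filter (fun e => c e = α)).card by omega)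
  obtain ⟨he1, he2⟩ := mem_filter.mp he
  have h2 : ∀ F : ℤ → ℤ, (∀ t, 0 ≤ F t) → ∑ e ∈ N, F (v (c e)) ≤ 2 * k → F (v α) ≤ 1 := by
    intro F hF hs
    have h3 : ∑ e ∈ N.filter (fun e => c e = α), F (v (c e)) ≤ ∑ e ∈ N, F (v (c e)) :=
      Finset.sum_le_sum_of_subset_of_nonneg (filter_subset _ _) fun _ _ _ => hF _
    rw [Finset.sum_congr rfl (g := fun _ => F (v α)) fun e he => by rw [(mem_filter.mp he).2],
      Finset.sum_const, nsmul_eq_mul] at h3
    by_contra h4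
    push Not at h4
    have h5 : (2 * k : ℤ) ≤ ((N.filter (fun e => c e = α)).card : ℤ) := by exact_mod_cast h1
    have h6 : (1 : ℤ) ≤ k := by exact_mod_cast hk
    nlinarith
  have h3 := h2 PP PP_nonneg w2
  have h4 := h2 QQ QQ_nonneg w3
  have h5 : v α = 0 ∨ v α = 1 := by
    revert h3 h4
    unfold PP QQ
    split_ifs <;> omega
  have h6 := w1 e he1
  rw [he2] at h6
  rcases h5 with h5 | h5
  · rw [h5] at h6
    have h7 : α = a := by rw [h6]; simp
    exact ⟨g, h7 ▸ hn, Or.inl ⟨h7, rfl⟩⟩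
  · rw [h5] at h6
    have h7 : α = a + g := by rw [h6]; simp
    exact ⟨-g, h7 ▸ nrm_sym hn, Or.inr ⟨h7, rfl⟩⟩

theorem sum_two {C : Finset ι} {α γ : ZMod (2 * k + 1)} (hne : α ≠ γ) (h : ∀ e ∈ C, c e = α ∨ c e = γ)
    (F : ZMod (2 * k + 1) → ℤ) : ∑ e ∈ C, F (c e) = mu C c α * F α + mu C c γ * F γ := by
  rw [← Finset.sum_filter_add_sum_filter_not C (fun e => c e = α)]
  have h1 : C.filter (fun e => ¬ c e = α) = C.filter (fun e => c e = γ) := by
    apply Finset.filter_congr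
    intro e he
    constructor
    · intro h2
      exact (h e he).resolve_left h2
    · intro h2 h3
      exact hne (h3.symm.trans h2)
  rw [h1, Finset.sum_congr rfl (g := fun _ => F α) fun e he => by rw [(mem_filter.mp he).2],
    Finset.sum_const, Finset.sum_congr rfl (g := fun _ => F γ) fun e he => by rw [(mem_filter.mp he).2],
    Finset.sum_const, nsmul_eq_mul, nsmul_eq_mul]
  rfl

theorem an2 (hk : 1 ≤ k) {C : Finset ι} {d1 d2 : ι} {g α γ : ZMod (2 * k + 1)} (hd1 : d1 ∉ insert d2 C)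
    (hd2 : d2 ∉ C) (hn : Nrm (2 * k + 1) (insert d1 (insert d2 C)) c α g)
    (hC : C.card + 2 = 3 * k + 1) (hmu : mu C c α = 2 * k) (hne : α ≠ γ) (hv : ∀ e ∈ C, c e = α ∨ c e = γ) :
    (2 ≤ k ∧ γ = α + g) ∨ ((c d1 = α + g ∧ c d2 = α + g) ∧ (2 ≤ k → γ = α + 2 * g)) := by
  obtain ⟨v, w1, w2, w3, w4⟩ := nrm_data hn
    (by rw [card_insert_of_notMem hd1, card_insert_of_notMem hd2]; omega)
  rw [Finset.sum_insert hd1, Finset.sum_insert hd2] at w2 w3
  rw [sum_two hne hv (fun x => PP (v x)), hmu] at w2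
  rw [sum_two hne hv (fun x => QQ (v x)), hmu] at w3
  have hcd : (C.card : ℤ) = mu C c α + mu C c γ := by
    have h1 := sum_two hne hv (fun _ => 1)
    simpa using h1
  rw [hmu] at hcd
  have hC' : (C.card : ℤ) + 2 = 3 * k + 1 := by exact_mod_cast hC
  have hγ : (mu C c γ : ℤ) = k - 1 := by push_cast at hcd; omega
  have hsub : ∀ e ∈ C, e ∈ insert d1 (insert d2 C) := fun e he => mem_insert_of_mem (mem_insert_of_mem he)
  have hva : v α = 0 := by
    obtain ⟨e, he⟩ := Finset.card_pos.mp (show 0 < (C.filter (fun e => c e = α)).card by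
      have : (C.filter (fun e => c e = α)).card = 2 * k := hmu
      omega)
    obtain ⟨he1, he2⟩ := mem_filter.mp he
    have h6 := w1 e (hsub e he1)
    have h7 := w4 e (hsub e he1)
    rw [he2] at h6 h7
    have h8 : g * ((v α : ℤ) : ZMod (2 * k + 1)) = 0 := by
      have h9 : α + g * ((v α : ℤ) : ZMod (2 * k + 1)) = α + 0 := by rw [add_zero]; exact h6.symm
      exact add_left_cancel h9
    rw [hn.1.mul_right_eq_zero] at h8
    exact cast_zero h8 (by omega) (by omega)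
  rw [hva, hγ] at w2 w3
  have p1 : PP 0 = 0 := by unfold PP; norm_num
  have p2 : QQ 0 = 1 := by unfold QQ; norm_num
  rw [p1] at w2
  rw [p2] at w3
  push_cast at w2 w3
  have q1 := QQ_nonneg (v (c d1))
  have q2 := QQ_nonneg (v (c d2))
  have q3 := QQ_nonneg (v γ)
  have q4 := PP_nonneg (v γ)
  have hk' : (1 : ℤ) ≤ k := by exact_mod_cast hk
  have q5 : 0 ≤ ((k : ℤ) - 1) * QQ (v γ) := mul_nonneg (by linarith) q3
  have r1 : QQ (v (c d1)) = 0 := by linarith
  have r2 : QQ (v (c d2)) = 0 := by linarith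
  have r3 : 1 ≤ v (c d1) := by
    by_contra h
    unfold QQ at r1
    rw [if_pos (by omega)] at r1
    omega
  have r4 : 1 ≤ v (c d2) := by
    by_contra h
    unfold QQ at r2
    rw [if_pos (by omega)] at r2
    omega
  have s1 : PP (v (c d1)) = v (c d1) := by unfold PP; rw [if_pos r3]
  have s2 : PP (v (c d2)) = v (c d2) := by unfold PP; rw [if_pos r4]
  rw [s1, s2] at w2
  have one_of : ∀ d ∈ insert d1 (insert d2 C), v (c d) = 1 → c d = α + g := by
    intro d hd h1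
    have h2 := w1 d hd
    rw [h1] at h2
    rw [h2]
    simp
  have D1 := one_of d1 (mem_insert_self _ _)
  have D2 := one_of d2 (mem_insert_of_mem (mem_insert_self _ _))
  by_cases hk2 : 2 ≤ k
  · have hk3 : (2 : ℤ) ≤ k := by exact_mod_cast hk2
    have r5 : QQ (v γ) = 0 := by nlinarith
    have r6 : 1 ≤ v γ := by
      by_contra h
      unfold QQ at r5
      rw [if_pos (by omega)] at r5
      omega
    have s3 : PP (v γ) = v γ := by unfold PP; rw [if_pos r6]
    rw [s3] at w2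
    obtain ⟨e, he⟩ := Finset.card_pos.mp (show 0 < (C.filter (fun e => c e = γ)).card by
      have h1 : ((C.filter (fun e => c e = γ)).card : ℤ) = k - 1 := hγ
      omega)
    obtain ⟨he1, he2⟩ := mem_filter.mp he
    have h6 := w1 e (hsub e he1)
    rw [he2] at h6
    rcases (show v γ = 1 ∨ 2 ≤ v γ by omega) with h7 | h7
    · left
      rw [h7] at h6
      refine ⟨hk2, ?_⟩
      rw [h6]
      simp
    · right
      have h8 : v γ = 2 := by
        by_contra h9
        have h10 : 3 ≤ v γ := by omega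
        nlinarith
      rw [h8] at w2 h6
      refine ⟨⟨D1 (by linarith), D2 (by linarith)⟩, fun _ => ?_⟩
      rw [h6]
      push_cast
      ring
  · right
    have hk3 : (k : ℤ) = 1 := by
      have : k = 1 := by omega
      exact_mod_cast this
    rw [hk3] at w2
    refine ⟨⟨D1 (by linarith), D2 (by linarith)⟩, fun h => absurd h hk2⟩

end analysis

/-- the final theorem without the hypothesis `S_A1` -/
theorem t_SW' (hS2 : S_S2) (hA2 : S_A2) : ∀ (m : ℕ), 3 ≤ m → Odd m →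
    ∀ (V : Type) [Fintype V] [DecidableEq V] (G : SimpleGraph V) (c : Sym2 V → ZMod m),
    Fintype.card V = 3 * m - 1 → mis G ≤ 2 * m - 2 →
    (∀ M, IsM G M → M.card = m → ∑ e ∈ M, c e ≠ 0) →
    ∀ M M' (a g a' g' : ZMod m), IsM G M → IsM G M' → M.card = LL m → M'.card = LL m →
    (M \ M').card = 2 → (M' \ M).card = 2 → Nrm m M c a g → Nrm m M' c a' g' →
    PEq a g a' g' := by
  intro m hm hodd V _ _ G c hV hmis hz M M' a g a' g' hM hM' hc hc' h1 h2 n1 n2
  obtain ⟨k, rfl⟩ := hodd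
  have hk : 1 ≤ k := by omega
  have E : Env G k c := ⟨hk, hS2, hA2, hz⟩
  rw [LL_eq] at hc hc'
  have hcd : (M \ M').card + (M ∩ M').card = M.card := Finset.card_sdiff_add_card_inter M M'
  rcases hA2 (2 * k + 1) hm (Sym2 V) M M' c a g a' g' n1 n2 (by rw [LL_eq]; exact hc)
    (by rw [LL_eq]; exact hc') (by rw [LL_eq]; omega) with h3 | ⟨-, α, γ, hne, hval, hmu⟩
  · exact h3
  by_contra hnp
  have hmu' : mu (M ∩ M') c α = 2 * k := by rw [hmu]; omega
  obtain ⟨g1, m1, o1⟩ := an1 hk n1 hc (inter_subset_left (s₂ := M')) hmu'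
  obtain ⟨g2, m2, o2⟩ := an1 hk n2 hc' (inter_subset_right (s₁ := M)) hmu'
  have hg : g1 ≠ g2 := by
    intro h4
    apply hnp
    unfold PEq
    rcases o1 with ⟨o1, o3⟩ | ⟨o1, o3⟩ <;> rcases o2 with ⟨o2, o4⟩ | ⟨o2, o4⟩
    · left
      exact ⟨o2.symm.trans o1, by rw [← o4, ← o3, h4]⟩
    · right
      have h5 : g' = -g := by rw [← o3, h4, o4, neg_neg]
      exact ⟨by rw [← o1, o2, h5]; ring, h5⟩
    · right
      have h5 : g' = -g := by rw [← o4, ← h4, o3]
      exact ⟨by rw [← o2, o1], h5⟩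
    · left
      have h5 : g' = g := by
        have h6 : -g' = -g := by rw [← o4, ← h4, o3]
        exact neg_injective h6
      refine ⟨?_, h5⟩
      rw [h5] at o2
      exact add_right_cancel (o2.symm.trans o1)
  obtain ⟨d1, d2, hd, hdd⟩ := Finset.card_eq_two.mp h1
  obtain ⟨f1, f2, hf, hff⟩ := Finset.card_eq_two.mp h2
  have memd1 : d1 ∈ M \ M' := by rw [hdd]; simp
  have memd2 : d2 ∈ M \ M' := by rw [hdd]; simp
  have memf1 : f1 ∈ M' \ M := by rw [hff]; simp
  have memf2 : f2 ∈ M' \ M := by rw [hff]; simp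
  have r1 : d2 ∉ M ∩ M' := fun h => (mem_sdiff.mp memd2).2 (mem_inter.mp h).2
  have r2 : d1 ∉ insert d2 (M ∩ M') := by
    rw [mem_insert, not_or]
    exact ⟨hd, fun h => (mem_sdiff.mp memd1).2 (mem_inter.mp h).2⟩
  have r3 : f2 ∉ M ∩ M' := fun h => (mem_sdiff.mp memf2).2 (mem_inter.mp h).1
  have r4 : f1 ∉ insert f2 (M ∩ M') := by
    rw [mem_insert, not_or]
    exact ⟨hf, fun h => (mem_sdiff.mp memf1).2 (mem_inter.mp h).1⟩
  have q1 := eq_ins hdd
  have q2 := eq_ins hff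
  rw [Finset.inter_comm] at q2
  have t1 := an2 hk r2 r1 (by rw [← q1]; exact m1) (by omega) hmu' hne hval
  have t2 := an2 hk r4 r3 (by rw [← q2]; exact m2) (by omega) hmu' hne hval
  have hV' : Fintype.card V = 6 * k + 2 := by omega
  have hmis' : mis G ≤ 4 * k := by omega
  have vM : (c d1 = α + g1 ∧ c d2 = α + g1) → ∀ e ∈ M \ M', c e = α + g1 := by
    intro h e he
    rw [hdd] at he
    rcases mem_insert.mp he with rfl | he
    · exact h.1
    · rw [mem_singleton.mp he]; exact h.2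
  have vM' : (c f1 = α + g2 ∧ c f2 = α + g2) → ∀ e ∈ M' \ M, c e = α + g2 := by
    intro h e he
    rw [hff] at he
    rcases mem_insert.mp he with rfl | he
    · exact h.1
    · rw [mem_singleton.mp he]; exact h.2
  rcases t1 with ⟨hk2, t1⟩ | ⟨t1, t3⟩
  · rcases t2 with ⟨-, t2⟩ | ⟨t2, t4⟩
    · exact hg (add_left_cancel (t1.symm.trans t2))
    · have h5 := t4 hk2
      have h6 : g1 = 2 * g2 := add_left_cancel (t1.symm.trans h5)
      rw [h6] at m1
      exact core2 E hM' hM hc' hc hV' h2 h1 m2 m1 (vM' t2)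
        (fun e he => by rw [Finset.inter_comm] at he; rw [← h5]; exact hval e he)
        (by rw [Finset.inter_comm]; exact hmu') hmis'
  · rcases t2 with ⟨hk2, t2⟩ | ⟨t2, t4⟩
    · have h5 := t3 hk2
      have h6 : g2 = 2 * g1 := add_left_cancel (t2.symm.trans h5)
      rw [h6] at m2
      exact core2 E hM hM' hc hc' hV' h1 h2 m1 m2 (vM t1)
        (fun e he => by rw [← h5]; exact hval e he) hmu' hmis'
    · by_cases hk2 : 2 ≤ k
      · have h5 : 2 * g1 = 2 * g2 := add_left_cancel ((t3 hk2).symm.trans (t4 hk2))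
        apply hg
        have h6 : ((2 * k + 1 : ℕ) : ZMod (2 * k + 1)) = 0 := ZMod.natCast_self _
        push_cast at h6
        have h7 : ∀ w : ZMod (2 * k + 1), w = -(k : ZMod (2 * k + 1)) * (2 * w) := fun w => by
          have h8 : (2 * (k : ZMod (2 * k + 1)) + 1) * w = 0 := by rw [h6, zero_mul]
          linear_combination h8
        rw [h7 g1, h5, ← h7 g2]
      · have hk3 : k = 1 := by omega
        have h6 : g2 = 2 * g1 := by
          have dec : ∀ s t : ZMod (2 * 1 + 1), IsUnit s → IsUnit t → s ≠ t → t = 2 * s := by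
            intro s t hs ht
            have : Nontrivial (ZMod (2 * 1 + 1)) := ⟨0, 1, by decide⟩
            have hs0 : s ≠ 0 := hs.ne_zero
            have ht0 : t ≠ 0 := ht.ne_zero
            clear hs ht
            revert s t
            decide
          subst hk3
          exact dec g1 g2 m1.1 m2.1 hg
        rw [h6] at m2
        refine core2 E hM hM' hc hc' hV' h1 h2 m1 m2 (vM t1) (fun e he => ?_) hmu' hmis'
        left
        have h7 : (M ∩ M').filter (fun e => c e = α) = M ∩ M' :=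
          Finset.eq_of_subset_of_card_le (filter_subset _ _) (by
            have h8 : ((M ∩ M').filter (fun e => c e = α)).card = 2 * k := hmu'
            omega)
        rw [← h7] at he
        exact (mem_filter.mp he).2

theorem t_SW : S_SW := fun h1 _ h3 => t_SW' h1 h3

end Pool.Agent.H133.ZM.SW
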