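import Pool.Agent.H133.ZM.FinA
import Pool.Agent.H133.ZM.Odd
import Pool.Agent.H133.ZM.Ewalk
import Pool.Agent.H133.ZM.SW
import Pool.Agent.H133.ZM.Edouble
import Pool.Agent.H133.ZM.Epair
import Pool.Agent.H133.ZM.Eswap
import Pool.Agent.H133.ZM.Epair2

set_option autoImplicit false

/-! # All `n` and `s` -/

namespace Pool.Agent.H133.ZM.Final

open Pool.Agent.H133.ZM

theorem sw : S_SW' := fun h1 h2 => SW.t_SW' h1 h2

theorem all_eq (n s : ℕ) (hs : 1 ≤ s) :
    Pool.Agent.H621.ZM.Values.T2 n s = Pool.Agent.H621.ZM.Values.TZ n s :=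
  FinA.eq_all (OddCase.base_all sw
    (Ew.t_Ewalk E1.t_Epair E2.t_Epair2
      E1.t_Eswap) E5.t_Edouble) n s hs

end Pool.Agent.H133.ZM.Final
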