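import Pool.Agent.H133.ZM.Stm3

set_option autoImplicit false

namespace Pool.Agent.H133.ZM

open Finset

theorem t_SWfin (ha : S_SWa) (hb : S_SWb) : S_SW' := by
  intro _ hA2 m hm ho V _ _ G c hV hmis hZ M M' a g a' g' hM hM' hMc hMc' h1 h2 hN hN'
  by_contra hP
  have h3 : LL m = (M ∩ M').card + 2 := by
    have h4 := card_sdiff_add_card_inter M M'
    omega
  obtain ⟨α, d, hd, h | h⟩ := ha hA2 m hm ho _ M M' c a g a' g' hN hN' hMc hMc' h3 hP
  · exact hb m hm ho V G c hV hmis hZ M M' α d hd hM hM' hMc hMc' h1 h2 h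
  · exact hb m hm ho V G c hV hmis hZ M' M α d hd hM' hM hMc' hMc h2 h1 h

end Pool.Agent.H133.ZM
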