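import Pool.Agent.H133.ZM.Stm2

set_option autoImplicit false

/-! Short proof of S_SW' in two parts (helper133, 21:05). -/

namespace Pool.Agent.H133.ZM

open Finset

def SwD {ι : Type} [DecidableEq ι] (m : ℕ) (N N' : Finset ι) (c : ι → ZMod m) (α d : ZMod m) : Prop :=
  (∀ e ∈ N ∩ N', c e = α ∨ c e = α + 2 * d) ∧ mu (N ∩ N') c α = m - 1 ∧
  (∀ e ∈ N \ N', c e = α + d) ∧
  ∀ e ∈ N' \ N, ∃ b : ℕ, 1 ≤ b ∧ 2 * b + 1 ≤ m ∧ c e = α + ((2 * b : ℕ) : ZMod m) * d

/-- PROOF. m = 2k+1, LL m = 3k+1, |M ∩ M'| = 3k-1. S_A2 gives α ≠ γ with c ∈ {α,γ} on M ∩ M' and exactly m-1 = 2k elements of M ∩ M' of value α (so k-1 of value γ). Let v be the function of the normal form (a,g) of M. The number of elements of M with v ∉ {0,1} is at most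
∑_{v≥1}(v-1)+∑_{v≤0}(-v) ≤ 2m-2-LL m = k-1 < 2k, so v(α) ∈ {0,1}; replacing (a,g) by (a+g,-g) and v by 1-v (both inequalities are exchanged) we may assume v(α) = 0, a = α. Then ∑_{v≤0}(1-v) ≤ m-1 is used up by the m-1 elements of value α, so all other k+1 elements of M have v ≥ 1, ∑ v ≤ 2k over them.
Likewise for M': a' = α, g', v'. The PEq of the new data is equivalent to that of the old, so g ≠ g'. If k ≥ 2 (there are k-1 ≥ 1 elements of value γ): (k-1)v(γ)+2 ≤ 2k so v(γ) ∈ {1,2}, also v'(γ) ∈ {1,2}. γ - α = v(γ) g = v'(γ) g'. If v(γ) = v'(γ) then g = g' (2 is a unit), contradiction. So, up to exchanging M and M', v(γ) = 2, v'(γ) = 1, d := g, g' = 2g, γ = α+2d;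
the two elements of M \ M' have v ≥ 1 and sum ≤ 2k-2(k-1) = 2, so v = 1: value α+d. The two elements of M' \ M have v' ≥ 1 and sum ≤ 2k-(k-1) = k+1, so 1 ≤ v' ≤ k, value α + 2 v' d. If k = 1 (m = 3): no γ; M \ M' has v = 1 (sum ≤ 2): value α+g, M' \ M: v' = 1: value α+g', and g, g' are different units of ZMod 3 so g' = 2g; d = g, b = 1. -/
def S_SWa : Prop := S_A2 → ∀ (m : ℕ), 3 ≤ m → Odd m → ∀ (ι : Type) [DecidableEq ι] (M M' : Finset ι)
  (c : ι → ZMod m) (a g a' g' : ZMod m), Nrm m M c a g → Nrm m M' c a' g' →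
  M.card = LL m → M'.card = LL m → LL m = (M ∩ M').card + 2 → ¬ PEq a g a' g' →
  ∃ α d : ZMod m, IsUnit d ∧ (SwD m M M' c α d ∨ SwD m M' M c α d)

/-- PROOF. m = 2k+1. Replace c by d⁻¹(c - α) (m-matchings: sums 0 are preserved since m·α = 0): α = 0, d = 1. M, M' are perfect (card V = 3m-1 = 2(3k+1)). Common part: Z = zero edges (|Z| = 2k), T = edges of value 2 (|T| = k-1); M \ M' = {e1,e2} of value 1; M' \ M = {f1,f2}, values 2b, 1≤b≤k; e1 ∪ e2 = f1 ∪ f2 = U, |U| = 4 (both are perfect).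
Let pq be a zero edge, w in U, w ~ p. CLAIM c(wp) = 0. (i) let e be the one of e1,e2 not containing w. {wp, e} ∪ (Z - pq) ∪ T is a matching with values u = c(wp), 1, 0^{2k-1}, 2^{k-1}. If u (residue) is in [2,2k] then m-u = 2j or 2j+1 with j ≤ k-1, in [1,2k-1]; F = {wp} ∪ ({e} if odd) ∪ (j elements of T), |F| between 2 and k+1, add m-|F| ≤ 2k-1 zero edges: zero-sum. So u in {0,1}.
(ii) u ≠ 1: let f be the one of f1,f2 not containing w, value 2b. {wp,f} ∪ (Z-pq) ∪ T: F = {wp,f} ∪ (k-b elements of T) has sum 1+2b+2(k-b) = m, 2 ≤ |F| ≤ k+1, add m-|F| ≤ 2k-1 zero edges: zero-sum, contradiction.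
So for w ≠ w' in U: not both w~p and w'~q (otherwise {wp,w'q} ∪ (Z - pq) are m zero edges). Taking (w,w') = the two ends of e1, in both orders, and of e2: the pairs {w,p} or {w',q}; {w,q} or {w',p}; four different non-adjacent pairs between {p,q} and U for every zero edge: mis G ≥ 4·2k = 8k > 4k = 2m-2. Contradiction.
(Formal counting: for (w,w') = ends of e1, the map p ↦ (if w≁p then s(w,p) else s(w',σp)), p in V(Z), σp the partner, is injective from the 4k vertices of Z into the non-edges; this gives exactly ≥ 4k non-edges containing w or w' but no vertex of e2; with e2: ≥ 4k further ones.) -/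
def S_SWb : Prop := ∀ (m : ℕ), 3 ≤ m → Odd m →
  ∀ (V : Type) [Fintype V] [DecidableEq V] (G : SimpleGraph V) (c : Sym2 V → ZMod m),
  Fintype.card V = 3 * m - 1 → mis G ≤ 2 * m - 2 →
  (∀ M, IsM G M → M.card = m → ∑ e ∈ M, c e ≠ 0) →
  ∀ M M' (α d : ZMod m), IsUnit d → IsM G M → IsM G M' → M.card = LL m → M'.card = LL m →
  (M \ M').card = 2 → (M' \ M).card = 2 → ¬ SwD m M M' c α d

end Pool.Agent.H133.ZM
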